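import Mathlib
import Pool.Agent.Lib.H73F.C4
import Pool.Agent.Lib.H73F.D5

set_option autoImplicit false

namespace Pool.Agent.H1102

open Pool.Agent.H78.Farbman Pool.Agent.H73F

/-- The label of the orbit of `[[1, s / r], [0, 1]]` of an integer vector. -/
def la (s r : ℕ) (p : ℤ × ℤ) : ℤ × ℤ := (p.2, ((r : ℤ) * p.1) % ((s : ℤ) * p.2))

/-- The label of the orbit of `[[1, 0], [1, 1]]` of an integer vector. -/
def lb (p : ℤ × ℤ) : ℤ × ℤ := (p.1, p.2 % p.1)

/-- The label of the row class. -/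
def lq (s : ℕ) (p : ℤ × ℤ) : ℤ × ℤ := (p.2, p.1 % ((s : ℤ) * p.2))

/-- The number of labels of hub vectors `(x, v)`, `0 < |v| ≤ V`. -/
theorem hub_card (s r V : ℕ) (hs : 1 ≤ s) (P : Finset (ℤ × ℤ))
    (hP : ∀ p ∈ P, p.2 ≠ 0 ∧ |p.2| ≤ (V : ℤ)) :
    (P.image (la s r)).card ≤ s * (V * (V + 1)) := by
  have h0 := d5_bi 1 V (fun x => Finset.Ico (0 : ℤ) ((s * x : ℕ) : ℤ))
    ((P.image (la s r)).image fun c => ((0 : ℕ), c.1, c.2)) (by
    intro i x c hp
    rw [Finset.mem_image] at hp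
    obtain ⟨y, hy, he⟩ := hp
    rw [Finset.mem_image] at hy
    obtain ⟨p, hp, rfl⟩ := hy
    simp only [la, Prod.mk.injEq] at he
    obtain ⟨rfl, rfl, rfl⟩ := he
    obtain ⟨h1, h2⟩ := hP p hp
    refine ⟨by omega, (mem_pm _ _).2 ⟨h1, (abs_le.1 h2).1, (abs_le.1 h2).2⟩, ?_⟩
    have hs0 : (s : ℤ) ≠ 0 := by exact_mod_cast (by omega : s ≠ 0)
    have hne : (s : ℤ) * p.2 ≠ 0 := mul_ne_zero hs0 h1
    rw [Finset.mem_Ico]
    refine ⟨Int.emod_nonneg _ hne, ?_⟩
    have h5 := Int.emod_lt_abs ((r : ℤ) * p.1) hne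
    rw [abs_mul, Nat.abs_cast] at h5
    push_cast
    exact h5)
  have h2 : ∀ x : ℕ, (Finset.Ico (0 : ℤ) ((s * x : ℕ) : ℤ)).card = s * x := by
    intro x
    rw [Int.card_Ico]
    omega
  simp only [h2] at h0
  rw [d5_gauss, one_mul] at h0
  refine le_trans (le_of_eq ?_) h0
  refine (Finset.card_image_of_injective _ ?_).symm
  intro a b hab
  simp only [Prod.mk.injEq, true_and] at hab
  exact Prod.ext hab.1 hab.2

/-- The counting inequality for points whose `B`-orbit contains a hub vector. -/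
theorem k0 (s r V : ℕ) (hs : 1 ≤ s) (hr : 1 ≤ r)
    (hq : ¬ IsRelationNumber ((s : ℚ) / (r : ℚ))) (Q : Finset (ℤ × ℤ))
    (hu : ∀ p ∈ Q, (V : ℤ) < r * |p.2|)
    (hv : ∀ p ∈ Q, ∃ v : ℤ, v ≠ 0 ∧ |v| ≤ V ∧ p.1 ∣ r * p.2 - v) :
    Q.card ≤ (Q.image (lq s)).card + s * (V * (V + 1)) := by
  classical
  choose! v hv0 hvV hvd using hv
  have hr0 : (r : ℤ) ≠ 0 := by exact_mod_cast (by omega : r ≠ 0)
  have hrp : (0 : ℤ) < r := by exact_mod_cast hr
  have hsp : (0 : ℤ) < s := by exact_mod_cast hs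
  have hrq : (r : ℚ) ≠ 0 := by exact_mod_cast (by omega : r ≠ 0)
  set P1 : Finset (ℤ × ℤ) := Q.image fun p => (p.1, (r : ℤ) * p.2) with hP1
  set P0 : Finset (ℤ × ℤ) := Q.image fun p => (p.1, v p) with hP0
  have hc1 : P1.card = Q.card := by
    rw [hP1]
    apply Finset.card_image_of_injective
    intro a b hab
    simp only [Prod.mk.injEq] at hab
    exact Prod.ext hab.1 (mul_left_cancel₀ hr0 hab.2)
  have hdis : Disjoint P1 P0 := by
    rw [Finset.disjoint_left]
    intro x h1 h0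
    rw [hP1, Finset.mem_image] at h1
    rw [hP0, Finset.mem_image] at h0
    obtain ⟨p, hp, rfl⟩ := h1
    obtain ⟨p', hp', he⟩ := h0
    simp only [Prod.mk.injEq] at he
    have h2 := hvV p' hp'
    have h3 := hu p hp
    rw [he.2, abs_mul, Nat.abs_cast] at h2
    omega
  have key := c4_crit ((s : ℚ) / (r : ℚ)) hq (P1 ∪ P0) (fun p => ((p.1 : ℚ), (p.2 : ℚ))) (by
    intro p hp he
    simp only [Prod.mk.injEq] at he
    have h2 : p.2 = 0 := by exact_mod_cast he.2
    rw [Finset.mem_union] at hp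
    rcases hp with hp | hp
    · rw [hP1, Finset.mem_image] at hp
      obtain ⟨p', hp', rfl⟩ := hp
      simp only at h2
      have h3 := hu p' hp'
      rcases mul_eq_zero.1 h2 with h4 | h4
      · exact hr0 h4
      · rw [h4, abs_zero, mul_zero] at h3
        omega
    · rw [hP0, Finset.mem_image] at hp
      obtain ⟨p', hp', rfl⟩ := hp
      exact hv0 p' hp' h2) (by
    intro p _ p' _ he
    simp only [Prod.mk.injEq] at he
    exact Prod.ext (by exact_mod_cast he.1) (by exact_mod_cast he.2)) (la s r) lb (by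
    intro p _ p' _ he
    simp only [la, Prod.mk.injEq] at he
    refine ⟨congrArg (fun z : ℤ => (z : ℚ)) he.1.symm, ?_⟩
    rw [← he.1] at he
    dsimp only
    have h2 : ((s : ℤ) * p.2) ∣ (r : ℤ) * p'.1 - (r : ℤ) * p.1 := by
      apply Int.ModEq.dvd
      exact he.2
    obtain ⟨m, hm⟩ := h2
    refine ⟨m, ?_⟩
    have h3 : (r : ℚ) * p'.1 - (r : ℚ) * p.1 = (s : ℚ) * p.2 * m := by exact_mod_cast hm
    field_simp
    linarith) (by
    intro p _ p' _ he
    simp only [lb, Prod.mk.injEq] at he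
    refine ⟨congrArg (fun z : ℤ => (z : ℚ)) he.1.symm, ?_⟩
    rw [← he.1] at he
    dsimp only
    have h2 : p.1 ∣ p'.2 - p.2 := Int.ModEq.dvd he.2
    obtain ⟨m, hm⟩ := h2
    refine ⟨m, ?_⟩
    have h3 : (p'.2 : ℚ) - p.2 = (p.1 : ℚ) * m := by exact_mod_cast hm
    linarith)
  rw [Finset.card_union_of_disjoint hdis, hc1] at key
  rw [Subsingleton.elim (fun a b => Classical.propDecidable (a = b))
      (instDecidableEqProd : DecidableEq (ℤ × ℤ))] at key
  have hb : ((P1 ∪ P0).image lb).card ≤ P0.card := by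
    refine le_trans (Finset.card_le_card ?_) (Finset.card_image_le (s := P0) (f := lb))
    intro y hy
    rw [Finset.mem_image] at hy
    obtain ⟨p, hp, rfl⟩ := hy
    rw [Finset.mem_union] at hp
    rcases hp with hp | hp
    · rw [hP1, Finset.mem_image] at hp
      obtain ⟨p', hp', rfl⟩ := hp
      rw [Finset.mem_image]
      refine ⟨(p'.1, v p'), ?_, ?_⟩
      · rw [hP0]
        exact Finset.mem_image_of_mem _ hp'
      · simp only [lb, Prod.mk.injEq, true_and]
        have h3 := hvd p' hp'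
        exact Int.modEq_iff_dvd.2 h3
    · exact Finset.mem_image_of_mem _ hp
  have ha : ((P1 ∪ P0).image (la s r)).card ≤ (Q.image (lq s)).card + s * (V * (V + 1)) := by
    rw [Finset.image_union]
    refine (Finset.card_union_le _ _).trans (Nat.add_le_add ?_ ?_)
    · have h1 : P1.image (la s r) ⊆ (Q.image (lq s)).image fun c => ((r : ℤ) * c.1, (r : ℤ) * c.2) := by
        intro y hy
        rw [Finset.mem_image] at hy
        obtain ⟨p, hp, rfl⟩ := hy
        rw [hP1, Finset.mem_image] at hp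
        obtain ⟨p', hp', rfl⟩ := hp
        rw [Finset.mem_image]
        refine ⟨lq s p', Finset.mem_image_of_mem _ hp', ?_⟩
        simp only [la, lq, Prod.mk.injEq, true_and]
        rw [← Int.mul_emod_mul_of_pos _ _ hrp]
        congr 1
        ring
      exact (Finset.card_le_card h1).trans Finset.card_image_le
    · apply hub_card s r V hs
      intro p hp
      rw [hP0, Finset.mem_image] at hp
      obtain ⟨p', hp', rfl⟩ := hp
      exact ⟨hv0 p' hp', hvV p' hp'⟩
  omega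

end Pool.Agent.H1102
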