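import Mathlib
import Pool.Agent.Lib.H1102.Crit

set_option autoImplicit false

namespace Pool.Agent.H1102

open Pool.Agent.H78.Farbman Pool.Agent.H73F

/-- Same orbit of `[[1, q], [0, 1]]`. -/
def RA (q : ℚ) (p p' : ℚ × ℚ) : Prop := p'.2 = p.2 ∧ ∃ m : ℤ, p'.1 = p.1 + (m : ℚ) * q * p.2

/-- Same orbit of `[[1, 0], [1, 1]]`. -/
def RB (p p' : ℚ × ℚ) : Prop := p'.1 = p.1 ∧ ∃ m : ℤ, p'.2 = p.2 + (m : ℚ) * p.1

/-- The first equivalence relation. -/
def sA (q : ℚ) : Setoid (ℚ × ℚ) where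
  r := RA q
  iseqv :=
    { refl := fun p => ⟨rfl, 0, by simp⟩
      symm := by
        rintro p p' ⟨h1, m, h2⟩
        refine ⟨h1.symm, -m, ?_⟩
        rw [h1, h2]
        push_cast
        ring
      trans := by
        rintro p p' p'' ⟨h1, m, h2⟩ ⟨h3, m', h4⟩
        refine ⟨h3.trans h1, m + m', ?_⟩
        rw [h4, h2, h1]
        push_cast
        ring }

/-- The second equivalence relation. -/
def sB : Setoid (ℚ × ℚ) where
  r := RB
  iseqv :=
    { refl := fun p => ⟨rfl, 0, by simp⟩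
      symm := by
        rintro p p' ⟨h1, m, h2⟩
        refine ⟨h1.symm, -m, ?_⟩
        rw [h1, h2]
        push_cast
        ring
      trans := by
        rintro p p' p'' ⟨h1, m, h2⟩ ⟨h3, m', h4⟩
        refine ⟨h3.trans h1, m + m', ?_⟩
        rw [h4, h2, h1]
        push_cast
        ring }

/-- The first class. -/
def qa (q : ℚ) (p : ℚ × ℚ) : Quotient (sA q) := Quotient.mk (sA q) p

/-- The second class. -/
def qb (p : ℚ × ℚ) : Quotient sB := Quotient.mk sB p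

theorem qa_eq (q : ℚ) {p p' : ℚ × ℚ} : qa q p = qa q p' ↔ RA q p p' :=
  ⟨fun h => Quotient.exact h, fun h => Quotient.sound h⟩

theorem qb_eq {p p' : ℚ × ℚ} : qb p = qb p' ↔ RB p p' :=
  ⟨fun h => Quotient.exact h, fun h => Quotient.sound h⟩

/-- The type of a vector: the quotient of the coordinates is moderate. -/
def Ty (ρ : ℚ) (e : ℚ × ℚ) : Prop := e.1 < 2 * e.2 ∧ e.2 ≤ ρ * e.1

/-- Classes joined to the hub by a chain. -/
inductive Con (q ρ : ℚ) (Hub : ℚ × ℚ → Prop) : Bool → ℚ × ℚ → Prop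
  | hub (e p : ℚ × ℚ) : Hub e → ¬ Ty ρ e → 0 < e.1 → RB e p → Con q ρ Hub false p
  | b (e p : ℚ × ℚ) : Con q ρ Hub true e → ¬ Ty ρ e → 0 < e.1 → RB e p → Con q ρ Hub false p
  | a (e p : ℚ × ℚ) : Con q ρ Hub false e → Ty ρ e → RA q e p → Con q ρ Hub true p

theorem Con.mono {q ρ : ℚ} {Hub Hub' : ℚ × ℚ → Prop} (h : ∀ e, Hub e → Hub' e) {b : Bool}
    {p : ℚ × ℚ} (hc : Con q ρ Hub b p) : Con q ρ Hub' b p := by
  induction hc with
  | hub e p h1 h2 h3 h4 => exact Con.hub e p (h e h1) h2 h3 h4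
  | b e p _ h2 h3 h4 ih => exact Con.b e p ih h2 h3 h4
  | a e p _ h2 h3 ih => exact Con.a e p ih h2 h3

/-- A finite closed system of classes. -/
def Closed (q ρ : ℚ) (Hub : ℚ × ℚ → Prop) (A : Finset (Quotient (sA q)))
    (B : Finset (Quotient sB)) (H : Finset (Quotient (sA q))) : Prop :=
  (∀ α ∈ A, ∃ e, Ty ρ e ∧ qa q e = α ∧ qb e ∈ B) ∧
  (∀ β ∈ B, ∃ e, ¬ Ty ρ e ∧ 0 < e.1 ∧ qb e = β ∧ (qa q e ∈ A ∨ qa q e ∈ H)) ∧
  (∀ η ∈ H, ∃ e, Hub e ∧ qa q e = η)

open Classical in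
theorem Closed.union {q ρ : ℚ} {Hub : ℚ × ℚ → Prop} {A A' : Finset (Quotient (sA q))}
    {B B' : Finset (Quotient sB)} {H H' : Finset (Quotient (sA q))}
    (h : Closed q ρ Hub A B H) (h' : Closed q ρ Hub A' B' H') :
    Closed q ρ Hub (A ∪ A') (B ∪ B') (H ∪ H') := by
  obtain ⟨h1, h2, h3⟩ := h
  obtain ⟨h1', h2', h3'⟩ := h'
  refine ⟨?_, ?_, ?_⟩
  · intro α hα
    rw [Finset.mem_union] at hα
    rcases hα with hα | hα
    · obtain ⟨e, e1, e2, e3⟩ := h1 α hα
      exact ⟨e, e1, e2, Finset.mem_union_left _ e3⟩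
    · obtain ⟨e, e1, e2, e3⟩ := h1' α hα
      exact ⟨e, e1, e2, Finset.mem_union_right _ e3⟩
  · intro β hβ
    rw [Finset.mem_union] at hβ
    rcases hβ with hβ | hβ
    · obtain ⟨e, e1, e2, e3, e4⟩ := h2 β hβ
      exact ⟨e, e1, e2, e3, e4.imp (Finset.mem_union_left _) (Finset.mem_union_left _)⟩
    · obtain ⟨e, e1, e2, e3, e4⟩ := h2' β hβ
      exact ⟨e, e1, e2, e3, e4.imp (Finset.mem_union_right _) (Finset.mem_union_right _)⟩
  · intro η hη
    rw [Finset.mem_union] at hη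
    rcases hη with hη | hη
    · exact h3 η hη
    · exact h3' η hη

theorem Closed.empty (q ρ : ℚ) (Hub : ℚ × ℚ → Prop) :
    Closed q ρ Hub (∅ : Finset (Quotient (sA q))) (∅ : Finset (Quotient sB)) ∅ :=
  ⟨by simp, by simp, by simp⟩

/-- Every connected class lies in a finite closed system. -/
theorem con_closed {q ρ : ℚ} {Hub : ℚ × ℚ → Prop} {b : Bool} {p : ℚ × ℚ}
    (hc : Con q ρ Hub b p) : ∃ A B H, Closed q ρ Hub A B H ∧
      (b = true → qa q p ∈ A) ∧ (b = false → qb p ∈ B) := by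
  classical
  induction hc with
  | hub e p h1 h2 h3 h4 =>
    refine ⟨∅, {qb p}, {qa q e}, ⟨by simp, ?_, ?_⟩, by simp, by simp⟩
    · intro β hβ
      rw [Finset.mem_singleton] at hβ
      exact ⟨e, h2, h3, by rw [hβ]; exact qb_eq.2 h4, Or.inr (Finset.mem_singleton_self _)⟩
    · intro η hη
      rw [Finset.mem_singleton] at hη
      exact ⟨e, h1, hη.symm⟩
  | b e p _ h2 h3 h4 ih =>
    obtain ⟨A, B, H, ⟨c1, c2, c3⟩, h5, _⟩ := ih
    have h6 := h5 rfl
    refine ⟨A, insert (qb p) B, H, ⟨?_, ?_, c3⟩, by simp, by simp⟩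
    · intro α hα
      obtain ⟨f, e1, e2, e3⟩ := c1 α hα
      exact ⟨f, e1, e2, Finset.mem_insert_of_mem e3⟩
    · intro β hβ
      rw [Finset.mem_insert] at hβ
      rcases hβ with hβ | hβ
      · exact ⟨e, h2, h3, by rw [hβ]; exact qb_eq.2 h4, Or.inl h6⟩
      · exact c2 β hβ
  | a e p _ h2 h3 ih =>
    obtain ⟨A, B, H, ⟨c1, c2, c3⟩, _, h5⟩ := ih
    have h6 := h5 rfl
    refine ⟨insert (qa q p) A, B, H, ⟨?_, ?_, c3⟩, by simp, by simp⟩
    · intro α hα
      rw [Finset.mem_insert] at hα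
      rcases hα with hα | hα
      · exact ⟨e, h2, by rw [hα]; exact (qa_eq q).2 h3, h6⟩
      · exact c1 α hα
    · intro β hβ
      obtain ⟨f, e1, e2, e3, e4⟩ := c2 β hβ
      exact ⟨f, e1, e2, e3, e4.imp (Finset.mem_insert_of_mem) id⟩

/-- A finite closed system for finitely many pairs of vectors. -/
theorem con_closed_finset {q ρ : ℚ} {Hub : ℚ × ℚ → Prop} (S : Finset (ℚ × ℚ))
    (ea eb : ℚ × ℚ → ℚ × ℚ) (ha : ∀ p ∈ S, Con q ρ Hub false (ea p))
    (hb : ∀ p ∈ S, Con q ρ Hub true (eb p) ∨ Hub (eb p)) :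
    ∃ A B H, Closed q ρ Hub A B H ∧ (∀ p ∈ S, qb (ea p) ∈ B) ∧
      (∀ p ∈ S, qa q (eb p) ∈ A ∨ qa q (eb p) ∈ H) := by
  classical
  induction S using Finset.induction_on with
  | empty => exact ⟨∅, ∅, ∅, Closed.empty q ρ Hub, by simp, by simp⟩
  | insert p S _ ih =>
    obtain ⟨A, B, H, c, h1, h2⟩ := ih (fun x hx => ha x (Finset.mem_insert_of_mem hx))
      (fun x hx => hb x (Finset.mem_insert_of_mem hx))
    obtain ⟨A', B', H', c', _, h3⟩ := con_closed (ha p (Finset.mem_insert_self _ _))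
    have h4 : ∃ A'' B'' H'', Closed q ρ Hub A'' B'' H'' ∧
        (qa q (eb p) ∈ A'' ∨ qa q (eb p) ∈ H'') := by
      rcases hb p (Finset.mem_insert_self _ _) with h5 | h5
      · obtain ⟨A'', B'', H'', c'', h6, _⟩ := con_closed h5
        exact ⟨A'', B'', H'', c'', Or.inl (h6 rfl)⟩
      · refine ⟨∅, ∅, {qa q (eb p)}, ⟨by simp, by simp, ?_⟩, Or.inr (Finset.mem_singleton_self _)⟩
        intro η hη
        rw [Finset.mem_singleton] at hη
        exact ⟨eb p, h5, hη.symm⟩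
    obtain ⟨A'', B'', H'', c'', h6⟩ := h4
    refine ⟨(A ∪ A') ∪ A'', (B ∪ B') ∪ B'', (H ∪ H') ∪ H'', (c.union c').union c'', ?_, ?_⟩
    · intro x hx
      rw [Finset.mem_insert] at hx
      rcases hx with rfl | hx
      · exact Finset.mem_union_left _ (Finset.mem_union_right _ (h3 rfl))
      · exact Finset.mem_union_left _ (Finset.mem_union_left _ (h1 x hx))
    · intro x hx
      rw [Finset.mem_insert] at hx
      rcases hx with rfl | hx
      · exact h6.imp (Finset.mem_union_right _) (Finset.mem_union_right _)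
      · exact (h2 x hx).imp (fun h => Finset.mem_union_left _ (Finset.mem_union_left _ h))
          (fun h => Finset.mem_union_left _ (Finset.mem_union_left _ h))

/-- The forest inequality. -/
theorem forest (q ρ : ℚ) (hq : ¬ IsRelationNumber q) (Hub : ℚ × ℚ → Prop) (S : Finset (ℚ × ℚ))
    (hS : ∀ p ∈ S, 0 < p.1)
    (ha : ∀ p ∈ S, ∃ e, RA q e p ∧ Ty ρ e ∧ Con q ρ Hub false e ∧ e ∉ S)
    (hb : ∀ p ∈ S, ∃ e, RB e p ∧ ¬ Ty ρ e ∧ 0 < e.1 ∧ (Con q ρ Hub true e ∨ Hub e) ∧ e ∉ S) :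
    ∃ H : Finset (Quotient (sA q)), (∀ η ∈ H, ∃ e, Hub e ∧ qa q e = η) ∧ S.card ≤ H.card := by
  classical
  choose! ea ea1 ea2 ea3 ea4 using ha
  choose! eb eb1 eb2 eb3 eb4 eb5 using hb
  obtain ⟨A, B, H, ⟨c1, c2, c3⟩, h1, h2⟩ := con_closed_finset S ea eb ea3 eb4
  refine ⟨H, c3, ?_⟩
  set A' := A ∪ S.image (qa q) with hA'
  set B' := B ∪ S.image qb with hB'
  have c1' : ∀ α ∈ A', ∃ e, Ty ρ e ∧ qa q e = α ∧ qb e ∈ B ∧ e ∉ S := by
    intro α hα
    by_cases hs : α ∈ S.image (qa q)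
    · rw [Finset.mem_image] at hs
      obtain ⟨p, hp, rfl⟩ := hs
      exact ⟨ea p, ea2 p hp, (qa_eq q).2 (ea1 p hp), h1 p hp, ea4 p hp⟩
    · rw [hA', Finset.mem_union] at hα
      rcases hα with hα | hα
      · obtain ⟨e, e1, e2, e3⟩ := c1 α hα
        refine ⟨e, e1, e2, e3, fun he => hs ?_⟩
        rw [← e2]
        exact Finset.mem_image_of_mem _ he
      · exact absurd hα hs
  have c2' : ∀ β ∈ B', ∃ e, ¬ Ty ρ e ∧ 0 < e.1 ∧ qb e = β ∧ (qa q e ∈ A ∨ qa q e ∈ H) ∧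
      e ∉ S := by
    intro β hβ
    by_cases hs : β ∈ S.image qb
    · rw [Finset.mem_image] at hs
      obtain ⟨p, hp, rfl⟩ := hs
      exact ⟨eb p, eb2 p hp, eb3 p hp, qb_eq.2 (eb1 p hp), h2 p hp, eb5 p hp⟩
    · rw [hB', Finset.mem_union] at hβ
      rcases hβ with hβ | hβ
      · obtain ⟨e, e1, e2, e3, e4⟩ := c2 β hβ
        refine ⟨e, e1, e2, e3, e4, fun he => hs ?_⟩
        rw [← e3]
        exact Finset.mem_image_of_mem _ he
      · exact absurd hβ hs
  choose! pa pa1 pa2 pa3 pa4 using c1'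
  choose! pb pb1 pb2 pb3 pb4 pb5 using c2'
  set PA := A'.image pa with hPA
  set PB := B'.image pb with hPB
  have cA : PA.card = A'.card := by
    apply Finset.card_image_of_injOn
    intro x hx y hy hxy
    rw [← pa2 x hx, ← pa2 y hy, hxy]
  have cB : PB.card = B'.card := by
    apply Finset.card_image_of_injOn
    intro x hx y hy hxy
    rw [← pb3 x hx, ← pb3 y hy, hxy]
  have dAB : Disjoint PA PB := by
    rw [Finset.disjoint_left]
    intro x hx hx'
    rw [hPA, Finset.mem_image] at hx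
    rw [hPB, Finset.mem_image] at hx'
    obtain ⟨y, hy, rfl⟩ := hx
    obtain ⟨y', hy', he⟩ := hx'
    apply pb1 y' hy'
    rw [he]
    exact pa1 y hy
  have dS : Disjoint (PA ∪ PB) S := by
    rw [Finset.disjoint_left]
    intro x hx hx'
    rw [Finset.mem_union] at hx
    rcases hx with hx | hx
    · rw [hPA, Finset.mem_image] at hx
      obtain ⟨y, hy, rfl⟩ := hx
      exact pa4 y hy hx'
    · rw [hPB, Finset.mem_image] at hx
      obtain ⟨y, hy, rfl⟩ := hx
      exact pb5 y hy hx'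
  have key := c4_crit q hq ((PA ∪ PB) ∪ S) id (by
    intro p hp h0
    rw [id] at h0
    rw [Finset.mem_union, Finset.mem_union] at hp
    rcases hp with (hp | hp) | hp
    · rw [hPA, Finset.mem_image] at hp
      obtain ⟨y, hy, rfl⟩ := hp
      have h3 := (pa1 y hy).1
      rw [h0] at h3
      simp at h3
    · rw [hPB, Finset.mem_image] at hp
      obtain ⟨y, hy, rfl⟩ := hp
      have h3 := pb2 y hy
      rw [h0] at h3
      simp at h3
    · have h3 := hS p hp
      rw [h0] at h3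
      simp at h3) (Function.injective_id.injOn) (qa q) qb (by
    intro p _ p' _ h
    exact (qa_eq q).1 h) (by
    intro p _ p' _ h
    exact qb_eq.1 h)
  rw [Finset.card_union_of_disjoint dS, Finset.card_union_of_disjoint dAB, cA, cB] at key
  have hα : (((PA ∪ PB) ∪ S).image (qa q)).card ≤ A'.card + H.card := by
    refine le_trans (Finset.card_le_card ?_) (Finset.card_union_le _ _)
    intro z hz
    rw [Finset.mem_image] at hz
    obtain ⟨p, hp, rfl⟩ := hz
    rw [Finset.mem_union, Finset.mem_union] at hp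
    rw [Finset.mem_union]
    rcases hp with (hp | hp) | hp
    · rw [hPA, Finset.mem_image] at hp
      obtain ⟨y, hy, rfl⟩ := hp
      left
      rw [pa2 y hy]
      exact hy
    · rw [hPB, Finset.mem_image] at hp
      obtain ⟨y, hy, rfl⟩ := hp
      rcases pb4 y hy with h3 | h3
      · left
        rw [hA', Finset.mem_union]
        exact Or.inl h3
      · exact Or.inr h3
    · left
      rw [hA', Finset.mem_union]
      exact Or.inr (Finset.mem_image_of_mem _ hp)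
  have hβ : (((PA ∪ PB) ∪ S).image qb).card ≤ B'.card := by
    apply Finset.card_le_card
    intro z hz
    rw [Finset.mem_image] at hz
    obtain ⟨p, hp, rfl⟩ := hz
    rw [Finset.mem_union, Finset.mem_union] at hp
    rcases hp with (hp | hp) | hp
    · rw [hPA, Finset.mem_image] at hp
      obtain ⟨y, hy, rfl⟩ := hp
      rw [hB', Finset.mem_union]
      exact Or.inl (pa3 y hy)
    · rw [hPB, Finset.mem_image] at hp
      obtain ⟨y, hy, rfl⟩ := hp
      rw [pb3 y hy]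
      exact hy
    · rw [hB', Finset.mem_union]
      exact Or.inr (Finset.mem_image_of_mem _ hp)
  have key' : A'.card + B'.card + S.card ≤
      (((PA ∪ PB) ∪ S).image (qa q)).card + (((PA ∪ PB) ∪ S).image qb).card := by
    have hi : ∀ (L : Type) (i1 i2 : DecidableEq L) (f : ℚ × ℚ → L) (T : Finset (ℚ × ℚ)),
        (@Finset.image _ _ i1 f T).card = (@Finset.image _ _ i2 f T).card := by
      intro L i1 i2 f T
      rw [Subsingleton.elim i1 i2]
    exact key.trans (le_of_eq (congrArg₂ (· + ·) (hi _ _ _ _ _) (hi _ _ _ _ _)))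
  omega

/-- The hub vectors of denominator `N`. -/
def Hub (V N : ℕ) (e : ℚ × ℚ) : Prop :=
  ∃ X v : ℤ, v ≠ 0 ∧ |v| ≤ (V : ℤ) ∧ e = ((X : ℚ) / N, (v : ℚ) / N)

/-- The number of classes of hub vectors. -/
theorem hub_classes (s r V N : ℕ) (hs : 1 ≤ s) (hr : 1 ≤ r) (hN : 1 ≤ N)
    (H : Finset (Quotient (sA ((s : ℚ) / r)))) (hH : ∀ η ∈ H, ∃ e, Hub V N e ∧
      qa ((s : ℚ) / r) e = η) : H.card ≤ s * (V * (V + 1)) := by
  classical
  choose! e he1 he2 using hH
  choose! X v hv0 hvV hXv using he1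
  have h1 := hub_card s r V hs (H.image fun η => (X η, v η)) (by
    intro p hp
    rw [Finset.mem_image] at hp
    obtain ⟨η, hη, rfl⟩ := hp
    exact ⟨hv0 η hη, hvV η hη⟩)
  rw [Finset.image_image] at h1
  refine le_trans (le_of_eq ?_) h1
  symm
  apply Finset.card_image_of_injOn
  intro η hη η' hη' h
  simp only [Function.comp_apply, la, Prod.mk.injEq] at h
  obtain ⟨h2, h3⟩ := h
  rw [← he2 η hη, ← he2 η' hη', qa_eq, hXv η hη, hXv η' hη']
  have hr0 : (r : ℚ) ≠ 0 := by exact_mod_cast (by omega : r ≠ 0)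
  have hN0 : (N : ℚ) ≠ 0 := by exact_mod_cast (by omega : N ≠ 0)
  refine ⟨by simp only [h2], ?_⟩
  rw [← h2] at h3
  obtain ⟨m, hm⟩ := Int.ModEq.dvd h3
  refine ⟨m, ?_⟩
  have h4 : (r : ℚ) * X η' - r * X η = s * v η * m := by exact_mod_cast hm
  field_simp
  linarith

/-- The number of classes of hub vectors of two denominators. -/
theorem hub_classes2 (s r V N N' : ℕ) (hs : 1 ≤ s) (hr : 1 ≤ r) (hN : 1 ≤ N) (hN' : 1 ≤ N')
    (H : Finset (Quotient (sA ((s : ℚ) / r)))) (hH : ∀ η ∈ H, ∃ e, (Hub V N e ∨ Hub V N' e) ∧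
      qa ((s : ℚ) / r) e = η) : H.card ≤ 2 * (s * (V * (V + 1))) := by
  classical
  set H1 := H.filter fun η => ∃ e, Hub V N e ∧ qa ((s : ℚ) / r) e = η with hH1
  set H2 := H.filter fun η => ∃ e, Hub V N' e ∧ qa ((s : ℚ) / r) e = η with hH2
  have h1 := hub_classes s r V N hs hr hN H1 (by
    intro η hη
    rw [hH1, Finset.mem_filter] at hη
    exact hη.2)
  have h2 := hub_classes s r V N' hs hr hN' H2 (by
    intro η hη
    rw [hH2, Finset.mem_filter] at hη
    exact hη.2)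
  have h3 : H ⊆ H1 ∪ H2 := by
    intro η hη
    rw [Finset.mem_union, hH1, hH2, Finset.mem_filter, Finset.mem_filter]
    obtain ⟨e, h4 | h4, h5⟩ := hH η hη
    · exact Or.inl ⟨hη, e, h4, h5⟩
    · exact Or.inr ⟨hη, e, h4, h5⟩
  have h4 := (Finset.card_le_card h3).trans (Finset.card_union_le _ _)
  omega

end Pool.Agent.H1102
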