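import Mathlib
import Pool.Agent.Lib.H1102.Forest

set_option autoImplicit false

namespace Pool.Agent.H1102

open Pool.Agent.H78.Farbman Pool.Agent.H73F

/-- The pairs at the end of a chain of length `j`. -/
inductive Good (s r K : ℕ) : ℕ → ℕ → ℕ → Prop
  | base (k : ℕ) : 1 ≤ k → k ≤ K → Good s r K 1 1 k
  | step (j τ D T D' : ℕ) : Good s r K j τ D → 1 ≤ T → ((s : ℤ) * D) ∣ (r : ℤ) * τ - T →
      T ≤ D' → D' ≤ K → (T : ℤ) ∣ (r : ℤ) * D - D' → Good s r K (j + 1) T D'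

theorem Good.facts {s r K j τ D : ℕ} (h : Good s r K j τ D) :
    1 ≤ τ ∧ τ ≤ D ∧ D ≤ K ∧ 1 ≤ j := by
  induction h with
  | base k h1 h2 => exact ⟨le_rfl, h1, h2, le_rfl⟩
  | step j τ D T D' _ h2 _ h4 h5 _ ih => exact ⟨h2, h4, h5, by omega⟩

/-- The type of the edges towards the hub. -/
theorem ty_of (K τ D : ℕ) (x z W : ℚ) (hτ : 1 ≤ τ) (hD : τ ≤ D) (hK : D ≤ K)
    (h : |(D : ℚ) * x - τ * z| ≤ W) (hx : 2 * W < x) : Ty ((K : ℚ) + 1) (x, z) := by
  have hτQ : (1 : ℚ) ≤ τ := by exact_mod_cast hτ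
  have hDQ : (τ : ℚ) ≤ D := by exact_mod_cast hD
  have hKQ : (D : ℚ) ≤ K := by exact_mod_cast hK
  have hW : 0 ≤ W := (abs_nonneg _).trans h
  have hx0 : 0 < x := by linarith
  rw [abs_le] at h
  have h1 : x < 2 * z := by
    by_contra hcon
    rw [not_lt] at hcon
    have h2 : (τ : ℚ) * (2 * z) ≤ τ * x := mul_le_mul_of_nonneg_left hcon (by linarith)
    have h3 : (τ : ℚ) * x ≤ D * x := mul_le_mul_of_nonneg_right hDQ hx0.le
    have h4 : (1 : ℚ) * x ≤ D * x := mul_le_mul_of_nonneg_right (by linarith) hx0.le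
    linarith
  refine ⟨h1, ?_⟩
  have h2 : (1 : ℚ) * z ≤ τ * z := mul_le_mul_of_nonneg_right hτQ (by linarith)
  have h3 : (D : ℚ) * x ≤ K * x := mul_le_mul_of_nonneg_right hKQ hx0.le
  simp only
  linarith

/-- The type of the other edges. -/
theorem nty_of (r K D T : ℕ) (x z W : ℚ) (hT : T ≤ K) (hD : 1 ≤ D)
    (hKr : K * (K + 1) < r) (h : |(T : ℚ) * z - r * D * x| ≤ W) (hx : 2 * W < x) :
    ¬ Ty ((K : ℚ) + 1) (x, z) := by
  rintro ⟨h1, h2⟩
  simp only at h1 h2
  have hW : 0 ≤ W := (abs_nonneg _).trans h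
  have hx0 : 0 < x := by linarith
  have hTQ : (T : ℚ) ≤ K := by exact_mod_cast hT
  have hDQ : (1 : ℚ) ≤ D := by exact_mod_cast hD
  have hKrQ : (K : ℚ) * (K + 1) + 1 ≤ r := by exact_mod_cast hKr
  have hz0 : 0 < z := by linarith
  rw [abs_le] at h
  have h3 : (T : ℚ) * z ≤ K * ((K + 1) * x) :=
    mul_le_mul hTQ h2 hz0.le (by positivity)
  have h4 : ((K : ℚ) * (K + 1) + 1) * x ≤ r * x := mul_le_mul_of_nonneg_right hKrQ hx0.le
  have h5 : (1 : ℚ) * (r * x) ≤ D * (r * x) := mul_le_mul_of_nonneg_right hDQ (by positivity)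
  nlinarith

/-- The connectedness property of a pair. -/
def CP (s r K V j τ D : ℕ) : Prop :=
  ∀ (M : ℕ), 1 ≤ M → ∀ (x z : ℚ) (X Z : ℤ), x = X / M → z = Z / M → 2 * ((V : ℚ) / M) < x →
    (D : ℚ) * x - τ * z ≠ 0 → |(D : ℚ) * x - τ * z| ≤ (V : ℚ) / M →
    Con ((s : ℚ) / r) ((K : ℚ) + 1) (Hub V (M * r ^ (j - 1))) false (x, z)

/-- One step towards the hub. -/
theorem up (s r K V j τ D T M : ℕ) (hc : CP s r K V j τ D) (hr : 1 ≤ r) (hj : 1 ≤ j)
    (hM : 1 ≤ M) (hτ : 1 ≤ τ) (hD : τ ≤ D) (hK : D ≤ K) (n : ℤ)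
    (hn : (r : ℤ) * τ - T = s * D * n) (x' z : ℚ) (X Z : ℤ) (hx : x' = X / M) (hz : z = Z / M)
    (hzb : (2 * (K : ℚ) + 1) * (V / (r * M)) < z) (h0 : (T : ℚ) * z - r * D * x' ≠ 0)
    (h1 : |(T : ℚ) * z - r * D * x'| ≤ (V : ℚ) / M) :
    Ty ((K : ℚ) + 1) (x' + n * ((s : ℚ) / r) * z, z) ∧
    Con ((s : ℚ) / r) ((K : ℚ) + 1) (Hub V (M * r ^ j)) false (x' + n * ((s : ℚ) / r) * z, z) ∧
    (τ : ℚ) * z - V / (r * M) ≤ D * (x' + n * ((s : ℚ) / r) * z) := by
  have hrQ : (1 : ℚ) ≤ r := by exact_mod_cast hr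
  have hMQ : (1 : ℚ) ≤ M := by exact_mod_cast hM
  have hr0 : (r : ℚ) ≠ 0 := by linarith
  have hM0 : (M : ℚ) ≠ 0 := by linarith
  have hτQ : (1 : ℚ) ≤ τ := by exact_mod_cast hτ
  have hDQ : (τ : ℚ) ≤ D := by exact_mod_cast hD
  have hKQ : (D : ℚ) ≤ K := by exact_mod_cast hK
  have hW0 : (0 : ℚ) ≤ V / (r * M) := by positivity
  have hnQ : (r : ℚ) * τ - T = s * D * n := by exact_mod_cast hn
  set x : ℚ := x' + n * ((s : ℚ) / r) * z with hxd
  have e1 : (D : ℚ) * x - τ * z = -(((T : ℚ) * z - r * D * x') / r) := by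
    rw [hxd]
    field_simp
    linear_combination -z * hnQ
  have e2 : |(D : ℚ) * x - τ * z| ≤ V / (r * M) := by
    rw [e1, abs_neg, abs_div, Nat.abs_cast, div_le_iff₀ (by linarith)]
    refine h1.trans (le_of_eq ?_)
    field_simp
  have e3 : (τ : ℚ) * z - V / (r * M) ≤ D * x := by
    have := (abs_le.1 e2).1
    linarith
  have hz0 : 0 < z := by
    have : 0 ≤ (2 * (K : ℚ) + 1) * (V / (r * M)) := by positivity
    linarith
  have hxp : 0 < x := by
    by_contra hcon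
    rw [not_lt] at hcon
    have h2 : (D : ℚ) * x ≤ 0 := mul_nonpos_of_nonneg_of_nonpos (by linarith) hcon
    have h3 : 1 * z ≤ τ * z := mul_le_mul_of_nonneg_right hτQ hz0.le
    have h4 : 0 ≤ 2 * (K : ℚ) * (V / (r * M)) := by positivity
    linarith
  have hxb : 2 * ((V : ℚ) / (r * M)) < x := by
    by_contra hcon
    rw [not_lt] at hcon
    have h2 : (D : ℚ) * x ≤ K * (2 * (V / (r * M))) :=
      mul_le_mul hKQ hcon hxp.le (by positivity)
    have h3 : 1 * z ≤ τ * z := mul_le_mul_of_nonneg_right hτQ hz0.le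
    linarith
  refine ⟨ty_of K τ D x z _ hτ hD hK e2 hxb, ?_, e3⟩
  have h2 := hc (r * M) (Nat.mul_pos hr hM) x z (r * X + s * n * Z) (r * Z) (by
    rw [hxd, hx, hz]
    push_cast
    field_simp) (by
    rw [hz]
    push_cast
    field_simp) (by
    push_cast
    exact hxb) (by
    rw [e1]
    intro h3
    apply h0
    rw [neg_eq_zero, div_eq_zero_iff] at h3
    rcases h3 with h3 | h3
    · exact h3
    · exact absurd h3 hr0) (by
    push_cast
    exact e2)
  have h3 : r * M * r ^ (j - 1) = M * r ^ j := by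
    obtain ⟨i, rfl⟩ : ∃ i, j = i + 1 := ⟨j - 1, by omega⟩
    rw [Nat.add_sub_cancel, pow_succ]
    ring
  rw [h3] at h2
  exact h2

/-- Every pair of a chain has the connectedness property. -/
theorem conn (s r K V : ℕ) (hr : 1 ≤ r) (hKr : K * (K + 1) < r) {j τ D : ℕ}
    (h : Good s r K j τ D) : CP s r K V j τ D := by
  induction h with
  | base k h1 h2 =>
    intro M hM x z X Z hx hz hxb h0 h3
    have hMQ : (1 : ℚ) ≤ M := by exact_mod_cast hM
    have hM0 : (M : ℚ) ≠ 0 := by linarith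
    have hMp : (0 : ℚ) < M := by linarith
    rw [Nat.cast_one, one_mul] at h0 h3
    rw [Nat.sub_self, pow_zero, mul_one]
    have hV0 : (0 : ℚ) ≤ (V : ℚ) / M := by positivity
    refine Con.hub (x, z - k * x) (x, z) ⟨X, Z - k * X, ?_, ?_, ?_⟩ ?_ ?_ ⟨rfl, k, ?_⟩
    · intro h4
      apply h0
      have h5 : (k : ℚ) * X - Z = 0 := by
        have : ((Z - k * X : ℤ) : ℚ) = 0 := by rw [h4]; rfl
        push_cast at this
        linarith
      rw [hx, hz, ← mul_div_assoc, ← sub_div, h5, zero_div]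
    · have h4 : |((Z - k * X : ℤ) : ℚ)| ≤ V := by
        rw [hx, hz, ← mul_div_assoc, ← sub_div, abs_div, abs_of_pos hMp,
          div_le_div_iff_of_pos_right hMp] at h3
        push_cast
        rw [abs_sub_comm]
        exact h3
      exact_mod_cast h4
    · rw [hx, hz]
      push_cast
      ext
      · rfl
      · simp only
        field_simp
    · rintro ⟨h4, _⟩
      simp only at h4
      rw [abs_le] at h3
      linarith
    · simp only
      linarith
    · simp only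
      push_cast
      ring
  | step j τ D T D' hg h1 h2 h3 h4 h5 ih =>
    intro M hM x' z' X Z hx hz hxb h0 h6
    obtain ⟨g1, g2, g3, g4⟩ := hg.facts
    obtain ⟨n, hn⟩ := h2
    obtain ⟨m, hm⟩ := h5
    have hrQ : (1 : ℚ) ≤ r := by exact_mod_cast hr
    have hMQ : (1 : ℚ) ≤ M := by exact_mod_cast hM
    have hM0 : (M : ℚ) ≠ 0 := by linarith
    have hTQ : (1 : ℚ) ≤ T := by exact_mod_cast h1
    have hTKQ : (T : ℚ) ≤ K := by exact_mod_cast h3.trans h4
    have hDQ : (1 : ℚ) ≤ D := by exact_mod_cast g1.trans g2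
    have hKrQ : (K : ℚ) * (K + 1) + 1 ≤ r := by exact_mod_cast hKr
    have hmQ : (r : ℚ) * D - D' = T * m := by exact_mod_cast hm
    have hV0 : (0 : ℚ) ≤ (V : ℚ) / M := by positivity
    have hx0 : 0 < x' := by linarith
    set z : ℚ := z' + m * x' with hzd
    have e1 : (T : ℚ) * z - r * D * x' = -((D' : ℚ) * x' - T * z') := by
      rw [hzd]
      linear_combination -x' * hmQ
    have e2 : |(T : ℚ) * z - r * D * x'| ≤ (V : ℚ) / M := by
      rw [e1, abs_neg]
      exact h6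
    have hnty := nty_of r K D T x' z _ (h3.trans h4) (g1.trans g2) hKr e2 hxb
    have hzb : (2 * (K : ℚ) + 1) * (V / (r * M)) < z := by
      by_contra hcon
      rw [not_lt] at hcon
      have h7 : (T : ℚ) * z ≤ T * ((2 * (K : ℚ) + 1) * (V / (r * M))) :=
        mul_le_mul_of_nonneg_left hcon (by linarith)
      have h8 : (T : ℚ) * ((2 * (K : ℚ) + 1) * (V / (r * M))) ≤
          K * ((2 * (K : ℚ) + 1) * (V / (r * M))) :=
        mul_le_mul_of_nonneg_right hTKQ (by positivity)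
      have h9 : (K : ℚ) * ((2 * (K : ℚ) + 1) * (V / (r * M))) =
          (K * (2 * K + 1)) / r * (V / M) := by
        field_simp
      have h10 : ((K : ℚ) * (2 * K + 1)) / r ≤ 2 := by
        rw [div_le_iff₀ (by linarith)]
        nlinarith [Nat.cast_nonneg (α := ℚ) K]
      have h11 := mul_le_mul_of_nonneg_right h10 hV0
      have h12 := (abs_le.1 e2).1
      have h13 : (1 : ℚ) * x' ≤ r * D * x' := by
        apply mul_le_mul_of_nonneg_right _ hx0.le
        nlinarith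
      have h14 : (K : ℚ) ≥ 1 := by linarith
      have h15 : (3 : ℚ) ≤ r * D := by nlinarith
      have h16 : (3 : ℚ) * x' ≤ r * D * x' := mul_le_mul_of_nonneg_right h15 hx0.le
      linarith
    obtain ⟨u1, u2, u3⟩ := up s r K V j τ D T M ih hr g4 hM g1 g2 g3 n (by
      rw [hn]) x' z X (Z + m * X) hx (by
      rw [hzd, hz, hx]
      push_cast
      field_simp) hzb (by
      rw [e1]
      intro h7
      exact h0 (neg_eq_zero.1 h7)) e2
    rw [Nat.add_sub_cancel]
    refine Con.b (x', z) (x', z') (Con.a _ _ u2 u1 ⟨rfl, -n, ?_⟩) hnty hx0 ⟨rfl, -m, ?_⟩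
    · simp only
      push_cast
      ring
    · simp only [hzd]
      push_cast
      ring

end Pool.Agent.H1102
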