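import Mathlib
import Pool.Agent.Lib.H1102.Chain

set_option autoImplicit false

namespace Pool.Agent.H1102

open Pool.Agent.H78.Farbman Pool.Agent.H73F

/-- The quotient and remainder with remainder in `[1, b]`. -/
theorem quo_one (a b : ℤ) (hb : 0 < b) : 1 ≤ a - b * ((a - 1) / b) ∧ a - b * ((a - 1) / b) ≤ b := by
  have h1 := Int.emod_nonneg (a - 1) hb.ne'
  have h2 := Int.emod_lt_of_pos (a - 1) hb
  have h3 := Int.emod_add_mul_ediv (a - 1) b
  constructor <;> linarith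

/-- Proportional chains have the same last upper step. -/
theorem same_n (s r K j τ D T τ' D' T' : ℕ) (n n' : ℤ) (hs : 1 ≤ s) (hr : 1 ≤ r)
    (hKr : K * (K + 1) < r) (hq : ¬ IsRelationNumber ((s : ℚ) / (r : ℚ)))
    (hg : Good s r K j τ D) (hg' : Good s r K j τ' D') (hT : 1 ≤ T)
    (hn : (r : ℤ) * τ - T = s * D * n) (hn' : (r : ℤ) * τ' - T' = s * D' * n')
    (h : T * D' = T' * D) : n = n' := by
  classical
  by_contra hne
  obtain ⟨g1, g2, g3, g4⟩ := hg.facts
  obtain ⟨g1', g2', g3', g4'⟩ := hg'.facts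
  have hsQ : (1 : ℚ) ≤ s := by exact_mod_cast hs
  have hrQ : (1 : ℚ) ≤ r := by exact_mod_cast hr
  have hr0 : (r : ℚ) ≠ 0 := by linarith
  have hDp : 0 < D := by omega
  have hD'p : 0 < D' := by omega
  have hDQ : (0 : ℚ) < D := by exact_mod_cast hDp
  have hD'Q : (0 : ℚ) < D' := by exact_mod_cast hD'p
  have hDKQ : (D : ℚ) ≤ K := by exact_mod_cast g3
  have hD'KQ : (D' : ℚ) ≤ K := by exact_mod_cast g3'
  have hrD : (0 : ℤ) < r * D := by
    have : 0 < r * D := Nat.mul_pos hr hDp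
    exact_mod_cast this
  set V : ℕ := r * K with hV
  set N : ℕ := s * (V * (V + 1)) + 1 with hN
  set u0 : ℕ := (2 * K + 1) * K with hu0
  set xx : ℕ → ℤ := fun u => ((T : ℤ) * u - 1) / (r * D) with hxx
  have hform : ∀ u : ℕ, (1 : ℚ) ≤ (T : ℚ) * u - r * D * xx u ∧
      (T : ℚ) * u - r * D * xx u ≤ r * D := by
    intro u
    obtain ⟨f1, f2⟩ := quo_one ((T : ℤ) * u) (r * D) hrD
    constructor
    · exact_mod_cast f1
    · exact_mod_cast f2
  have hQ : (T : ℚ) * D' = T' * D := by exact_mod_cast h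
  have hform' : ∀ u : ℕ, (T' : ℚ) * u - r * D' * xx u = (T * u - r * D * xx u) * (D' / D) := by
    intro u
    field_simp
    linear_combination -(u : ℚ) * hQ
  have hub1 : ∀ u ∈ Finset.Ioc u0 (u0 + N), (2 * (K : ℚ) + 1) * ((V : ℚ) / (r * (1 : ℕ))) < u := by
    intro u hu
    rw [Finset.mem_Ioc] at hu
    have h1 : (u0 : ℚ) < u := by exact_mod_cast hu.1
    have h2 : (V : ℚ) / (r * (1 : ℕ)) = K := by
      rw [hV]
      push_cast
      field_simp
    rw [h2]
    rw [hu0] at h1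
    push_cast at h1
    exact h1
  have hup : ∀ u ∈ Finset.Ioc u0 (u0 + N),
      Ty ((K : ℚ) + 1) ((xx u : ℚ) + n * ((s : ℚ) / r) * u, (u : ℚ)) ∧
      Con ((s : ℚ) / r) ((K : ℚ) + 1) (Hub V (1 * r ^ j)) false
        ((xx u : ℚ) + n * ((s : ℚ) / r) * u, (u : ℚ)) := by
    intro u hu
    obtain ⟨f1, f2⟩ := hform u
    have := up s r K V j τ D T 1 (conn s r K V hr hKr hg) hr g4 le_rfl g1 g2 g3 n hn
      (xx u) u (xx u) u (by simp) (by simp) (hub1 u hu) (by linarith) (by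
        rw [abs_of_pos (by linarith), Nat.cast_one, div_one, hV]
        push_cast
        have : (r : ℚ) * D ≤ r * K := mul_le_mul_of_nonneg_left hDKQ (by linarith)
        linarith)
    exact ⟨this.1, this.2.1⟩
  have hup' : ∀ u ∈ Finset.Ioc u0 (u0 + N),
      Ty ((K : ℚ) + 1) ((xx u : ℚ) + n' * ((s : ℚ) / r) * u, (u : ℚ)) ∧
      Con ((s : ℚ) / r) ((K : ℚ) + 1) (Hub V (1 * r ^ j)) false
        ((xx u : ℚ) + n' * ((s : ℚ) / r) * u, (u : ℚ)) := by
    intro u hu
    obtain ⟨f1, f2⟩ := hform u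
    have f3 := hform' u
    have f4 : 0 < (T' : ℚ) * u - r * D' * xx u := by
      rw [f3]
      have : 0 < (T : ℚ) * u - r * D * xx u := by linarith
      positivity
    have f5 : (T' : ℚ) * u - r * D' * xx u ≤ r * D' := by
      rw [f3]
      have h1 : (T * u - r * D * xx u) * ((D' : ℚ) / D) ≤ r * D * (D' / D) :=
        mul_le_mul_of_nonneg_right f2 (by positivity)
      refine h1.trans (le_of_eq ?_)
      field_simp
    have := up s r K V j τ' D' T' 1 (conn s r K V hr hKr hg') hr g4' le_rfl g1' g2' g3' n' hn'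
      (xx u) u (xx u) u (by simp) (by simp) (hub1 u hu) (by linarith) (by
        rw [abs_of_pos f4, Nat.cast_one, div_one, hV]
        push_cast
        have : (r : ℚ) * D' ≤ r * K := mul_le_mul_of_nonneg_left hD'KQ (by linarith)
        linarith)
    exact ⟨this.1, this.2.1⟩
  set S : Finset (ℚ × ℚ) := (Finset.Ioc u0 (u0 + N)).image
    fun u : ℕ => ((xx u : ℚ) + n' * ((s : ℚ) / r) * u, (u : ℚ)) with hS
  have hSc : S.card = N := by
    rw [hS, Finset.card_image_of_injective, Nat.card_Ioc]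
    · omega
    · intro a b hab
      simp only [Prod.mk.injEq] at hab
      exact_mod_cast hab.2
  have hpos : ∀ u ∈ Finset.Ioc u0 (u0 + N), (0 : ℚ) < u := by
    intro u hu
    rw [Finset.mem_Ioc] at hu
    have : 0 < u := by omega
    exact_mod_cast this
  have hSTy : ∀ p ∈ S, Ty ((K : ℚ) + 1) p := by
    intro p hp
    rw [hS, Finset.mem_image] at hp
    obtain ⟨u, hu, rfl⟩ := hp
    exact (hup' u hu).1
  obtain ⟨H, h1, h2⟩ := forest ((s : ℚ) / r) ((K : ℚ) + 1) hq (Hub V (1 * r ^ j)) S (by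
    intro p hp
    rw [hS, Finset.mem_image] at hp
    obtain ⟨u, hu, rfl⟩ := hp
    have h3 := (hup' u hu).1.2
    simp only at h3
    have h4 := hpos u hu
    by_contra hcon
    rw [not_lt] at hcon
    have h5 : ((K : ℚ) + 1) * ((xx u : ℚ) + n' * ((s : ℚ) / r) * u) ≤ 0 :=
      mul_nonpos_of_nonneg_of_nonpos (by positivity) hcon
    linarith) (by
    intro p hp
    rw [hS, Finset.mem_image] at hp
    obtain ⟨u, hu, rfl⟩ := hp
    refine ⟨((xx u : ℚ) + n * ((s : ℚ) / r) * u, (u : ℚ)), ⟨rfl, n' - n, ?_⟩, (hup u hu).1,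
      (hup u hu).2, ?_⟩
    · push_cast
      ring
    · intro h3
      rw [hS, Finset.mem_image] at h3
      obtain ⟨u', hu', he⟩ := h3
      simp only [Prod.mk.injEq] at he
      obtain ⟨h4, h5⟩ := he
      have h6 : u' = u := by exact_mod_cast h5
      subst h6
      have h7 : (n' - n : ℚ) * (((s : ℚ) / r) * u') = 0 := by linarith
      rcases mul_eq_zero.1 h7 with h8 | h8
      · apply hne
        have : (n' : ℚ) = n := by linarith
        exact_mod_cast this.symm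
      · have h9 := hpos u' hu'
        have h10 : 0 < ((s : ℚ) / r) * u' := by positivity
        linarith) (by
    intro p hp
    have hTy := hSTy p hp
    rw [hS, Finset.mem_image] at hp
    obtain ⟨u, hu, rfl⟩ := hp
    have hc := (hup' u hu).2
    cases hc with
    | hub e _ c1 c2 c3 c4 => exact ⟨e, c4, c2, c3, Or.inr c1, fun h3 => c2 (hSTy e h3)⟩
    | b e _ c1 c2 c3 c4 => exact ⟨e, c4, c2, c3, Or.inl c1, fun h3 => c2 (hSTy e h3)⟩)
  have h3 := hub_classes s r V (1 * r ^ j) hs hr (by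
    rw [one_mul]
    exact Nat.one_le_pow _ _ hr) H h1
  omega

/-- Proportional chains have the same last lower step. -/
theorem same_m (s r K j τ D T E τ' D' T' E' : ℕ) (m m' : ℤ) (hs : 1 ≤ s) (hr : 1 ≤ r)
    (hKr : K * (K + 1) < r) (hq : ¬ IsRelationNumber ((s : ℚ) / (r : ℚ)))
    (hg : Good s r K j τ D) (hg' : Good s r K j τ' D') (hT : 1 ≤ T) (hT' : 1 ≤ T')
    (hn : ((s : ℤ) * D) ∣ (r : ℤ) * τ - T) (hn' : ((s : ℤ) * D') ∣ (r : ℤ) * τ' - T')
    (hTE : T ≤ E) (hEK : E ≤ K) (hTE' : T' ≤ E') (hEK' : E' ≤ K)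
    (hm : (r : ℤ) * D - E = T * m) (hm' : (r : ℤ) * D' - E' = T' * m')
    (h : T * E' = T' * E) : m = m' := by
  classical
  by_contra hne
  obtain ⟨g1, g2, g3, g4⟩ := hg.facts
  obtain ⟨g1', g2', g3', g4'⟩ := hg'.facts
  obtain ⟨n, hn⟩ := hn
  obtain ⟨n', hn'⟩ := hn'
  have hsQ : (1 : ℚ) ≤ s := by exact_mod_cast hs
  have hrQ : (1 : ℚ) ≤ r := by exact_mod_cast hr
  have hr0 : (r : ℚ) ≠ 0 := by linarith
  have hTQ : (1 : ℚ) ≤ T := by exact_mod_cast hT
  have hT'Q : (1 : ℚ) ≤ T' := by exact_mod_cast hT'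
  have hTKQ : (T : ℚ) ≤ K := by exact_mod_cast hTE.trans hEK
  have hT'KQ : (T' : ℚ) ≤ K := by exact_mod_cast hTE'.trans hEK'
  have hDQ : (1 : ℚ) ≤ D := by exact_mod_cast g1.trans g2
  have hD'Q : (1 : ℚ) ≤ D' := by exact_mod_cast g1'.trans g2'
  have hTz : (0 : ℤ) < T := by exact_mod_cast hT
  have hKrQ : (K : ℚ) * (K + 1) + 1 ≤ r := by exact_mod_cast hKr
  have hK1 : (1 : ℚ) ≤ K := by linarith
  have hmQ : (r : ℚ) * D - E = T * m := by exact_mod_cast hm
  have hmQ' : (r : ℚ) * D' - E' = T' * m' := by exact_mod_cast hm'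
  have hQ : (T : ℚ) * E' = T' * E := by exact_mod_cast h
  set N : ℕ := s * (K * (K + 1)) + 1 with hN
  set u0 : ℕ := 3 * K with hu0
  set zz : ℕ → ℤ := fun u => ((E : ℤ) * u - 1) / T with hzz
  have hform : ∀ u : ℕ, (1 : ℚ) ≤ (E : ℚ) * u - T * zz u ∧ (E : ℚ) * u - T * zz u ≤ T := by
    intro u
    obtain ⟨f1, f2⟩ := quo_one ((E : ℤ) * u) T hTz
    constructor
    · exact_mod_cast f1
    · exact_mod_cast f2
  have hform' : ∀ u : ℕ, (E' : ℚ) * u - T' * zz u = (E * u - T * zz u) * (T' / T) := by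
    intro u
    field_simp
    linear_combination (u : ℚ) * hQ
  have hf1 : ∀ u : ℕ, |(T : ℚ) * (zz u + m * u) - r * D * u| ≤ K ∧
      (T : ℚ) * (zz u + m * u) - r * D * u ≠ 0 := by
    intro u
    obtain ⟨f1, f2⟩ := hform u
    have e : (T : ℚ) * (zz u + m * u) - r * D * u = -((E : ℚ) * u - T * zz u) := by
      linear_combination -(u : ℚ) * hmQ
    rw [e]
    constructor
    · rw [abs_neg, abs_of_pos (by linarith)]
      linarith
    · intro h1
      linarith
  have hf2 : ∀ u : ℕ, |(T' : ℚ) * (zz u + m' * u) - r * D' * u| ≤ K ∧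
      (T' : ℚ) * (zz u + m' * u) - r * D' * u ≠ 0 := by
    intro u
    obtain ⟨f1, f2⟩ := hform u
    have f3 := hform' u
    have f4 : 0 < (E' : ℚ) * u - T' * zz u := by
      rw [f3]
      have : 0 < (E : ℚ) * u - T * zz u := by linarith
      positivity
    have f5 : (E' : ℚ) * u - T' * zz u ≤ T' := by
      rw [f3]
      have h1 : (E * u - T * zz u) * ((T' : ℚ) / T) ≤ T * (T' / T) :=
        mul_le_mul_of_nonneg_right f2 (by positivity)
      refine h1.trans (le_of_eq ?_)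
      field_simp
    have e : (T' : ℚ) * (zz u + m' * u) - r * D' * u = -((E' : ℚ) * u - T' * zz u) := by
      linear_combination -(u : ℚ) * hmQ'
    rw [e]
    constructor
    · rw [abs_neg, abs_of_pos f4]
      linarith
    · intro h1
      linarith
  have hpos : ∀ u ∈ Finset.Ioc u0 (u0 + N), 3 * (K : ℚ) + 1 ≤ u := by
    intro u hu
    rw [Finset.mem_Ioc] at hu
    have : 3 * K + 1 ≤ u := by omega
    exact_mod_cast this
  -- the size of the second coordinate
  have hbig : ∀ (t d : ℕ) (z : ℚ) (u : ℕ), (1 : ℚ) ≤ t → (t : ℚ) ≤ K → (1 : ℚ) ≤ d →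
      3 * (K : ℚ) + 1 ≤ u → |(t : ℚ) * z - r * d * u| ≤ K →
      (2 * (K : ℚ) + 1) * ((K : ℚ) / (r * (1 : ℕ))) < z := by
    intro t d z u ht1 ht2 hd hu hf
    rw [abs_le] at hf
    rw [Nat.cast_one, mul_one]
    by_contra hcon
    rw [not_lt] at hcon
    have hc0 : 0 ≤ (2 * (K : ℚ) + 1) * ((K : ℚ) / r) := by positivity
    have h7 : (t : ℚ) * z ≤ t * ((2 * (K : ℚ) + 1) * ((K : ℚ) / r)) :=
      mul_le_mul_of_nonneg_left hcon (by linarith)
    have h8 : (t : ℚ) * ((2 * (K : ℚ) + 1) * ((K : ℚ) / r)) ≤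
        K * ((2 * (K : ℚ) + 1) * ((K : ℚ) / r)) := mul_le_mul_of_nonneg_right ht2 hc0
    have h9 : (K : ℚ) * ((2 * (K : ℚ) + 1) * ((K : ℚ) / r)) = (K * (2 * K + 1)) / r * K := by
      field_simp
    have h10 : ((K : ℚ) * (2 * K + 1)) / r ≤ 2 := by
      rw [div_le_iff₀ (by linarith)]
      nlinarith
    have h11 := mul_le_mul_of_nonneg_right h10 (by linarith : (0 : ℚ) ≤ K)
    have h12 : (1 : ℚ) * u ≤ r * d * u := by
      apply mul_le_mul_of_nonneg_right _ (by linarith)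
      nlinarith
    linarith [hf.1]
  have hc1 : ∀ u ∈ Finset.Ioc u0 (u0 + N), Con ((s : ℚ) / r) ((K : ℚ) + 1)
      (Hub K (1 * r ^ j)) true ((u : ℚ), (zz u : ℚ) + m * u) := by
    intro u hu
    obtain ⟨f1, f2⟩ := hf1 u
    have := up s r K K j τ D T 1 (conn s r K K hr hKr hg) hr g4 le_rfl g1 g2 g3 n hn
      u ((zz u : ℚ) + m * u) u (zz u + m * u) (by simp) (by push_cast; simp)
      (hbig T D _ u hTQ hTKQ hDQ (hpos u hu) f1) f2 (by
        rw [Nat.cast_one, div_one]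
        exact f1)
    refine Con.a _ _ this.2.1 this.1 ⟨rfl, -n, ?_⟩
    simp only
    push_cast
    ring
  have hc2 : ∀ u ∈ Finset.Ioc u0 (u0 + N), Con ((s : ℚ) / r) ((K : ℚ) + 1)
      (Hub K (1 * r ^ j)) true ((u : ℚ), (zz u : ℚ) + m' * u) := by
    intro u hu
    obtain ⟨f1, f2⟩ := hf2 u
    have := up s r K K j τ' D' T' 1 (conn s r K K hr hKr hg') hr g4' le_rfl g1' g2' g3' n' hn'
      u ((zz u : ℚ) + m' * u) u (zz u + m' * u) (by simp) (by push_cast; simp)
      (hbig T' D' _ u hT'Q hT'KQ hD'Q (hpos u hu) f1) f2 (by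
        rw [Nat.cast_one, div_one]
        exact f1)
    refine Con.a _ _ this.2.1 this.1 ⟨rfl, -n', ?_⟩
    simp only
    push_cast
    ring
  set S : Finset (ℚ × ℚ) := (Finset.Ioc u0 (u0 + N)).image
    fun u : ℕ => ((u : ℚ), (zz u : ℚ) + m' * u) with hS
  have hSc : S.card = N := by
    rw [hS, Finset.card_image_of_injective, Nat.card_Ioc]
    · omega
    · intro a b hab
      simp only [Prod.mk.injEq] at hab
      exact_mod_cast hab.1
  have hSTy : ∀ p ∈ S, ¬ Ty ((K : ℚ) + 1) p := by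
    intro p hp
    rw [hS, Finset.mem_image] at hp
    obtain ⟨u, hu, rfl⟩ := hp
    exact nty_of r K D' T' _ _ K (hTE'.trans hEK') (g1'.trans g2') hKr (hf2 u).1
      (by linarith [hpos u hu])
  obtain ⟨H, h1, h2⟩ := forest ((s : ℚ) / r) ((K : ℚ) + 1) hq (Hub K (1 * r ^ j)) S (by
    intro p hp
    rw [hS, Finset.mem_image] at hp
    obtain ⟨u, hu, rfl⟩ := hp
    simp only
    linarith [hpos u hu]) (by
    intro p hp
    rw [hS, Finset.mem_image] at hp
    obtain ⟨u, hu, rfl⟩ := hp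
    have hc := hc2 u hu
    cases hc with
    | a e _ c1 c2 c3 => exact ⟨e, c3, c2, c1, fun h3 => hSTy e h3 c2⟩) (by
    intro p hp
    rw [hS, Finset.mem_image] at hp
    obtain ⟨u, hu, rfl⟩ := hp
    have hp1 := hpos u hu
    refine ⟨((u : ℚ), (zz u : ℚ) + m * u), ⟨rfl, m' - m, ?_⟩,
      nty_of r K D T _ _ K (hTE.trans hEK) (g1.trans g2) hKr (hf1 u).1 (by linarith),
      by simp only; linarith, Or.inl (hc1 u hu), ?_⟩
    · push_cast
      ring
    · intro h3
      rw [hS, Finset.mem_image] at h3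
      obtain ⟨u', hu', he⟩ := h3
      simp only [Prod.mk.injEq] at he
      obtain ⟨h4, h5⟩ := he
      have h6 : u' = u := by exact_mod_cast h4
      subst h6
      have h7 : (m' - m : ℚ) * u' = 0 := by linarith
      rcases mul_eq_zero.1 h7 with h8 | h8
      · apply hne
        have : (m' : ℚ) = m := by linarith
        exact_mod_cast this.symm
      · linarith)
  have h3 := hub_classes s r K (1 * r ^ j) hs hr (by
    rw [one_mul]
    exact Nat.one_le_pow _ _ hr) H h1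
  omega

/-- Extended chains are determined by the quotient. -/
theorem chainU (s r K : ℕ) (hs : 1 ≤ s) (hr : 1 ≤ r)
    (hKr : K * (K + 1) < r) (hq : ¬ IsRelationNumber ((s : ℚ) / (r : ℚ))) (j : ℕ)
    (hE : ∀ τ D τ' D' : ℕ, Good s r K j τ D → Good s r K j τ' D' → τ * D' = τ' * D →
      τ = τ' ∧ D = D') (τ D T τ' D' T' : ℕ)
    (hg : Good s r K j τ D) (hg' : Good s r K j τ' D') (hT : 1 ≤ T)
    (hn : ((s : ℤ) * D) ∣ (r : ℤ) * τ - T) (hn' : ((s : ℤ) * D') ∣ (r : ℤ) * τ' - T')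
    (h : T * D' = T' * D) : τ = τ' ∧ D = D' ∧ T = T' := by
  obtain ⟨n, hn⟩ := hn
  obtain ⟨n', hn'⟩ := hn'
  obtain ⟨g1, g2, g3, g4⟩ := hg.facts
  have h1 := same_n s r K j τ D T τ' D' T' n n' hs hr hKr hq hg hg' hT hn hn' h
  subst h1
  have hz : (T : ℤ) * D' = T' * D := by exact_mod_cast h
  have h2 : (r : ℤ) * (τ * D' - τ' * D) = 0 := by
    linear_combination (D' : ℤ) * hn - D * hn' + hz
  have hrz : (r : ℤ) ≠ 0 := by exact_mod_cast (by omega : r ≠ 0)
  rcases mul_eq_zero.1 h2 with h3 | h3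
  · exact absurd h3 hrz
  · have h4 : τ * D' = τ' * D := by
      have : (τ : ℤ) * D' = τ' * D := by linarith
      exact_mod_cast this
    obtain ⟨h5, h6⟩ := hE τ D τ' D' hg hg' h4
    refine ⟨h5, h6, ?_⟩
    rw [← h6] at h
    exact Nat.eq_of_mul_eq_mul_right (by omega) h

/-- Steps of chains are determined by the quotient. -/
theorem chainW (s r K : ℕ) (hs : 1 ≤ s) (hr : 1 ≤ r)
    (hKr : K * (K + 1) < r) (hq : ¬ IsRelationNumber ((s : ℚ) / (r : ℚ))) (j : ℕ)
    (hE : ∀ τ D τ' D' : ℕ, Good s r K j τ D → Good s r K j τ' D' → τ * D' = τ' * D →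
      τ = τ' ∧ D = D') (τ D T E τ' D' T' E' : ℕ)
    (hg : Good s r K j τ D) (hg' : Good s r K j τ' D') (hT : 1 ≤ T) (hT' : 1 ≤ T')
    (hn : ((s : ℤ) * D) ∣ (r : ℤ) * τ - T) (hn' : ((s : ℤ) * D') ∣ (r : ℤ) * τ' - T')
    (hTE : T ≤ E) (hEK : E ≤ K) (hTE' : T' ≤ E') (hEK' : E' ≤ K)
    (hm : (T : ℤ) ∣ (r : ℤ) * D - E) (hm' : (T' : ℤ) ∣ (r : ℤ) * D' - E')
    (h : T * E' = T' * E) : τ = τ' ∧ D = D' ∧ T = T' ∧ E = E' := by
  obtain ⟨m, hm⟩ := hm
  obtain ⟨m', hm'⟩ := hm'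
  have h1 := same_m s r K j τ D T E τ' D' T' E' m m' hs hr hKr hq hg hg' hT hT' hn hn' hTE hEK
    hTE' hEK' hm hm' h
  subst h1
  have hz : (T : ℤ) * E' = T' * E := by exact_mod_cast h
  have h2 : (r : ℤ) * (T * D' - T' * D) = 0 := by
    linear_combination (T : ℤ) * hm' - T' * hm + hz
  have hrz : (r : ℤ) ≠ 0 := by exact_mod_cast (by omega : r ≠ 0)
  rcases mul_eq_zero.1 h2 with h3 | h3
  · exact absurd h3 hrz
  · have h4 : T * D' = T' * D := by
      have : (T : ℤ) * D' = T' * D := by linarith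
      exact_mod_cast this
    obtain ⟨h5, h6, h7⟩ := chainU s r K hs hr hKr hq j hE τ D T τ' D' T' hg hg' hT hn hn' h4
    refine ⟨h5, h6, h7, ?_⟩
    rw [← h7] at h
    exact (Nat.eq_of_mul_eq_mul_left (by omega) h).symm

/-- Chains are determined by the quotient. -/
theorem chainE (s r K : ℕ) (hs : 1 ≤ s) (hr : 1 ≤ r)
    (hKr : K * (K + 1) < r) (hq : ¬ IsRelationNumber ((s : ℚ) / (r : ℚ))) (j : ℕ) :
    ∀ τ D τ' D' : ℕ, Good s r K j τ D → Good s r K j τ' D' → τ * D' = τ' * D →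
      τ = τ' ∧ D = D' := by
  induction j with
  | zero =>
    intro τ D τ' D' hg _ _
    have := hg.facts.2.2.2
    omega
  | succ j ih =>
    intro τ D τ' D' hg hg' h
    cases hg with
    | base k h1 h2 =>
      cases hg' with
      | base k' h1' h2' =>
        refine ⟨rfl, ?_⟩
        omega
      | step j' τ0 D0 T0 D1 g0 _ _ _ _ _ =>
        have := g0.facts.2.2.2
        omega
    | step j' τ0 D0 T0 D1 g0 h1 h2 h3 h4 h5 =>
      cases hg' with
      | base k' h1' h2' =>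
        have := g0.facts.2.2.2
        omega
      | step j'' τ0' D0' T0' D1' g0' h1' h2' h3' h4' h5' =>
        have := chainW s r K hs hr hKr hq j ih τ0 D0 τ D τ0' D0' τ' D' g0 g0' h1 h1' h2 h2'
          h3 h4 h3' h4' h5 h5' h
        exact ⟨this.2.2.1, this.2.2.2⟩

end Pool.Agent.H1102
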