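import Mathlib

set_option autoImplicit false

namespace Pool.Agent.H1102

/-- Telescoping lower bound for a sum of reciprocals in arithmetic progression. -/
theorem harm_tel (h c : ℝ) (hh : 0 < h) (hc : 0 ≤ c) (a b : ℕ) (hab : a ≤ b) :
    (1 / h) * (Real.log (h * (b + 1) + c) - Real.log (h * (a + 1) + c)) ≤
      ∑ m ∈ Finset.Ico a b, 1 / (h * ((m : ℝ) + 1) + c) := by
  induction b, hab using Nat.le_induction with
  | base => simp
  | succ b hab ih =>
    rw [Finset.sum_Ico_succ_top hab]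
    refine le_trans ?_ (add_le_add_left ih _)
    have hx : 0 < h * ((b : ℝ) + 1) + c := by positivity
    have h1 : Real.log (h * (((b + 1 : ℕ) : ℝ) + 1) + c) - Real.log (h * ((b : ℝ) + 1) + c)
        ≤ h / (h * ((b : ℝ) + 1) + c) := by
      rw [← Real.log_div (by positivity) hx.ne']
      refine (Real.log_le_sub_one_of_pos (by positivity)).trans (le_of_eq ?_)
      field_simp
      push_cast
      ring
    have h2 : (1 / h) * (h / (h * ((b : ℝ) + 1) + c)) = 1 / (h * ((b : ℝ) + 1) + c) := by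
      field_simp
    have h3 := mul_le_mul_of_nonneg_left h1 (by positivity : (0 : ℝ) ≤ 1 / h)
    rw [h2] at h3
    linarith

/-- A lower bound for a sum of reciprocals over a window. -/
theorem harm (h c A B : ℝ) (hh : 0 < h) (hc : 0 ≤ c) (hcA : c ≤ A) (hB : 0 < B) :
    ∃ a b : ℕ, (∀ m ∈ Finset.Ico a b, A ≤ h * m + c ∧ h * ((m : ℝ) + 1) + c ≤ B) ∧
      (1 / h) * Real.log (B / (A + 2 * h)) ≤
        ∑ m ∈ Finset.Ico a b, 1 / (h * ((m : ℝ) + 1) + c) := by
  refine ⟨⌈(A - c) / h⌉₊, ⌊(B - c) / h⌋₊, ?_, ?_⟩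
  · intro m hm
    rw [Finset.mem_Ico] at hm
    have h1 : (A - c) / h ≤ m := Nat.ceil_le.1 hm.1
    have h2 : ((m : ℝ) + 1) ≤ (B - c) / h := by
      have h3 : (m + 1) ≤ ⌊(B - c) / h⌋₊ := hm.2
      have h4 := (Nat.le_floor_iff' (by omega)).1 h3
      exact_mod_cast h4
    rw [div_le_iff₀ hh] at h1
    rw [le_div_iff₀ hh] at h2
    constructor <;> linarith
  · set a := ⌈(A - c) / h⌉₊
    set b := ⌊(B - c) / h⌋₊
    have hA0 : 0 ≤ A := hc.trans hcA
    have ha : (a : ℝ) < (A - c) / h + 1 :=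
      Nat.ceil_lt_add_one (div_nonneg (by linarith) hh.le)
    have hb : (B - c) / h < b + 1 := Nat.lt_floor_add_one _
    have ha' : h * ((a : ℝ) + 1) + c < A + 2 * h := by
      have h1 := mul_lt_mul_of_pos_left ha hh
      rw [mul_add, mul_div_cancel₀ _ hh.ne'] at h1
      linarith
    have hb' : B < h * ((b : ℝ) + 1) + c := by
      rw [div_lt_iff₀ hh] at hb
      linarith
    have hapos : 0 < h * ((a : ℝ) + 1) + c := by positivity
    rcases le_or_gt a b with hab | hab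
    · refine le_trans ?_ (harm_tel h c hh hc a b hab)
      apply mul_le_mul_of_nonneg_left _ (by positivity)
      rw [Real.log_div hB.ne' (by positivity)]
      have h1 := Real.log_le_log hB hb'.le
      have h2 := Real.log_le_log hapos ha'.le
      linarith
    · rw [Finset.Ico_eq_empty_of_le hab.le, Finset.sum_empty]
      have h1 : (b : ℝ) ≤ a := by exact_mod_cast hab.le
      have h2 : B ≤ A + 2 * h := by
        have h3 : h * ((b : ℝ) + 1) ≤ h * ((a : ℝ) + 1) :=
          mul_le_mul_of_nonneg_left (by linarith) hh.le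
        linarith
      apply mul_nonpos_of_nonneg_of_nonpos (by positivity)
      apply Real.log_nonpos (by positivity)
      rw [div_le_one (by positivity)]
      exact h2

/-- Disjoint families inside a set. -/
theorem sum_card_le {ι α : Type*} [DecidableEq α] (I : Finset ι) (E : ι → Finset α)
    (T : Finset α) (hsub : ∀ i ∈ I, E i ⊆ T)
    (hd : ∀ i ∈ I, ∀ i' ∈ I, ∀ x ∈ E i, x ∈ E i' → i = i') :
    ∑ i ∈ I, ((E i).card : ℝ) ≤ (T.card : ℝ) := by
  have h1 : (I.biUnion E).card = ∑ i ∈ I, (E i).card := by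
    apply Finset.card_biUnion
    intro i hi i' hi' hne
    refine Finset.disjoint_left.2 ?_
    intro x hx hx'
    exact hne (hd i hi i' hi' x hx hx')
  have h2 : (I.biUnion E).card ≤ T.card := Finset.card_le_card (Finset.biUnion_subset.2 hsub)
  rw [h1] at h2
  exact_mod_cast h2

/-- Integers in a short interval, two values removed. -/
theorem card_two (C D V x1 x2 : ℤ) (hD : 0 < D) :
    2 * (V : ℝ) / D - 3 ≤
      ((((Finset.Icc ⌈((C - V : ℤ) : ℝ) / D⌉ ⌊((C + V : ℤ) : ℝ) / D⌋).erase x1).erase x2).card : ℝ) := by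
  set I := Finset.Icc ⌈((C - V : ℤ) : ℝ) / D⌉ ⌊((C + V : ℤ) : ℝ) / D⌋ with hI
  have h1 : (I.card : ℝ) ≤ ((I.erase x1).card : ℝ) + 1 := by
    have := Finset.pred_card_le_card_erase (s := I) (a := x1)
    have h2 : I.card ≤ (I.erase x1).card + 1 := by omega
    exact_mod_cast h2
  have h2 : ((I.erase x1).card : ℝ) ≤ (((I.erase x1).erase x2).card : ℝ) + 1 := by
    have := Finset.pred_card_le_card_erase (s := I.erase x1) (a := x2)
    have h2 : (I.erase x1).card ≤ ((I.erase x1).erase x2).card + 1 := by omega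
    exact_mod_cast h2
  have h3 : ((C + V : ℤ) : ℝ) / D - ((C - V : ℤ) : ℝ) / D - 1 ≤ (I.card : ℝ) := by
    rw [hI, Int.card_Icc]
    have h4 : (⌊((C + V : ℤ) : ℝ) / D⌋ + 1 - ⌈((C - V : ℤ) : ℝ) / D⌉ : ℤ) ≤
        ((⌊((C + V : ℤ) : ℝ) / D⌋ + 1 - ⌈((C - V : ℤ) : ℝ) / D⌉).toNat : ℤ) := Int.self_le_toNat _
    have h5 : ((⌊((C + V : ℤ) : ℝ) / D⌋ : ℝ) + 1 - (⌈((C - V : ℤ) : ℝ) / D⌉ : ℝ)) ≤
        ((⌊((C + V : ℤ) : ℝ) / D⌋ + 1 - ⌈((C - V : ℤ) : ℝ) / D⌉).toNat : ℝ) := by
      exact_mod_cast h4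
    have h6 := Int.lt_floor_add_one (((C + V : ℤ) : ℝ) / D)
    have h7 := Int.ceil_lt_add_one (((C - V : ℤ) : ℝ) / D)
    linarith
  have hDr : (0 : ℝ) < D := by exact_mod_cast hD
  have h4 : ((C + V : ℤ) : ℝ) / D - ((C - V : ℤ) : ℝ) / D = 2 * (V : ℝ) / D := by
    push_cast
    field_simp
    ring
  linarith

end Pool.Agent.H1102
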