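import Mathlib
import Pool.Agent.Lib.H1102.Harm
import Pool.Agent.Lib.H1102.ChainUniq

set_option autoImplicit false

namespace Pool.Agent.H1102

open Pool.Agent.H78.Farbman Pool.Agent.H73F

/-- A window in an arithmetic progression. -/
theorem ap_window (h R B : ℕ) (hh : 1 ≤ h) (hB : 1 ≤ B) : ∃ F : Finset ℕ,
    (∀ t ∈ F, h ≤ t ∧ t ≤ B ∧ (h : ℤ) ∣ (R : ℤ) - t) ∧
    (1 / (h : ℝ)) * Real.log ((B : ℝ) / (3 * h)) ≤ ∑ t ∈ F, 1 / (t : ℝ) := by
  classical
  have hhR : (1 : ℝ) ≤ h := by exact_mod_cast hh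
  have hBR : (1 : ℝ) ≤ B := by exact_mod_cast hB
  obtain ⟨a, b, hab, hsum⟩ := harm h 0 h B (by linarith) le_rfl (by linarith) (by linarith)
  have hρ : R % h < h := Nat.mod_lt _ hh
  have hρe : h * (R / h) + R % h = R := Nat.div_add_mod _ _
  have hinj : Function.Injective fun m : ℕ => R % h + m * h := by
    intro m m' he
    simp only at he
    have : m * h = m' * h := by omega
    exact Nat.eq_of_mul_eq_mul_right hh this
  refine ⟨(Finset.Ico a b).image fun m => R % h + m * h, ?_, ?_⟩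
  · intro t ht
    rw [Finset.mem_image] at ht
    obtain ⟨m, hm, rfl⟩ := ht
    obtain ⟨h1, h2⟩ := hab m hm
    rw [add_zero] at h1 h2
    have h1' : h ≤ h * m := by exact_mod_cast h1
    have h2' : h * (m + 1) ≤ B := by exact_mod_cast h2
    have e1 : h * (m + 1) = m * h + h := by ring
    have e2 : h * m = m * h := by ring
    refine ⟨by omega, by omega, ((R / h : ℕ) : ℤ) - m, ?_⟩
    have h3 : ((h * (R / h) + R % h : ℕ) : ℤ) = (R : ℤ) := by rw [hρe]
    push_cast at h3 ⊢
    linear_combination -h3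
  · rw [Finset.sum_image (fun x _ y _ he => hinj he)]
    have h3 : (h : ℝ) + 2 * h = 3 * h := by ring
    rw [h3] at hsum
    refine hsum.trans (Finset.sum_le_sum ?_)
    intro m hm
    obtain ⟨h1, h2⟩ := hab m hm
    rw [add_zero] at h1
    have h1' : h ≤ h * m := by exact_mod_cast h1
    have e2 : h * m = m * h := by ring
    have h4 : 0 < R % h + m * h := by omega
    have h5 : R % h + m * h ≤ h * (m + 1) := by
      have e1 : h * (m + 1) = m * h + h := by ring
      omega
    have h6 : ((R % h + m * h : ℕ) : ℝ) ≤ h * ((m : ℝ) + 1) + 0 := by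
      rw [add_zero]
      exact_mod_cast h5
    exact one_div_le_one_div_of_le (by exact_mod_cast h4) h6

/-- The weighted number of chains. -/
theorem chain_sum (s r K G : ℕ) (hs : 1 ≤ s) (hr : 1 ≤ r) (hKr : K * (K + 1) < r)
    (hq : ¬ IsRelationNumber ((s : ℚ) / (r : ℚ))) (hG : 3 * s ≤ G) (n : ℕ) :
    G ^ (2 * n + 1) ≤ K → ∃ I : Finset (ℕ × ℕ),
      (∀ c ∈ I, Good s r K (n + 1) c.1 c.2 ∧ c.2 ≤ G ^ (2 * n + 1)) ∧
      (Real.log ((G : ℝ) / (3 * s)) ^ 2 / s) ^ n * Real.log G ≤ ∑ c ∈ I, 1 / (c.2 : ℝ) := by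
  classical
  have hsR : (1 : ℝ) ≤ s := by exact_mod_cast hs
  have hGR : 3 * (s : ℝ) ≤ G := by exact_mod_cast hG
  have hG1 : 1 ≤ G := by omega
  have hGp : (0 : ℝ) < G := by linarith
  set ℓ := Real.log ((G : ℝ) / (3 * s)) with hℓ
  have hℓ0 : 0 ≤ ℓ := by
    apply Real.log_nonneg
    rw [le_div_iff₀ (by positivity)]
    linarith
  induction n with
  | zero =>
    intro hGK
    rw [Nat.mul_zero, Nat.zero_add, pow_one] at hGK
    refine ⟨(Finset.Ico 0 G).image fun k => (1, k + 1), ?_, ?_⟩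
    · intro c hc
      rw [Finset.mem_image] at hc
      obtain ⟨k, hk, rfl⟩ := hc
      rw [Finset.mem_Ico] at hk
      refine ⟨Good.base (k + 1) (by omega) (by omega), ?_⟩
      simp only [Nat.mul_zero, Nat.zero_add, pow_one]
      omega
    · rw [Finset.sum_image (fun x _ y _ he => by simpa using he), pow_zero, one_mul]
      have h1 := harm_tel 1 0 one_pos le_rfl 0 G (Nat.zero_le _)
      simp only [one_mul, add_zero, div_one, Nat.cast_zero, zero_add, Real.log_one,
        sub_zero] at h1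
      have h3 : ∑ x ∈ Finset.Ico 0 G, 1 / (((x + 1 : ℕ)) : ℝ) =
          ∑ m ∈ Finset.Ico 0 G, 1 / ((m : ℝ) + 1) := by
        apply Finset.sum_congr rfl
        intro z _
        push_cast
        rfl
      rw [h3]
      refine le_trans ?_ h1
      exact Real.log_le_log hGp (by linarith)
  | succ n ih =>
    intro hGK
    have hpow : G ^ (2 * n + 1) ≤ G ^ (2 * (n + 1) + 1) := Nat.pow_le_pow_right hG1 (by omega)
    obtain ⟨I, hI, hsum⟩ := ih (hpow.trans hGK)
    have hw := ap_window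
    choose! F hF1 hF2 using hw
    set B1 : ℕ := G ^ (2 * n + 2) with hB1
    set B2 : ℕ := G ^ (2 * (n + 1) + 1) with hB2
    have hB1p : 1 ≤ B1 := Nat.one_le_pow _ _ hG1
    have hB2p : 1 ≤ B2 := Nat.one_le_pow _ _ hG1
    have hB1R : (B1 : ℝ) = (G : ℝ) ^ (2 * n + 1) * G := by
      rw [hB1]
      push_cast
      ring
    have hB2R : (B2 : ℝ) = (B1 : ℝ) * G := by
      rw [hB2, hB1]
      push_cast
      ring
    set W : ℕ × ℕ → Finset (ℕ × ℕ) := fun c =>
      (F (s * c.2) (r * c.1) B1).biUnion fun T => (F T (r * c.2) B2).image fun E => (T, E) with hW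
    have hc2 : ∀ c ∈ I, 1 ≤ c.2 := by
      intro c hc
      obtain ⟨g1, g2, _, _⟩ := (hI c hc).1.facts
      exact g1.trans g2
    have hsc : ∀ c ∈ I, 1 ≤ s * c.2 := fun c hc => Nat.mul_pos hs (hc2 c hc)
    have hmem : ∀ c ∈ I, ∀ x ∈ W c, 1 ≤ x.1 ∧ ((s : ℤ) * c.2) ∣ (r : ℤ) * c.1 - x.1 ∧
        x.1 ≤ x.2 ∧ x.2 ≤ B2 ∧ (x.1 : ℤ) ∣ (r : ℤ) * c.2 - x.2 := by
      intro c hc x hx
      simp only [hW, Finset.mem_biUnion, Finset.mem_image] at hx
      obtain ⟨T, hT, E, hE, rfl⟩ := hx
      obtain ⟨t1, t2, t3⟩ := hF1 (s * c.2) (r * c.1) B1 (hsc c hc) hB1p T hT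
      have hT1 : 1 ≤ T := (hsc c hc).trans t1
      obtain ⟨e1, e2, e3⟩ := hF1 T (r * c.2) B2 hT1 hB2p E hE
      refine ⟨hT1, ?_, e1, e2, ?_⟩
      · push_cast at t3
        exact t3
      · push_cast at e3
        exact e3
    refine ⟨I.biUnion W, ?_, ?_⟩
    · intro x hx
      rw [Finset.mem_biUnion] at hx
      obtain ⟨c, hc, hx⟩ := hx
      obtain ⟨w1, w2, w3, w4, w5⟩ := hmem c hc x hx
      exact ⟨Good.step (n + 1) c.1 c.2 x.1 x.2 (hI c hc).1 w1 w2 w3 (w4.trans hGK) w5, w4⟩
    · have hdis : ∀ c ∈ I, ∀ c' ∈ I, c ≠ c' → Disjoint (W c) (W c') := by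
        intro c hc c' hc' hne
        rw [Finset.disjoint_left]
        intro x hx hx'
        obtain ⟨w1, w2, w3, w4, w5⟩ := hmem c hc x hx
        obtain ⟨v1, v2, v3, v4, v5⟩ := hmem c' hc' x hx'
        obtain ⟨e1, e2, _⟩ := chainW s r K hs hr hKr hq (n + 1)
          (chainE s r K hs hr hKr hq (n + 1)) c.1 c.2 x.1 x.2 c'.1 c'.2 x.1 x.2 (hI c hc).1
          (hI c' hc').1 w1 v1 w2 v2 w3 (w4.trans hGK) v3 (v4.trans hGK) w5 v5 rfl
        exact hne (Prod.ext e1 e2)
      rw [Finset.sum_biUnion (fun c hc c' hc' hne => hdis c hc c' hc' hne)]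
      have hterm : ∀ c ∈ I, ℓ ^ 2 / s * (1 / (c.2 : ℝ)) ≤ ∑ x ∈ W c, 1 / (x.2 : ℝ) := by
        intro c hc
        have hcR : (1 : ℝ) ≤ c.2 := by exact_mod_cast hc2 c hc
        have hcG : (c.2 : ℝ) ≤ (G : ℝ) ^ (2 * n + 1) := by exact_mod_cast (hI c hc).2
        simp only [hW]
        rw [Finset.sum_biUnion]
        · have h1 : ∀ T ∈ F (s * c.2) (r * c.1) B1, ℓ * (1 / (T : ℝ)) ≤
              ∑ x ∈ (F T (r * c.2) B2).image fun E => (T, E), 1 / (x.2 : ℝ) := by
            intro T hT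
            obtain ⟨t1, t2, t3⟩ := hF1 (s * c.2) (r * c.1) B1 (hsc c hc) hB1p T hT
            have hT1 : 1 ≤ T := (hsc c hc).trans t1
            have hTR : (1 : ℝ) ≤ T := by exact_mod_cast hT1
            have hTB : (T : ℝ) ≤ B1 := by exact_mod_cast t2
            rw [Finset.sum_image (fun x _ y _ he => by simpa using he)]
            refine le_trans ?_ (hF2 T (r * c.2) B2 hT1 hB2p)
            rw [mul_comm]
            apply mul_le_mul_of_nonneg_left _ (by positivity)
            apply Real.log_le_log (by positivity)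
            rw [div_le_div_iff₀ (by positivity) (by positivity), hB2R]
            have h2 : (G : ℝ) * T ≤ B1 * G := by
              rw [mul_comm]
              exact mul_le_mul_of_nonneg_right hTB hGp.le
            have h3 : (G : ℝ) * T ≤ B1 * G * s := by
              have h4 : 0 ≤ (B1 : ℝ) * G := by positivity
              nlinarith
            nlinarith
          refine le_trans ?_ (Finset.sum_le_sum h1)
          rw [← Finset.mul_sum]
          have h2 := hF2 (s * c.2) (r * c.1) B1 (hsc c hc) hB1p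
          have h3 : ℓ ≤ Real.log ((B1 : ℝ) / (3 * ((s * c.2 : ℕ) : ℝ))) := by
            apply Real.log_le_log (by positivity)
            push_cast
            rw [div_le_div_iff₀ (by positivity) (by positivity), hB1R]
            have h4 := mul_le_mul_of_nonneg_right hcG (by positivity : 0 ≤ 3 * (s : ℝ) * G)
            nlinarith
          have h4 : (1 / ((s * c.2 : ℕ) : ℝ)) * ℓ ≤ ∑ t ∈ F (s * c.2) (r * c.1) B1,
              1 / (t : ℝ) := (mul_le_mul_of_nonneg_left h3 (by positivity)).trans h2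
          have h5 := mul_le_mul_of_nonneg_left h4 hℓ0
          refine le_trans (le_of_eq ?_) h5
          push_cast
          field_simp
        · intro T _ T' _ hne
          refine Finset.disjoint_left.2 ?_
          intro x hx hx'
          rw [Finset.mem_image] at hx hx'
          obtain ⟨E, _, rfl⟩ := hx
          obtain ⟨E', _, he⟩ := hx'
          exact hne (congrArg Prod.fst he).symm
      refine le_trans ?_ (Finset.sum_le_sum hterm)
      rw [← Finset.mul_sum]
      have h1 := mul_le_mul_of_nonneg_left hsum (by positivity : 0 ≤ ℓ ^ 2 / s)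
      refine le_trans (le_of_eq ?_) h1
      rw [pow_succ]
      ring

end Pool.Agent.H1102
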