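import Mathlib
import Pool.Agent.Lib.H1102.Crit

set_option autoImplicit false

namespace Pool.Agent.H1102

open Pool.Agent.H78.Farbman Pool.Agent.H73F

/-- The criterion applied to a set of integer vectors. -/
theorem crit_int (s r : ℕ) (hr : 1 ≤ r)
    (hq : ¬ IsRelationNumber ((s : ℚ) / (r : ℚ))) (P : Finset (ℤ × ℤ)) (h0 : ∀ p ∈ P, p.2 ≠ 0) :
    P.card ≤ (P.image (la s r)).card + (P.image lb).card := by
  have hrq : (r : ℚ) ≠ 0 := by exact_mod_cast (by omega : r ≠ 0)
  have key := c4_crit ((s : ℚ) / (r : ℚ)) hq P (fun p => ((p.1 : ℚ), (p.2 : ℚ))) (by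
    intro p hp he
    simp only [Prod.mk.injEq] at he
    exact h0 p hp (by exact_mod_cast he.2)) (by
    intro p _ p' _ he
    simp only [Prod.mk.injEq] at he
    exact Prod.ext (by exact_mod_cast he.1) (by exact_mod_cast he.2)) (la s r) lb (by
    intro p _ p' _ he
    simp only [la, Prod.mk.injEq] at he
    refine ⟨congrArg (fun z : ℤ => (z : ℚ)) he.1.symm, ?_⟩
    rw [← he.1] at he
    dsimp only
    have h2 : ((s : ℤ) * p.2) ∣ (r : ℤ) * p'.1 - (r : ℤ) * p.1 := by
      apply Int.ModEq.dvd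
      exact he.2
    obtain ⟨m, hm⟩ := h2
    refine ⟨m, ?_⟩
    have h3 : (r : ℚ) * p'.1 - (r : ℚ) * p.1 = (s : ℚ) * p.2 * m := by exact_mod_cast hm
    field_simp
    linarith) (by
    intro p _ p' _ he
    simp only [lb, Prod.mk.injEq] at he
    refine ⟨congrArg (fun z : ℤ => (z : ℚ)) he.1.symm, ?_⟩
    rw [← he.1] at he
    dsimp only
    have h2 : p.1 ∣ p'.2 - p.2 := Int.ModEq.dvd he.2
    obtain ⟨m, hm⟩ := h2
    refine ⟨m, ?_⟩
    have h3 : (p'.2 : ℚ) - p.2 = (p.1 : ℚ) * m := by exact_mod_cast hm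
    linarith)
  rw [Subsingleton.elim (fun a b => Classical.propDecidable (a = b))
      (instDecidableEqProd : DecidableEq (ℤ × ℤ))] at key
  exact key

/-- The number of labels of hub vectors `(c x, c v)`, `0 < |v| ≤ V`. -/
theorem hub_card' (s r V c : ℕ) (hs : 1 ≤ s) (hc : 1 ≤ c) (P : Finset (ℤ × ℤ))
    (hP : ∀ p ∈ P, p.2 ≠ 0 ∧ |p.2| ≤ (V : ℤ)) :
    ((P.image fun p => ((c : ℤ) * p.1, (c : ℤ) * p.2)).image (la s r)).card
      ≤ s * (V * (V + 1)) := by
  refine le_trans ?_ (hub_card s r V hs P hP)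
  have hcp : (0 : ℤ) < c := by exact_mod_cast hc
  have h1 : (P.image fun p => ((c : ℤ) * p.1, (c : ℤ) * p.2)).image (la s r) ⊆
      (P.image (la s r)).image fun q => ((c : ℤ) * q.1, (c : ℤ) * q.2) := by
    intro y hy
    rw [Finset.mem_image] at hy
    obtain ⟨p, hp, rfl⟩ := hy
    rw [Finset.mem_image] at hp
    obtain ⟨p', hp', rfl⟩ := hp
    rw [Finset.mem_image]
    refine ⟨la s r p', Finset.mem_image_of_mem _ hp', ?_⟩
    simp only [la, Prod.mk.injEq, true_and]
    rw [← Int.mul_emod_mul_of_pos _ _ hcp]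
    congr 1 <;> ring
  exact (Finset.card_le_card h1).trans Finset.card_image_le

/-- The counting inequality for paths of length three between the hubs. -/
theorem k3 (s r V U X : ℕ) (hs : 1 ≤ s) (hr : 1 ≤ r)
    (hq : ¬ IsRelationNumber ((s : ℚ) / (r : ℚ))) (S : Finset (ℤ × ℤ))
    (hx : ∀ p ∈ S, 2 * (U : ℤ) < p.1 ∧ p.1 ≤ X)
    (hu : ∀ p ∈ S, (V : ℤ) < p.2 ∧ (U : ℤ) < r * p.2)
    (ha : ∀ p ∈ S, ∃ y v : ℤ, (s : ℤ) * p.2 ∣ y - p.1 ∧ v ≠ 0 ∧ |v| ≤ V ∧
      y ∣ r * p.2 - v ∧ (X : ℤ) < y)
    (hb : ∀ p ∈ S, ∃ u y v : ℤ, p.1 ∣ r * p.2 - u ∧ (V : ℤ) < u ∧ u ≤ U ∧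
      (s : ℤ) * u ∣ y - r * p.1 ∧ v ≠ 0 ∧ |v| ≤ V ∧ y ∣ r * u - v) :
    S.card ≤ 2 * (s * (V * (V + 1))) := by
  classical
  choose! y v hay hav0 havV hayv haX using ha
  choose! u' y' v' hbx hbV hbU hby hbv0 hbvV hbyv using hb
  have hrp : (0 : ℤ) < r := by exact_mod_cast hr
  have hr0 : (r : ℤ) ≠ 0 := hrp.ne'
  set A0 : Finset (ℤ × ℤ) := S.image fun p => (y p, v p) with hA0
  set B0 : Finset (ℤ × ℤ) := S.image fun p => (y' p, v' p) with hB0
  set P0a : Finset (ℤ × ℤ) := A0.image fun p => ((r : ℤ) * p.1, (r : ℤ) * p.2) with hP0a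
  set P0 : Finset (ℤ × ℤ) := P0a ∪ B0 with hP0
  set Q1 : Finset (ℤ × ℤ) := (S.image fun p => ((r : ℤ) * y p, (r : ℤ) * (r * p.2))) ∪
    (S.image fun p => (y' p, (r : ℤ) * u' p)) with hQ1
  set S1 : Finset (ℤ × ℤ) := S.image fun p => ((r : ℤ) * p.1, (r : ℤ) * (r * p.2)) with hS1
  set S0 : Finset (ℤ × ℤ) := S.image fun p => ((r : ℤ) * p.1, (r : ℤ) * u' p) with hS0
  have hcS1 : S1.card = S.card := by
    rw [hS1]
    apply Finset.card_image_of_injective
    intro a b hab
    simp only [Prod.mk.injEq] at hab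
    exact Prod.ext (mul_left_cancel₀ hr0 hab.1)
      (mul_left_cancel₀ hr0 (mul_left_cancel₀ hr0 hab.2))
  -- descriptions of the second coordinates
  have mP0 : ∀ p ∈ P0, p.2 ≠ 0 ∧ |p.2| ≤ r * V := by
    intro p hp
    rw [hP0, Finset.mem_union] at hp
    rcases hp with hp | hp
    · rw [hP0a, Finset.mem_image] at hp
      obtain ⟨p1, hp1, rfl⟩ := hp
      rw [hA0, Finset.mem_image] at hp1
      obtain ⟨p2, hp2, rfl⟩ := hp1
      refine ⟨mul_ne_zero hr0 (hav0 p2 hp2), ?_⟩
      simp only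
      rw [abs_mul, Nat.abs_cast]
      exact mul_le_mul_of_nonneg_left (havV p2 hp2) hrp.le
    · rw [hB0, Finset.mem_image] at hp
      obtain ⟨p2, hp2, rfl⟩ := hp
      refine ⟨hbv0 p2 hp2, (hbvV p2 hp2).trans ?_⟩
      have h1 : (1 : ℤ) ≤ r := by exact_mod_cast hr
      nlinarith [Int.natCast_nonneg V]
  have big : ∀ z : ℤ, (V : ℤ) < z → (r : ℤ) * V < r * z := fun z hz =>
    mul_lt_mul_of_pos_left hz hrp
  have hVr : ∀ p ∈ S, (V : ℤ) < r * p.2 := by
    intro p hp
    have h1 : (1 : ℤ) ≤ r := by exact_mod_cast hr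
    have h2 := (hu p hp).1
    nlinarith [Int.natCast_nonneg V]
  have mQ1 : ∀ p ∈ Q1, (r : ℤ) * V < p.2 := by
    intro p hp
    rw [hQ1, Finset.mem_union] at hp
    rcases hp with hp | hp
    · rw [Finset.mem_image] at hp
      obtain ⟨p2, hp2, rfl⟩ := hp
      exact big _ (hVr p2 hp2)
    · rw [Finset.mem_image] at hp
      obtain ⟨p2, hp2, rfl⟩ := hp
      exact big _ (hbV p2 hp2)
  have mS1 : ∀ p ∈ S1, (r : ℤ) * V < p.2 ∧ (r : ℤ) * U < p.2 := by
    intro p hp
    rw [hS1, Finset.mem_image] at hp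
    obtain ⟨p2, hp2, rfl⟩ := hp
    exact ⟨big _ (hVr p2 hp2), mul_lt_mul_of_pos_left (hu p2 hp2).2 hrp⟩
  have mS0 : ∀ p ∈ S0, (r : ℤ) * V < p.2 ∧ p.2 ≤ (r : ℤ) * U := by
    intro p hp
    rw [hS0, Finset.mem_image] at hp
    obtain ⟨p2, hp2, rfl⟩ := hp
    exact ⟨big _ (hbV p2 hp2), mul_le_mul_of_nonneg_left (hbU p2 hp2) hrp.le⟩
  have d1 : Disjoint P0 (Q1 ∪ (S1 ∪ S0)) := by
    rw [Finset.disjoint_left]
    intro p hp hp'
    have h1 := (mP0 p hp).2
    have h2 : (r : ℤ) * V < p.2 := by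
      rw [Finset.mem_union] at hp'
      rcases hp' with hp' | hp'
      swap
      · rw [Finset.mem_union] at hp'
        rcases hp' with hp' | hp'
        · exact (mS1 p hp').1
        · exact (mS0 p hp').1
      · exact mQ1 p hp'
    exact absurd (h2.trans_le (le_abs_self p.2)) (not_lt.2 h1)
  have d2 : Disjoint S1 S0 := by
    rw [Finset.disjoint_left]
    intro p hp hp'
    exact absurd (mS1 p hp).2 (not_lt.2 (mS0 p hp').2)
  have d3 : Disjoint Q1 (S1 ∪ S0) := by
    rw [Finset.disjoint_left]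
    intro p hp hp'
    rw [hQ1, Finset.mem_union] at hp
    rw [Finset.mem_union] at hp'
    rcases hp with hp | hp
    · rw [Finset.mem_image] at hp
      obtain ⟨p2, hp2, rfl⟩ := hp
      have h1 : ∃ p3 ∈ S, (r : ℤ) * p3.1 = r * y p2 := by
        rcases hp' with hp' | hp'
        · rw [hS1, Finset.mem_image] at hp'
          obtain ⟨p3, hp3, he⟩ := hp'
          exact ⟨p3, hp3, congrArg Prod.fst he⟩
        · rw [hS0, Finset.mem_image] at hp'
          obtain ⟨p3, hp3, he⟩ := hp'
          exact ⟨p3, hp3, congrArg Prod.fst he⟩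
      obtain ⟨p3, hp3, he⟩ := h1
      have h2 := mul_left_cancel₀ hr0 he
      have h3 := haX p2 hp2
      have h4 := (hx p3 hp3).2
      omega
    · rw [Finset.mem_image] at hp
      obtain ⟨p2, hp2, rfl⟩ := hp
      rcases hp' with hp' | hp'
      · have h1 := (mS1 _ hp').2
        have h2 := mul_le_mul_of_nonneg_left (hbU p2 hp2) hrp.le
        simp only at h1
        omega
      · rw [hS0, Finset.mem_image] at hp'
        obtain ⟨p3, hp3, he⟩ := hp'
        simp only [Prod.mk.injEq] at he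
        have h1 := hbyv p2 hp2
        rw [← he.1] at h1
        obtain ⟨z, hz⟩ := h1
        have h2 : v' p2 = r * (u' p2 - p3.1 * z) := by linarith
        have h3 := hbvV p2 hp2
        have h4 := hbv0 p2 hp2
        have h5 := hbV p2 hp2
        have h6 := hbU p2 hp2
        have h7 := (hx p3 hp3).1
        have hr1 : (1 : ℤ) ≤ r := by exact_mod_cast hr
        have h8 : |u' p2 - p3.1 * z| ≤ V := by
          rw [h2, abs_mul, Nat.abs_cast] at h3
          nlinarith [abs_nonneg (u' p2 - p3.1 * z)]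
        rw [abs_le] at h8
        have hz1 : 0 < z := by
          by_contra hcon
          rw [not_lt] at hcon
          nlinarith
        nlinarith [Int.natCast_nonneg U]
  have key := crit_int s r hr hq (P0 ∪ (Q1 ∪ (S1 ∪ S0))) (by
    intro p hp
    rw [Finset.mem_union] at hp
    rcases hp with hp | hp
    · exact (mP0 p hp).1
    · have h2 : (r : ℤ) * V < p.2 := by
        rw [Finset.mem_union] at hp
        rcases hp with hp' | hp
        · exact mQ1 p hp'
        · rw [Finset.mem_union] at hp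
          rcases hp with hp' | hp'
          · exact (mS1 p hp').1
          · exact (mS0 p hp').1
      have h3 : (0 : ℤ) ≤ r * V := by positivity
      omega)
  rw [Finset.card_union_of_disjoint d1, Finset.card_union_of_disjoint d3,
    Finset.card_union_of_disjoint d2, hcS1] at key
  have hβ : ((P0 ∪ (Q1 ∪ (S1 ∪ S0))).image lb).card ≤ P0.card + S0.card := by
    have h1 : (P0 ∪ (Q1 ∪ (S1 ∪ S0))).image lb ⊆ P0.image lb ∪ S0.image lb := by
      intro z hz
      rw [Finset.mem_image] at hz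
      obtain ⟨p, hp, rfl⟩ := hz
      rw [Finset.mem_union]
      have hp4 : p ∈ P0 ∨ p ∈ Q1 ∨ p ∈ S1 ∨ p ∈ S0 := by
        rw [Finset.mem_union] at hp
        rcases hp with hp | hp
        · exact Or.inl hp
        · rw [Finset.mem_union] at hp
          rcases hp with hp | hp
          · exact Or.inr (Or.inl hp)
          · rw [Finset.mem_union] at hp
            exact Or.inr (Or.inr hp)
      clear hp
      rcases hp4 with hp | hp | hp | hp
      · exact Or.inl (Finset.mem_image_of_mem _ hp)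
      · left
        rw [hQ1, Finset.mem_union] at hp
        rcases hp with hp | hp
        · rw [Finset.mem_image] at hp
          obtain ⟨p2, hp2, rfl⟩ := hp
          rw [Finset.mem_image]
          refine ⟨((r : ℤ) * y p2, (r : ℤ) * v p2), ?_, ?_⟩
          · rw [hP0, Finset.mem_union]
            left
            rw [hP0a, Finset.mem_image]
            exact ⟨(y p2, v p2), Finset.mem_image_of_mem _ hp2, rfl⟩
          · simp only [lb, Prod.mk.injEq, true_and]
            refine Int.modEq_iff_dvd.2 ?_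
            rw [← mul_sub]
            exact mul_dvd_mul_left _ (hayv p2 hp2)
        · rw [Finset.mem_image] at hp
          obtain ⟨p2, hp2, rfl⟩ := hp
          rw [Finset.mem_image]
          refine ⟨(y' p2, v' p2), ?_, ?_⟩
          · rw [hP0, Finset.mem_union]
            right
            exact Finset.mem_image_of_mem _ hp2
          · simp only [lb, Prod.mk.injEq, true_and]
            exact Int.modEq_iff_dvd.2 (hbyv p2 hp2)
      · right
        rw [hS1, Finset.mem_image] at hp
        obtain ⟨p2, hp2, rfl⟩ := hp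
        rw [Finset.mem_image]
        refine ⟨((r : ℤ) * p2.1, (r : ℤ) * u' p2), Finset.mem_image_of_mem _ hp2, ?_⟩
        simp only [lb, Prod.mk.injEq, true_and]
        refine Int.modEq_iff_dvd.2 ?_
        rw [← mul_sub]
        exact mul_dvd_mul_left _ (hbx p2 hp2)
      · exact Or.inr (Finset.mem_image_of_mem _ hp)
    exact (Finset.card_le_card h1).trans ((Finset.card_union_le _ _).trans
      (Nat.add_le_add Finset.card_image_le Finset.card_image_le))
  have hα : ((P0 ∪ (Q1 ∪ (S1 ∪ S0))).image (la s r)).card ≤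
      s * (V * (V + 1)) + s * (V * (V + 1)) + Q1.card := by
    have h1 : (P0 ∪ (Q1 ∪ (S1 ∪ S0))).image (la s r) ⊆
        (P0a.image (la s r) ∪ B0.image (la s r)) ∪ Q1.image (la s r) := by
      intro z hz
      rw [Finset.mem_image] at hz
      obtain ⟨p, hp, rfl⟩ := hz
      rw [Finset.mem_union, Finset.mem_union]
      have hp4 : p ∈ P0 ∨ p ∈ Q1 ∨ p ∈ S1 ∨ p ∈ S0 := by
        rw [Finset.mem_union] at hp
        rcases hp with hp | hp
        · exact Or.inl hp
        · rw [Finset.mem_union] at hp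
          rcases hp with hp | hp
          · exact Or.inr (Or.inl hp)
          · rw [Finset.mem_union] at hp
            exact Or.inr (Or.inr hp)
      clear hp
      rcases hp4 with hp | hp | hp | hp
      · left
        rw [hP0, Finset.mem_union] at hp
        rcases hp with hp | hp
        · exact Or.inl (Finset.mem_image_of_mem _ hp)
        · exact Or.inr (Finset.mem_image_of_mem _ hp)
      · exact Or.inr (Finset.mem_image_of_mem _ hp)
      · right
        rw [hS1, Finset.mem_image] at hp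
        obtain ⟨p2, hp2, rfl⟩ := hp
        rw [Finset.mem_image]
        refine ⟨((r : ℤ) * y p2, (r : ℤ) * (r * p2.2)), ?_, ?_⟩
        · rw [hQ1, Finset.mem_union]
          left
          rw [Finset.mem_image]
          exact ⟨p2, hp2, rfl⟩
        · simp only [la, Prod.mk.injEq, true_and]
          refine Int.modEq_iff_dvd.2 ?_
          obtain ⟨z, hz⟩ := hay p2 hp2
          refine ⟨-z, ?_⟩
          linear_combination (-(r : ℤ) * r) * hz
      · right
        rw [hS0, Finset.mem_image] at hp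
        obtain ⟨p2, hp2, rfl⟩ := hp
        rw [Finset.mem_image]
        refine ⟨(y' p2, (r : ℤ) * u' p2), ?_, ?_⟩
        · rw [hQ1, Finset.mem_union]
          right
          rw [Finset.mem_image]
          exact ⟨p2, hp2, rfl⟩
        · simp only [la, Prod.mk.injEq, true_and]
          refine Int.modEq_iff_dvd.2 ?_
          obtain ⟨z, hz⟩ := hby p2 hp2
          refine ⟨-z, ?_⟩
          linear_combination (-(r : ℤ)) * hz
    refine (Finset.card_le_card h1).trans ((Finset.card_union_le _ _).trans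
      (Nat.add_le_add ((Finset.card_union_le _ _).trans (Nat.add_le_add ?_ ?_))
        Finset.card_image_le))
    · rw [hP0a]
      apply hub_card' s r V r hs hr
      intro p hp
      rw [hA0, Finset.mem_image] at hp
      obtain ⟨p2, hp2, rfl⟩ := hp
      exact ⟨hav0 p2 hp2, havV p2 hp2⟩
    · apply hub_card s r V hs
      intro p hp
      rw [hB0, Finset.mem_image] at hp
      obtain ⟨p2, hp2, rfl⟩ := hp
      exact ⟨hbv0 p2 hp2, hbvV p2 hp2⟩
  omega

end Pool.Agent.H1102
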