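import Mathlib
import Pool.Agent.Lib.H1102.Crit3

set_option autoImplicit false

namespace Pool.Agent.H1102

open Pool.Agent.H78.Farbman Pool.Agent.H73F

/-- A coincidence `r (k' - k) = k k' s m` gives a relation number. -/
theorem coinc (s r k k' m : ℕ) (hs : 1 ≤ s) (hr : 1 ≤ r) (hk : 1 ≤ k) (hkk : k < k')
    (hm : 1 ≤ m) (h : (r : ℤ) * ((k' : ℤ) - k) = k * k' * s * m) :
    IsRelationNumber ((s : ℚ) / (r : ℚ)) := by
  classical
  by_contra hq
  have hrp : (0 : ℤ) < r := by exact_mod_cast hr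
  have hsp : (0 : ℤ) < s := by exact_mod_cast hs
  have hkp : (0 : ℤ) < k := by exact_mod_cast hk
  have hmp : (0 : ℤ) < m := by exact_mod_cast hm
  have hkkp : (k : ℤ) < k' := by exact_mod_cast hkk
  have hk'p : (0 : ℤ) < k' := hkp.trans hkkp
  set N : ℕ := s * (k' * (k' + 1)) + 1 with hN
  set R : Finset ℕ := Finset.Ioc k' (k' + N) with hR
  set P1 : Finset (ℤ × ℤ) := R.image fun u : ℕ => (((r : ℤ) * u - 1) / k', (u : ℤ)) with hP1
  set P2 : Finset (ℤ × ℤ) :=
    R.image fun u : ℕ => (((r : ℤ) * u - 1) / k' + m * s * u, (u : ℤ)) with hP2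
  have hRc : R.card = N := by rw [hR, Nat.card_Ioc]; omega
  have c1 : P1.card = N := by
    rw [hP1, Finset.card_image_of_injective, hRc]
    intro a b hab
    simp only [Prod.mk.injEq] at hab
    exact_mod_cast hab.2
  have c2 : P2.card = N := by
    rw [hP2, Finset.card_image_of_injective, hRc]
    intro a b hab
    simp only [Prod.mk.injEq] at hab
    exact_mod_cast hab.2
  have hR0 : ∀ u ∈ R, (k' : ℤ) < u := by
    intro u hu
    rw [hR, Finset.mem_Ioc] at hu
    exact_mod_cast hu.1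
  have dis : Disjoint P1 P2 := by
    rw [Finset.disjoint_left]
    intro p h1 h2
    rw [hP1, Finset.mem_image] at h1
    rw [hP2, Finset.mem_image] at h2
    obtain ⟨u, hu, rfl⟩ := h1
    obtain ⟨u2, hu2, he⟩ := h2
    simp only [Prod.mk.injEq] at he
    obtain ⟨h3, h4⟩ := he
    rw [h4] at h3
    have h5 : (0 : ℤ) < m * s * u := by
      have := hR0 u hu
      have h6 : (0 : ℤ) < u := by omega
      positivity
    omega
  have key := k0 s r k' hs hr hq (P1 ∪ P2) (by
    intro p hp
    have h1 : ∃ u ∈ R, p.2 = (u : ℤ) := by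
      rw [Finset.mem_union] at hp
      rcases hp with hp | hp
      · rw [hP1, Finset.mem_image] at hp
        obtain ⟨u, hu, rfl⟩ := hp
        exact ⟨u, hu, rfl⟩
      · rw [hP2, Finset.mem_image] at hp
        obtain ⟨u, hu, rfl⟩ := hp
        exact ⟨u, hu, rfl⟩
    obtain ⟨u, hu, he⟩ := h1
    rw [he, Nat.abs_cast]
    have h2 := hR0 u hu
    nlinarith) (by
    intro p hp
    have e0 : ∀ u : ℕ, 1 ≤ (r : ℤ) * u - k' * (((r : ℤ) * u - 1) / k') ∧
        (r : ℤ) * u - k' * (((r : ℤ) * u - 1) / k') ≤ k' := by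
      intro u
      have h1 := Int.emod_nonneg ((r : ℤ) * u - 1) hk'p.ne'
      have h2 := Int.emod_lt_of_pos ((r : ℤ) * u - 1) hk'p
      have h3 := Int.emod_add_mul_ediv ((r : ℤ) * u - 1) k'
      constructor <;> linarith
    rw [Finset.mem_union] at hp
    rcases hp with hp | hp
    · rw [hP1, Finset.mem_image] at hp
      obtain ⟨u, hu, rfl⟩ := hp
      obtain ⟨h1, h2⟩ := e0 u
      refine ⟨(r : ℤ) * u - k' * (((r : ℤ) * u - 1) / k'), by omega, ?_, ?_⟩
      · rw [abs_le]
        constructor <;> omega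
      · refine ⟨k', ?_⟩
        ring
    · rw [hP2, Finset.mem_image] at hp
      obtain ⟨u, hu, rfl⟩ := hp
      obtain ⟨h1, h2⟩ := e0 u
      set x : ℤ := ((r : ℤ) * u - 1) / k' with hx
      have h3 : (k' : ℤ) * (r * u - k * (x + m * s * u)) = k * (r * u - k' * x) := by
        linear_combination (u : ℤ) * h
      refine ⟨(r : ℤ) * u - k * (x + m * s * u), ?_, ?_, ?_⟩
      · intro h4
        rw [h4, mul_zero] at h3
        have : (0 : ℤ) < k * (r * u - k' * x) := mul_pos hkp (by omega)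
        omega
      · have h5 : 0 < (r : ℤ) * u - k * (x + m * s * u) := by
          by_contra hcon
          rw [not_lt] at hcon
          have h6 : (k' : ℤ) * (r * u - k * (x + m * s * u)) ≤ 0 :=
            mul_nonpos_of_nonneg_of_nonpos hk'p.le hcon
          have : (0 : ℤ) < k * (r * u - k' * x) := mul_pos hkp (by omega)
          omega
        rw [abs_of_pos h5]
        have h6 : (k : ℤ) * (r * u - k' * x) ≤ k * k' := mul_le_mul_of_nonneg_left h2 hkp.le
        by_contra hcon
        rw [not_le] at hcon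
        have h7 : (k' : ℤ) * k' < k' * (r * u - k * (x + m * s * u)) :=
          mul_lt_mul_of_pos_left hcon hk'p
        nlinarith
      · refine ⟨k, ?_⟩
        ring)
  rw [Finset.card_union_of_disjoint dis, c1, c2] at key
  have h1 : ((P1 ∪ P2).image (lq s)).card ≤ N := by
    rw [← c1]
    refine le_trans (Finset.card_le_card ?_) (Finset.card_image_le (s := P1) (f := lq s))
    intro z hz
    rw [Finset.mem_image] at hz
    obtain ⟨p, hp, rfl⟩ := hz
    rw [Finset.mem_union] at hp
    rcases hp with hp | hp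
    · exact Finset.mem_image_of_mem _ hp
    · rw [hP2, Finset.mem_image] at hp
      obtain ⟨u, hu, rfl⟩ := hp
      rw [Finset.mem_image]
      refine ⟨(((r : ℤ) * u - 1) / k', (u : ℤ)), ?_, ?_⟩
      · rw [hP1]
        exact Finset.mem_image_of_mem _ hu
      · simp only [lq, Prod.mk.injEq, true_and]
        refine Int.modEq_iff_dvd.2 ?_
        exact ⟨m, by ring⟩
  omega

/-- Absence of coincidences up to `K`. -/
def NoC (s r K : ℕ) : Prop :=
  ∀ k k' m : ℕ, 1 ≤ k → k < k' → k' ≤ K → 1 ≤ m → (r : ℤ) * ((k' : ℤ) - k) ≠ k * k' * s * m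

theorem noC (s r K : ℕ) (hs : 1 ≤ s) (hr : 1 ≤ r)
    (hq : ¬ IsRelationNumber ((s : ℚ) / (r : ℚ))) : NoC s r K := fun k k' m hk hkk _ hm h =>
  hq (coinc s r k k' m hs hr hk hkk hm h)

/-- The uniqueness lemma. -/
theorem uniq (s r K V : ℕ) (H : NoC s r K) (hs : 1 ≤ s) (hr : 1 ≤ r) (u X : ℤ) (k k' t t' : ℕ)
    (hk : 1 ≤ k) (hkK : k ≤ K) (hk' : 1 ≤ k') (hkK' : k' ≤ K)
    (hd : ((k : ℤ) * s) ∣ (r : ℤ) - t) (hd' : ((k' : ℤ) * s) ∣ (r : ℤ) - t')
    (hu : 2 * (V : ℤ) * K < u) (h : |t * u - k * X| ≤ V) (h' : |t' * u - k' * X| ≤ V) :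
    k = k' ∧ t = t' := by
  have hkp : (0 : ℤ) < k := by exact_mod_cast hk
  have hk'p : (0 : ℤ) < k' := by exact_mod_cast hk'
  have hkKz : (k : ℤ) ≤ K := by exact_mod_cast hkK
  have hkKz' : (k' : ℤ) ≤ K := by exact_mod_cast hkK'
  have hrp : (0 : ℤ) < r := by exact_mod_cast hr
  have hsp : (0 : ℤ) < s := by exact_mod_cast hs
  have hV0 : (0 : ℤ) ≤ V := Int.natCast_nonneg V
  rw [abs_le] at h h'
  have e : u * (t * k' - t' * k) = k' * (t * u - k * X) - k * (t' * u - k' * X) := by ring
  have b1 : u * (t * k' - t' * k) ≤ 2 * V * K := by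
    rw [e]
    have h1 := mul_le_mul_of_nonneg_left h.2 hk'p.le
    have h2 := mul_le_mul_of_nonneg_left h'.1 hkp.le
    nlinarith
  have b2 : -(2 * V * K) ≤ u * (t * k' - t' * k) := by
    rw [e]
    have h1 := mul_le_mul_of_nonneg_left h.1 hk'p.le
    have h2 := mul_le_mul_of_nonneg_left h'.2 hkp.le
    nlinarith
  have hup : 0 < u := by
    have : (0 : ℤ) ≤ 2 * V * K := by positivity
    omega
  have z : (t : ℤ) * k' - t' * k = 0 := by
    by_contra hne
    rcases lt_or_gt_of_ne hne with hlt | hgt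
    · have : u * (t * k' - t' * k) ≤ u * (-1) := mul_le_mul_of_nonneg_left (by omega) hup.le
      omega
    · have : u * 1 ≤ u * (t * k' - t' * k) := mul_le_mul_of_nonneg_left (by omega) hup.le
      omega
  obtain ⟨a, ha⟩ := hd
  obtain ⟨a', ha'⟩ := hd'
  have e2 : (r : ℤ) * (k' - k) = k * k' * s * (a - a') := by
    linear_combination (k' : ℤ) * ha - k * ha' + z
  rcases lt_trichotomy k k' with hlt | heq | hgt
  · exfalso
    have hkk : (k : ℤ) < k' := by exact_mod_cast hlt
    have hpos : 0 < (r : ℤ) * (k' - k) := mul_pos hrp (by omega)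
    rw [e2] at hpos
    have hm : 0 < a - a' := by
      by_contra hcon
      rw [not_lt] at hcon
      have : (k : ℤ) * k' * s * (a - a') ≤ 0 :=
        mul_nonpos_of_nonneg_of_nonpos (by positivity) hcon
      omega
    refine H k k' (a - a').toNat hk hlt hkK' (by omega) ?_
    rw [e2, Int.toNat_of_nonneg hm.le]
  · subst heq
    refine ⟨rfl, ?_⟩
    have h3 : ((t : ℤ) - t') * k = 0 := by linarith
    rcases mul_eq_zero.1 h3 with h4 | h4
    · omega
    · omega
  · exfalso
    have hkk : (k' : ℤ) < k := by exact_mod_cast hgt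
    have e3 : (r : ℤ) * (k - k') = k' * k * s * (a' - a) := by
      linear_combination -e2
    have hpos : 0 < (r : ℤ) * (k - k') := mul_pos hrp (by omega)
    rw [e3] at hpos
    have hm : 0 < a' - a := by
      by_contra hcon
      rw [not_lt] at hcon
      have : (k' : ℤ) * k * s * (a' - a) ≤ 0 :=
        mul_nonpos_of_nonneg_of_nonpos (by positivity) hcon
      omega
    refine H k' k (a' - a).toNat hk' hgt hkK (by omega) ?_
    rw [e3, Int.toNat_of_nonneg hm.le]

end Pool.Agent.H1102
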