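import Mathlib
import Pool.Agent.Lib.H1102.Uniq
import Pool.Agent.Lib.H1102.Harm

set_option autoImplicit false

namespace Pool.Agent.H1102

open Pool.Agent.H78.Farbman Pool.Agent.H73F

/-- An integer in the window of the index `(j, k2, m)` satisfies all the path conditions. -/
theorem inner_mem (s r V U0 U1 X1 u k t j k2 m t2 x : ℤ)
    (hr : 1 ≤ r) (hV : 1 ≤ V) (hk : 1 ≤ k) (hk2 : 1 ≤ k2) (hj : 1 ≤ j)
    (ht2 : 1 ≤ t2) (ht2a : m * (k2 * s) ≤ t2) (ht2b : t2 ≤ (m + 1) * (k2 * s))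
    (hA : r * r * u ≤ (U1 - V) * (j * s * m + r))
    (hB : (U0 + V) * (j * s * (m + 1) + r) ≤ r * r * u)
    (hj0 : r * u * k ≤ j * (t * u + V)) (hj1 : j * (t * u - V) ≤ (r * u - U1) * k)
    (hx0 : 2 * U1 * k + V < t * u) (hx1 : t * u + V ≤ k * X1)
    (hU0 : 0 ≤ U0) (hVU : V ≤ U1)
    (hxa : (j * t2 + k2 * r) * x ≤ t2 * r * u + V)
    (hxb : t2 * r * u - V ≤ (j * t2 + k2 * r) * x) :
    U0 < r * u - j * x ∧ r * u - j * x ≤ U1 ∧ |t * u - k * x| ≤ V ∧ 2 * U1 < x ∧ x ≤ X1 ∧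
      |t2 * (r * u - j * x) - k2 * (r * x)| ≤ V := by
  set D : ℤ := j * t2 + k2 * r with hD
  set u' : ℤ := r * u - j * x with hu'
  have hid : D * u' = k2 * (r * r * u) + j * (t2 * r * u - D * x) := by
    rw [hD, hu']
    ring
  have hjD : j + 1 ≤ D := by
    have h1 : j * 1 ≤ j * t2 := mul_le_mul_of_nonneg_left ht2 (by omega)
    have h2 : 1 ≤ k2 * r := by nlinarith
    omega
  have hDa : k2 * (j * s * m + r) ≤ D := by
    have h1 : j * (m * (k2 * s)) ≤ j * t2 := mul_le_mul_of_nonneg_left ht2a (by omega)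
    have h2 : k2 * (j * s * m + r) = j * (m * (k2 * s)) + k2 * r := by ring
    omega
  have hDb : D ≤ k2 * (j * s * (m + 1) + r) := by
    have h1 : j * t2 ≤ j * ((m + 1) * (k2 * s)) := mul_le_mul_of_nonneg_left ht2b (by omega)
    have h2 : k2 * (j * s * (m + 1) + r) = j * ((m + 1) * (k2 * s)) + k2 * r := by ring
    omega
  have hup1 : u' ≤ U1 := by
    by_contra hcon
    rw [not_le] at hcon
    have h1 : D * (U1 + 1) ≤ D * u' := mul_le_mul_of_nonneg_left (by omega) (by omega)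
    have h2 : k2 * (r * r * u) ≤ k2 * ((U1 - V) * (j * s * m + r)) :=
      mul_le_mul_of_nonneg_left hA (by omega)
    have h3 : (U1 - V) * (k2 * (j * s * m + r)) ≤ (U1 - V) * D :=
      mul_le_mul_of_nonneg_left hDa (by omega)
    have h4 : j * (t2 * r * u - D * x) ≤ j * V := mul_le_mul_of_nonneg_left (by omega) (by omega)
    have h5 : j * V ≤ D * V := mul_le_mul_of_nonneg_right (by omega) (by omega)
    nlinarith
  have hup0 : U0 < u' := by
    by_contra hcon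
    rw [not_lt] at hcon
    have h1 : D * u' ≤ D * U0 := mul_le_mul_of_nonneg_left hcon (by omega)
    have h2 : k2 * ((U0 + V) * (j * s * (m + 1) + r)) ≤ k2 * (r * r * u) :=
      mul_le_mul_of_nonneg_left hB (by omega)
    have h3 : (U0 + V) * D ≤ (U0 + V) * (k2 * (j * s * (m + 1) + r)) :=
      mul_le_mul_of_nonneg_left hDb (by omega)
    have h4 : j * (-V) ≤ j * (t2 * r * u - D * x) :=
      mul_le_mul_of_nonneg_left (by omega) (by omega)
    have h5 : (j + 1) * V ≤ D * V := mul_le_mul_of_nonneg_right (by omega) (by omega)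
    nlinarith
  have hjp : 0 < j := by omega
  have hkp : 0 < k := by omega
  have hb1 : k * x ≤ t * u + V := by
    have h1 : j * (k * x) ≤ j * (t * u + V) := by
      have h2 : j * (k * x) = r * u * k - k * u' := by
        rw [hu']
        ring
      have h3 : 0 ≤ k * u' := mul_nonneg hkp.le (by omega)
      omega
    exact le_of_mul_le_mul_left h1 hjp
  have hb2 : t * u - V ≤ k * x := by
    have h1 : j * (t * u - V) ≤ j * (k * x) := by
      have h2 : j * (k * x) = r * u * k - k * u' := by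
        rw [hu']
        ring
      have h3 : k * u' ≤ k * U1 := mul_le_mul_of_nonneg_left hup1 hkp.le
      have h4 : (r * u - U1) * k = r * u * k - k * U1 := by ring
      omega
    exact le_of_mul_le_mul_left h1 hjp
  refine ⟨hup0, hup1, ?_, ?_, ?_, ?_⟩
  · rw [abs_le]
    constructor <;> omega
  · have h1 : k * (2 * U1) < k * x := by
      have h2 : k * (2 * U1) = 2 * U1 * k := by ring
      omega
    exact lt_of_mul_lt_mul_left h1 hkp.le
  · exact le_of_mul_le_mul_left (hb1.trans hx1) hkp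
  · have h1 : t2 * u' - k2 * (r * x) = t2 * r * u - D * x := by
      rw [hu', hD]
      ring
    rw [h1, abs_le]
    constructor <;> omega

/-- The first-step condition. -/
def C1 (s r V U1 X1 K : ℕ) (u x : ℤ) (k t : ℕ) : Prop :=
  1 ≤ k ∧ k ≤ K ∧ ((k : ℤ) * s) ∣ (r : ℤ) - t ∧ 2 * (U1 : ℤ) < x ∧ x ≤ X1 ∧
    (t : ℤ) * u - k * x ≠ 0 ∧ |(t : ℤ) * u - k * x| ≤ V

/-- The second-step condition. -/
def C2 (s r V U0 U1 K : ℕ) (u x : ℤ) (j k2 t2 : ℕ) : Prop :=
  1 ≤ k2 ∧ k2 ≤ K ∧ ((k2 : ℤ) * s) ∣ (r : ℤ) - t2 ∧ (U0 : ℤ) < r * u - j * x ∧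
    r * u - j * x ≤ U1 ∧ (t2 : ℤ) * (r * u - j * x) - k2 * (r * x) ≠ 0 ∧
    |(t2 : ℤ) * (r * u - j * x) - k2 * (r * x)| ≤ V

open Classical in
/-- The points with given first and second step data. -/
noncomputable def S1 (s r V U0 U1 X1 K u k t j k2 : ℕ) : Finset ℤ :=
  (Finset.Ioc (2 * (U1 : ℤ)) X1).filter fun x =>
    C1 s r V U1 X1 K u x k t ∧ ∃ t2, C2 s r V U0 U1 K u x j k2 t2

open Classical in
/-- The points with given first step data and given number `j`. -/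
noncomputable def S2 (s r V U0 U1 X1 K u k t j : ℕ) : Finset ℤ :=
  (Finset.Ioc (2 * (U1 : ℤ)) X1).filter fun x =>
    C1 s r V U1 X1 K u x k t ∧ ∃ k2 t2, C2 s r V U0 U1 K u x j k2 t2

open Classical in
/-- The points with given first step data. -/
noncomputable def S3 (s r V U0 U1 X1 K u k t : ℕ) : Finset ℤ :=
  (Finset.Ioc (2 * (U1 : ℤ)) X1).filter fun x =>
    C1 s r V U1 X1 K u x k t ∧ ∃ j k2 t2, C2 s r V U0 U1 K u x j k2 t2

open Classical in
/-- The points of one row. -/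
noncomputable def S4 (s r V U0 U1 X1 K u : ℕ) : Finset ℤ :=
  (Finset.Ioc (2 * (U1 : ℤ)) X1).filter fun x =>
    ∃ k t, C1 s r V U1 X1 K u x k t ∧ ∃ j k2 t2, C2 s r V U0 U1 K u x j k2 t2

/-- Uniqueness of the second step data, `j` given. -/
theorem c2_uniq (s r V U0 U1 K : ℕ) (H : NoC s r K) (hs : 1 ≤ s) (hr : 1 ≤ r)
    (hU0 : 2 * V * K ≤ U0) (u x : ℤ) (j k2 t2 k2' t2' : ℕ)
    (h : C2 s r V U0 U1 K u x j k2 t2) (h' : C2 s r V U0 U1 K u x j k2' t2') :
    k2 = k2' ∧ t2 = t2' := by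
  obtain ⟨a1, a2, a3, a4, a5, a6, a7⟩ := h
  obtain ⟨b1, b2, b3, b4, b5, b6, b7⟩ := h'
  refine uniq s r K V H hs hr (r * u - j * x) (r * x) k2 k2' t2 t2' a1 a2 b1 b2 a3 b3 ?_ a7 b7
  have h1 : 2 * (V : ℤ) * K ≤ U0 := by exact_mod_cast hU0
  omega

/-- Uniqueness of `j`. -/
theorem j_uniq (r U1 : ℕ) (u x : ℤ) (j j' : ℕ) (hx : 2 * (U1 : ℤ) < x)
    (h1 : 0 < r * u - j * x) (h2 : r * u - j * x ≤ U1)
    (h1' : 0 < r * u - j' * x) (h2' : r * u - j' * x ≤ U1) : j = j' := by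
  have hU : (0 : ℤ) ≤ U1 := Int.natCast_nonneg U1
  have hxp : 0 < x := by omega
  rcases lt_trichotomy j j' with hlt | heq | hgt
  · exfalso
    have h3 : (j : ℤ) + 1 ≤ j' := by exact_mod_cast hlt
    have h4 : ((j : ℤ) + 1) * x ≤ j' * x := mul_le_mul_of_nonneg_right h3 hxp.le
    have h5 : ((j : ℤ) + 1) * x = j * x + x := by ring
    omega
  · exact heq
  · exfalso
    have h3 : (j' : ℤ) + 1 ≤ j := by exact_mod_cast hgt
    have h4 : ((j' : ℤ) + 1) * x ≤ j * x := mul_le_mul_of_nonneg_right h3 hxp.le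
    have h5 : ((j' : ℤ) + 1) * x = j' * x + x := by ring
    omega

/-- The count for given `j, k2`. -/
theorem inner_k2 (s r V U0 U1 X1 K : ℕ) (H : NoC s r K) (hs : 1 ≤ s) (hr : 1 ≤ r) (hV : 1 ≤ V)
    (hU0 : 2 * V * K ≤ U0) (hVU : V < U1) (u k t j k2 : ℕ) (huU : u ≤ U1)
    (hk : 1 ≤ k) (hkK : k ≤ K) (hd : ((k : ℤ) * s) ∣ (r : ℤ) - t) (hj : 1 ≤ j)
    (hk2 : 1 ≤ k2) (hk2K : k2 ≤ K)
    (hj0 : (r : ℤ) * u * k ≤ j * (t * u + V)) (hj1 : (j : ℤ) * (t * u - V) ≤ (r * u - U1) * k)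
    (hx0 : 2 * (U1 : ℤ) * k + V < t * u) (hx1 : (t : ℤ) * u + V ≤ k * X1)
    (hru : U1 < r * u) (hbig : 30 * K * (r * r * U1) ≤ V * U0)
    (Λ : ℝ) (hΛ : Λ ≤ Real.log (((r : ℝ) * r * u / (U0 + V)) /
      ((r : ℝ) * r * u / (U1 - V) + 2 * (j * s)))) :
    1.9 * V * Λ / (k2 * (j * s)) ≤ ((S1 s r V U0 U1 X1 K u k t j k2).card : ℝ) := by
  classical
  have hsR : (1 : ℝ) ≤ s := by exact_mod_cast hs
  have hrR : (1 : ℝ) ≤ r := by exact_mod_cast hr
  have hVR : (1 : ℝ) ≤ V := by exact_mod_cast hV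
  have hjR : (1 : ℝ) ≤ j := by exact_mod_cast hj
  have hk2R : (1 : ℝ) ≤ k2 := by exact_mod_cast hk2
  have hk2KR : (k2 : ℝ) ≤ K := by exact_mod_cast hk2K
  have hUV : (V : ℝ) < U1 := by exact_mod_cast hVU
  have hU0R : (0 : ℝ) ≤ U0 := Nat.cast_nonneg _
  have huR : (0 : ℝ) ≤ u := Nat.cast_nonneg _
  have hruR : (U1 : ℝ) < r * u := by exact_mod_cast hru
  have huUR : (u : ℝ) ≤ U1 := by exact_mod_cast huU
  have hbigR : 30 * (K : ℝ) * (r * r * U1) ≤ V * U0 := by exact_mod_cast hbig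
  have hu0 : (0 : ℝ) < u := by
    rcases huR.lt_or_eq with h | h
    · exact h
    · rw [← h, mul_zero] at hruR
      linarith [Nat.cast_nonneg (α := ℝ) U1]
  obtain ⟨a, b, hab, hsum⟩ := harm (j * s) r ((r : ℝ) * r * u / (U1 - V))
    ((r : ℝ) * r * u / (U0 + V)) (by positivity) (by positivity) (by
      rw [le_div_iff₀ (by linarith)]
      have h1 : (r : ℝ) * (U1 - V) ≤ r * (r * u) :=
        mul_le_mul_of_nonneg_left (by linarith) (by linarith)
      linarith) (by positivity)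
  set ρ : ℕ := r % (k2 * s) with hρ
  have hks : 0 < k2 * s := Nat.mul_pos hk2 hs
  have hρlt : ρ < k2 * s := Nat.mod_lt _ hks
  have hρe : k2 * s * (r / (k2 * s)) + ρ = r := Nat.div_add_mod _ _
  -- the windows
  set D : ℕ → ℤ := fun m => (j : ℤ) * ((ρ + m * (k2 * s) : ℕ) : ℤ) + k2 * r with hD
  set C : ℕ → ℤ := fun m => ((ρ + m * (k2 * s) : ℕ) : ℤ) * r * u with hC
  set E : ℕ → Finset ℤ := fun m =>
    ((Finset.Icc ⌈((C m - V : ℤ) : ℝ) / D m⌉ ⌊((C m + V : ℤ) : ℝ) / D m⌋).erase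
      ((t : ℤ) * u / k)).erase (C m / D m) with hE
  have facts : ∀ m ∈ Finset.Ico a b,
      (r : ℤ) * r * u ≤ ((U1 : ℤ) - V) * (j * s * m + r) ∧
      ((U0 : ℤ) + V) * (j * s * (m + 1) + r) ≤ (r : ℤ) * r * u ∧ 1 ≤ m := by
    intro m hm
    obtain ⟨h1, h2⟩ := hab m hm
    rw [div_le_iff₀ (by linarith)] at h1
    rw [le_div_iff₀ (by linarith)] at h2
    refine ⟨?_, ?_, ?_⟩
    · have h3 : (r : ℝ) * r * u ≤ ((U1 : ℝ) - V) * (j * s * m + r) := by linarith
      exact_mod_cast h3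
    · have h3 : ((U0 : ℝ) + V) * (j * s * (m + 1) + r) ≤ (r : ℝ) * r * u := by linarith
      exact_mod_cast h3
    · by_contra hcon
      have hm0 : m = 0 := by omega
      rw [hm0] at h1
      simp only [Nat.cast_zero, mul_zero, zero_add] at h1
      have h4 : (r : ℝ) * (r * u) ≤ r * (U1 - V) := by linarith
      have h5 := le_of_mul_le_mul_left h4 (by linarith)
      linarith
  have hDpos : ∀ m, 0 < D m := by
    intro m
    have h1 : (0 : ℤ) < k2 * r := by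
      have : (0 : ℤ) < k2 := by exact_mod_cast hk2
      have : (0 : ℤ) < r := by exact_mod_cast hr
      positivity
    have h2 : (0 : ℤ) ≤ (j : ℤ) * ((ρ + m * (k2 * s) : ℕ) : ℤ) := by positivity
    simp only [hD]
    omega
  have hEx : ∀ m ∈ Finset.Ico a b, ∀ x ∈ E m, C1 s r V U1 X1 K u x k t ∧
      C2 s r V U0 U1 K u x j k2 (ρ + m * (k2 * s)) := by
    intro m hm x hx
    obtain ⟨f1, f2, f3⟩ := facts m hm
    simp only [hE, Finset.mem_erase, Finset.mem_Icc] at hx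
    obtain ⟨g1, g2, g3, g4⟩ := hx
    have hDR : (0 : ℝ) < D m := by exact_mod_cast hDpos m
    have g5 : C m - V ≤ D m * x := by
      have h1 := Int.ceil_le.1 g3
      rw [div_le_iff₀ hDR] at h1
      have h2 : ((C m - V : ℤ) : ℝ) ≤ ((D m * x : ℤ) : ℝ) := by
        rw [Int.cast_mul]
        linarith
      exact_mod_cast h2
    have g6 : D m * x ≤ C m + V := by
      have h1 := Int.le_floor.1 g4
      rw [le_div_iff₀ hDR] at h1
      have h2 : ((D m * x : ℤ) : ℝ) ≤ ((C m + V : ℤ) : ℝ) := by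
        rw [Int.cast_mul]
        linarith
      exact_mod_cast h2
    have ht2a : m * (k2 * s) ≤ ρ + m * (k2 * s) := by omega
    have ht2b : ρ + m * (k2 * s) ≤ (m + 1) * (k2 * s) := by
      have : (m + 1) * (k2 * s) = m * (k2 * s) + k2 * s := by ring
      omega
    have ht2 : 1 ≤ ρ + m * (k2 * s) := by
      have : 1 ≤ m * (k2 * s) := Nat.mul_pos f3 hks
      omega
    obtain ⟨m1, m2, m3, m4, m5, m6⟩ := inner_mem s r V U0 U1 X1 u k t j k2 m
      ((ρ + m * (k2 * s) : ℕ) : ℤ) x (by exact_mod_cast hr) (by exact_mod_cast hV)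
      (by exact_mod_cast hk) (by exact_mod_cast hk2) (by exact_mod_cast hj)
      (by exact_mod_cast ht2) (by exact_mod_cast ht2a) (by exact_mod_cast ht2b) f1 f2 hj0 hj1
      hx0 hx1 (Int.natCast_nonneg _) (by exact_mod_cast hVU.le) g6 g5
    refine ⟨⟨hk, hkK, hd, m4, m5, ?_, m3⟩, ⟨hk2, hk2K, ?_, m1, m2, ?_, m6⟩⟩
    · intro h0
      apply g2
      have h1 : (t : ℤ) * u = k * x := by linarith
      rw [h1, Int.mul_ediv_cancel_left]
      have : (0 : ℤ) < k := by exact_mod_cast hk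
      omega
    · refine ⟨((r / (k2 * s) : ℕ) : ℤ) - m, ?_⟩
      have h1 : ((k2 * s * (r / (k2 * s)) + ρ : ℕ) : ℤ) = (r : ℤ) := by rw [hρe]
      push_cast at h1 ⊢
      linear_combination -h1
    · intro h0
      apply g1
      have h1 : C m = D m * x := by
        simp only [hC, hD]
        push_cast at h0 ⊢
        linear_combination h0
      rw [h1, Int.mul_ediv_cancel_left]
      exact (hDpos m).ne'
  have hle : ∑ m ∈ Finset.Ico a b, ((E m).card : ℝ) ≤
      ((S1 s r V U0 U1 X1 K u k t j k2).card : ℝ) := by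
    apply sum_card_le
    · intro m hm x hx
      obtain ⟨e1, e2⟩ := hEx m hm x hx
      rw [S1, Finset.mem_filter, Finset.mem_Ioc]
      exact ⟨⟨e1.2.2.2.1, e1.2.2.2.2.1⟩, e1, _, e2⟩
    · intro m hm m' hm' x hx hx'
      obtain ⟨_, e2⟩ := hEx m hm x hx
      obtain ⟨_, e2'⟩ := hEx m' hm' x hx'
      have h1 := (c2_uniq s r V U0 U1 K H hs hr hU0 u x j k2 _ k2 _ e2 e2').2
      have h2 : m * (k2 * s) = m' * (k2 * s) := by omega
      exact Nat.eq_of_mul_eq_mul_right hks h2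
  refine le_trans ?_ hle
  have hterm : ∀ m ∈ Finset.Ico a b,
      1.9 * V / k2 * (1 / ((j : ℝ) * s * ((m : ℝ) + 1) + r)) ≤ ((E m).card : ℝ) := by
    intro m hm
    refine le_trans ?_ (card_two (C m) (D m) V _ _ (hDpos m))
    obtain ⟨f1, f2, f3⟩ := facts m hm
    have hDR : (0 : ℝ) < D m := by exact_mod_cast hDpos m
    have ht2b : ((ρ + m * (k2 * s) : ℕ) : ℝ) ≤ ((m : ℝ) + 1) * (k2 * s) := by
      have h1 : ρ + m * (k2 * s) ≤ (m + 1) * (k2 * s) := by
        have : (m + 1) * (k2 * s) = m * (k2 * s) + k2 * s := by ring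
        omega
      exact_mod_cast h1
    have hDle : (D m : ℝ) ≤ k2 * ((j : ℝ) * s * ((m : ℝ) + 1) + r) := by
      have h1 : (D m : ℝ) = (j : ℝ) * ((ρ + m * (k2 * s) : ℕ) : ℝ) + k2 * r := by
        simp only [hD]
        push_cast
        ring
      rw [h1]
      have h2 := mul_le_mul_of_nonneg_left ht2b (by linarith : (0 : ℝ) ≤ j)
      linarith
    have hG : (0 : ℝ) < (j : ℝ) * s * ((m : ℝ) + 1) + r := by positivity
    have h30 : 30 * (k2 * ((j : ℝ) * s * ((m : ℝ) + 1) + r)) ≤ V := by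
      have f2R : ((U0 : ℝ) + V) * (j * s * (m + 1) + r) ≤ (r : ℝ) * r * u := by exact_mod_cast f2
      have h1 : (r : ℝ) * r * u ≤ r * r * U1 := mul_le_mul_of_nonneg_left huUR (by positivity)
      have h2 : (30 * (K : ℝ)) * (((U0 : ℝ) + V) * (j * s * (m + 1) + r)) ≤ V * U0 :=
        (mul_le_mul_of_nonneg_left (f2R.trans h1) (by positivity)).trans hbigR
      have h3 : ((U0 : ℝ) + V) * (30 * (k2 * ((j : ℝ) * s * ((m : ℝ) + 1) + r))) ≤
          (U0 + V) * V := by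
        have h4 : (k2 : ℝ) * ((j : ℝ) * s * ((m : ℝ) + 1) + r) ≤
            K * ((j : ℝ) * s * ((m : ℝ) + 1) + r) := mul_le_mul_of_nonneg_right hk2KR hG.le
        have h5 : ((U0 : ℝ) + V) * (30 * (k2 * ((j : ℝ) * s * ((m : ℝ) + 1) + r))) ≤
            ((U0 : ℝ) + V) * (30 * (K * ((j : ℝ) * s * ((m : ℝ) + 1) + r))) :=
          mul_le_mul_of_nonneg_left (by linarith) (by linarith)
        nlinarith
      exact le_of_mul_le_mul_left h3 (by linarith)
    have h31 : 30 * (D m : ℝ) ≤ V := by linarith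
    have h32 : 1.9 * (V : ℝ) / D m ≤ 2 * ((V : ℤ) : ℝ) / D m - 3 := by
      rw [Int.cast_natCast]
      have h1 : 2 * (V : ℝ) / D m - 1.9 * (V : ℝ) / D m = 0.1 * V / D m := by ring
      have h2 : 3 ≤ 0.1 * (V : ℝ) / D m := by
        rw [le_div_iff₀ hDR]
        linarith
      linarith
    refine le_trans ?_ h32
    rw [show 1.9 * (V : ℝ) / k2 * (1 / ((j : ℝ) * s * ((m : ℝ) + 1) + r)) =
      1.9 * V / (k2 * ((j : ℝ) * s * ((m : ℝ) + 1) + r)) by field_simp]
    exact div_le_div_of_nonneg_left (by positivity) hDR hDle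
  refine le_trans ?_ (Finset.sum_le_sum hterm)
  rw [← Finset.mul_sum]
  have h1 := mul_le_mul_of_nonneg_left hsum (by positivity : (0 : ℝ) ≤ 1.9 * V / k2)
  refine le_trans ?_ h1
  have h2 : 1.9 * (V : ℝ) * Λ / (k2 * (j * s)) = 1.9 * V / k2 * (1 / (j * s) * Λ) := by
    field_simp
  rw [h2]
  apply mul_le_mul_of_nonneg_left _ (by positivity)
  apply mul_le_mul_of_nonneg_left hΛ (by positivity)

end Pool.Agent.H1102
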