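import Mathlib
import Pool.Agent.Lib.H1102.Inner

set_option autoImplicit false

namespace Pool.Agent.H1102

open Pool.Agent.H78.Farbman Pool.Agent.H73F

/-- The count for given `j`. -/
theorem inner_j (s r V U0 U1 X1 K : ℕ) (H : NoC s r K) (hs : 1 ≤ s) (hr : 1 ≤ r) (hV : 1 ≤ V)
    (hU0 : 2 * V * K ≤ U0) (hVU : V < U1) (u k t j : ℕ) (huU : u ≤ U1)
    (hk : 1 ≤ k) (hkK : k ≤ K) (hd : ((k : ℤ) * s) ∣ (r : ℤ) - t) (hj : 1 ≤ j)
    (hj0 : (r : ℤ) * u * k ≤ j * (t * u + V)) (hj1 : (j : ℤ) * (t * u - V) ≤ (r * u - U1) * k)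
    (hx0 : 2 * (U1 : ℤ) * k + V < t * u) (hx1 : (t : ℤ) * u + V ≤ k * X1)
    (hru : U1 < r * u) (hbig : 30 * K * (r * r * U1) ≤ V * U0)
    (Λ : ℝ) (hΛ : Λ ≤ Real.log (((r : ℝ) * r * u / (U0 + V)) /
      ((r : ℝ) * r * u / (U1 - V) + 2 * (j * s)))) :
    1.9 * V * Λ / s * (∑ k2 ∈ Finset.Icc 1 K, 1 / (k2 : ℝ)) * (1 / (j : ℝ)) ≤
      ((S2 s r V U0 U1 X1 K u k t j).card : ℝ) := by
  classical
  have hsR : (1 : ℝ) ≤ s := by exact_mod_cast hs
  have hjR : (1 : ℝ) ≤ j := by exact_mod_cast hj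
  have hle : ∑ k2 ∈ Finset.Icc 1 K, ((S1 s r V U0 U1 X1 K u k t j k2).card : ℝ) ≤
      ((S2 s r V U0 U1 X1 K u k t j).card : ℝ) := by
    apply sum_card_le
    · intro k2 _ x hx
      rw [S1, Finset.mem_filter] at hx
      rw [S2, Finset.mem_filter]
      obtain ⟨h1, h2, t2, h3⟩ := hx
      exact ⟨h1, h2, k2, t2, h3⟩
    · intro k2 _ k2' _ x hx hx'
      rw [S1, Finset.mem_filter] at hx hx'
      obtain ⟨_, _, t2, h3⟩ := hx
      obtain ⟨_, _, t2', h3'⟩ := hx'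
      exact (c2_uniq s r V U0 U1 K H hs hr hU0 u x j k2 t2 k2' t2' h3 h3').1
  refine le_trans ?_ hle
  rw [Finset.mul_sum, Finset.sum_mul]
  apply Finset.sum_le_sum
  intro k2 hk2
  rw [Finset.mem_Icc] at hk2
  have hk2R : (1 : ℝ) ≤ k2 := by exact_mod_cast hk2.1
  refine le_trans (le_of_eq ?_) (inner_k2 s r V U0 U1 X1 K H hs hr hV hU0 hVU u k t j k2 huU hk
    hkK hd hj hk2.1 hk2.2 hj0 hj1 hx0 hx1 hru hbig Λ hΛ)
  field_simp

/-- The sum of reciprocals of the admissible `j`. -/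
theorem j_sum (R T V U1 k : ℝ) (hR : 0 < R) (hV : 0 < V) (hk : 1 ≤ k) (hU1 : 0 ≤ U1)
    (h1 : 100 * V ≤ T) (h2 : 100 * U1 * T ≤ R * V) (h3 : 100 * (T * T) ≤ V * R * k) :
    1.9 * V / T ≤ ∑ j ∈ Finset.Icc ⌈R * k / (T + V)⌉₊ ⌊(R - U1) * k / (T - V)⌋₊, 1 / (j : ℝ) := by
  have hT : 0 < T := by linarith
  have hTV : 0 < T - V := by linarith
  set δ := V / T with hδ
  have hVδ : V = δ * T := by rw [hδ, div_mul_cancel₀ _ hT.ne']
  have hδ0 : 0 < δ := by positivity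
  have hδ1 : δ ≤ 0.01 := by
    rw [hδ, div_le_iff₀ hT]
    linarith
  have hU1b : U1 ≤ 0.01 * δ * R := by
    have h4 : T * (100 * U1) ≤ T * (R * δ) := by
      calc T * (100 * U1) = 100 * U1 * T := by ring
        _ ≤ R * V := h2
        _ = T * (R * δ) := by rw [hVδ]; ring
    have h5 := le_of_mul_le_mul_left h4 hT
    linarith
  have hU1c : U1 ≤ 0.0001 * R := by
    have : 0.01 * δ * R ≤ 0.0001 * R := mul_le_mul_of_nonneg_right (by linarith) hR.le
    linarith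
  have hTb : 100 * T ≤ δ * R * k := by
    have h4 : T * (100 * T) ≤ T * (δ * R * k) := by
      calc T * (100 * T) = 100 * (T * T) := by ring
        _ ≤ V * R * k := h3
        _ = T * (δ * R * k) := by rw [hVδ]; ring
    exact le_of_mul_le_mul_left h4 hT
  have hRU : 0.9999 * R ≤ R - U1 := by linarith
  have hRU0 : 0 < R - U1 := by linarith
  set j0 := ⌈R * k / (T + V)⌉₊ with hj0
  set j1 := ⌊(R - U1) * k / (T - V)⌋₊ with hj1
  have c0 : (j0 : ℝ) < R * k / (T + V) + 1 := Nat.ceil_lt_add_one (by positivity)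
  have c1 : (R - U1) * k / (T - V) < j1 + 1 := Nat.lt_floor_add_one _
  have hc : (R - U1) * k / (T - V) - R * k / (T + V) - 1 ≤
      ((Finset.Icc j0 j1).card : ℝ) := by
    rw [Nat.card_Icc]
    have h5 : ((j1 : ℝ) + 1) - j0 ≤ ((j1 + 1 - j0 : ℕ) : ℝ) := by
      rcases le_total j0 (j1 + 1) with h | h
      · rw [Nat.cast_sub h]
        push_cast
        exact le_rfl
      · have h6 : ((j1 + 1 : ℕ) : ℝ) ≤ j0 := by exact_mod_cast h
        push_cast at h6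
        have h7 : (0 : ℝ) ≤ ((j1 + 1 - j0 : ℕ) : ℝ) := Nat.cast_nonneg _
        linarith
    linarith
  have hterm : ∀ j ∈ Finset.Icc j0 j1, (T - V) / ((R - U1) * k) ≤ 1 / (j : ℝ) := by
    intro j hj
    rw [Finset.mem_Icc] at hj
    have hjp : (0 : ℝ) < j := by
      have h4 : R * k / (T + V) ≤ j := (Nat.le_ceil _).trans (by exact_mod_cast hj.1)
      have h5 : 0 < R * k / (T + V) := by positivity
      linarith
    have h4 : (j : ℝ) ≤ (R - U1) * k / (T - V) := by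
      refine le_trans ?_ (Nat.floor_le (by positivity))
      exact_mod_cast hj.2
    rw [le_div_iff₀ hTV] at h4
    rw [div_le_div_iff₀ (by positivity) hjp]
    linarith
  have hsum := Finset.card_nsmul_le_sum _ _ _ hterm
  rw [nsmul_eq_mul] at hsum
  refine le_trans ?_ hsum
  have hq0 : 0 < (T - V) / ((R - U1) * k) := by positivity
  refine le_trans ?_ (mul_le_mul_of_nonneg_right hc hq0.le)
  have e1 : R / (R - U1) ≤ 1 + 0.011 * δ := by
    rw [div_le_iff₀ hRU0]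
    have h5 : (1 + 0.011 * δ) * U1 ≤ (1 + 0.011 * 0.01) * (0.01 * δ * R) :=
      mul_le_mul (by linarith) hU1b hU1 (by norm_num)
    have h6 : 0 < δ * R := by positivity
    nlinarith
  have e2 : (T - V) / (T + V) ≤ 1 - 1.98 * δ := by
    rw [div_le_iff₀ (by linarith), hVδ]
    have h5 : 0 ≤ T * (δ * (0.02 - 1.98 * δ)) := by
      apply mul_nonneg hT.le
      apply mul_nonneg hδ0.le
      linarith
    nlinarith
  have e3 : (T - V) / ((R - U1) * k) ≤ 0.011 * δ := by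
    rw [div_le_iff₀ (by positivity)]
    have h5 : 0.011 * δ * (0.9999 * R * k) ≤ 0.011 * δ * ((R - U1) * k) := by
      apply mul_le_mul_of_nonneg_left _ (by positivity)
      exact mul_le_mul_of_nonneg_right hRU (by linarith)
    have h6 : 0.011 * δ * (0.9999 * R * k) = 0.011 * 0.9999 * (δ * R * k) := by ring
    nlinarith
  have e4 : ((R - U1) * k / (T - V) - R * k / (T + V) - 1) * ((T - V) / ((R - U1) * k)) =
      1 - R / (R - U1) * ((T - V) / (T + V)) - (T - V) / ((R - U1) * k) := by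
    have hk0 : k ≠ 0 := by linarith
    have ha : R - U1 ≠ 0 := hRU0.ne'
    have hb : T - V ≠ 0 := hTV.ne'
    have hc' : T + V ≠ 0 := by linarith
    field_simp
  rw [e4]
  have e5 : R / (R - U1) * ((T - V) / (T + V)) ≤ (1 + 0.011 * δ) * (1 - 1.98 * δ) :=
    mul_le_mul e1 e2 (by positivity) (by linarith)
  have e6 : 1.9 * V / T = 1.9 * δ := by rw [hδ]; ring
  rw [e6]
  nlinarith [mul_pos hδ0 hδ0]

/-- The count for given first step data. -/
theorem inner_all (s r V U0 U1 X1 K : ℕ) (H : NoC s r K) (hs : 1 ≤ s) (hr : 1 ≤ r) (hV : 1 ≤ V)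
    (hU0 : 2 * V * K ≤ U0) (hVU : 50 * V ≤ U1) (u k t : ℕ) (hu0 : U0 < u) (huU : u ≤ U1)
    (hk : 1 ≤ k) (hkK : k ≤ K) (hd : ((k : ℤ) * s) ∣ (r : ℤ) - t)
    (hx0 : 2 * (U1 : ℤ) * k + V < t * u) (hx1 : (t : ℤ) * u + V ≤ k * X1)
    (hru : U1 < r * u) (hbig : 30 * K * (r * r * U1) ≤ V * U0)
    (hp1 : 100 * U1 * (K * X1) ≤ r * U0 * V) (hp2 : 100 * K * (X1 * X1) ≤ V * r * U0)
    (Λ : ℝ) (hΛ0 : 0 ≤ Λ) (hΛ : ∀ j : ℕ, 2 * j ≤ r → Λ ≤ Real.log (((r : ℝ) * r * u / (U0 + V)) /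
      ((r : ℝ) * r * u / (U1 - V) + 2 * (j * s)))) :
    3.61 * V ^ 2 * Λ / s * (∑ k2 ∈ Finset.Icc 1 K, 1 / (k2 : ℝ)) * (1 / ((t : ℝ) * u)) ≤
      ((S3 s r V U0 U1 X1 K u k t).card : ℝ) := by
  classical
  have hsR : (1 : ℝ) ≤ s := by exact_mod_cast hs
  have hrR : (1 : ℝ) ≤ r := by exact_mod_cast hr
  have hVR : (1 : ℝ) ≤ V := by exact_mod_cast hV
  have hkR : (1 : ℝ) ≤ k := by exact_mod_cast hk
  have hkKR : (k : ℝ) ≤ K := by exact_mod_cast hkK
  have hUV : 50 * (V : ℝ) ≤ U1 := by exact_mod_cast hVU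
  have hu0R : (U0 : ℝ) < u := by exact_mod_cast hu0
  have huUR : (u : ℝ) ≤ U1 := by exact_mod_cast huU
  have hruR : (U1 : ℝ) < r * u := by exact_mod_cast hru
  have hU0n : (0 : ℝ) ≤ U0 := Nat.cast_nonneg _
  have hX1n : (0 : ℝ) ≤ X1 := Nat.cast_nonneg _
  have hx0R : 2 * (U1 : ℝ) * k + V < t * u := by exact_mod_cast hx0
  have hx1R : (t : ℝ) * u + V ≤ k * X1 := by exact_mod_cast hx1
  have hp1R : 100 * (U1 : ℝ) * (K * X1) ≤ r * U0 * V := by exact_mod_cast hp1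
  have hp2R : 100 * (K : ℝ) * (X1 * X1) ≤ V * r * U0 := by exact_mod_cast hp2
  have hup : (0 : ℝ) < u := by linarith
  have hU1p : (0 : ℝ) < U1 := by linarith
  set T : ℝ := (t : ℝ) * u with hT
  set R : ℝ := (r : ℝ) * u with hR
  have hRp : 0 < R := by positivity
  have hT1 : T ≤ K * X1 := by
    have : (k : ℝ) * X1 ≤ K * X1 := mul_le_mul_of_nonneg_right hkKR hX1n
    linarith
  have h2U : 2 * (U1 : ℝ) ≤ 2 * U1 * k := by
    have := mul_le_mul_of_nonneg_left hkR (by positivity : (0 : ℝ) ≤ 2 * U1)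
    linarith
  have g1 : 100 * (V : ℝ) ≤ T := by linarith
  have g2 : 100 * (U1 : ℝ) * T ≤ R * V := by
    have h1 : 100 * (U1 : ℝ) * T ≤ 100 * U1 * (K * X1) :=
      mul_le_mul_of_nonneg_left hT1 (by positivity)
    have h2 : (r : ℝ) * U0 * V ≤ r * u * V := by
      apply mul_le_mul_of_nonneg_right _ (by linarith)
      exact mul_le_mul_of_nonneg_left hu0R.le (by linarith)
    linarith
  have g3 : 100 * (T * T) ≤ V * R * k := by
    have h1 : T * T ≤ (k * X1) * (K * X1) :=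
      mul_le_mul (by linarith) hT1 (by linarith) (by positivity)
    have h2 : (k : ℝ) * (100 * K * (X1 * X1)) ≤ k * (V * r * U0) :=
      mul_le_mul_of_nonneg_left hp2R (by linarith)
    have h3 : (V : ℝ) * r * U0 ≤ V * r * u := mul_le_mul_of_nonneg_left hu0R.le (by positivity)
    have h4 : (k : ℝ) * (V * r * U0) ≤ k * (V * r * u) :=
      mul_le_mul_of_nonneg_left h3 (by linarith)
    calc 100 * (T * T) ≤ 100 * ((k * X1) * (K * X1)) := by linarith
      _ = (k : ℝ) * (100 * K * (X1 * X1)) := by ring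
      _ ≤ k * (V * r * u) := h2.trans h4
      _ = V * R * k := by rw [hR]; ring
  have hjs := j_sum R T V U1 k hRp (by linarith) hkR hU1p.le g1 g2 g3
  set J := Finset.Icc ⌈R * k / (T + V)⌉₊ ⌊(R - U1) * k / (T - V)⌋₊ with hJ
  have hTV : 0 < T - V := by linarith
  have hTV' : 0 < T + V := by linarith
  have hRU : 0 < R - U1 := by linarith
  have hJf : ∀ j ∈ J, 1 ≤ j ∧ 2 * j ≤ r ∧ (r : ℤ) * u * k ≤ j * (t * u + V) ∧
      (j : ℤ) * (t * u - V) ≤ (r * u - U1) * k := by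
    intro j hj
    rw [hJ, Finset.mem_Icc] at hj
    have h1 : R * k / (T + V) ≤ j := Nat.ceil_le.1 hj.1
    have h2 : (j : ℝ) ≤ (R - U1) * k / (T - V) :=
      (Nat.le_floor_iff (by positivity)).1 hj.2
    have hjp : (0 : ℝ) < j := by
      have h5 : 0 < R * k / (T + V) := by positivity
      linarith
    rw [div_le_iff₀ hTV'] at h1
    rw [le_div_iff₀ hTV] at h2
    refine ⟨by exact_mod_cast hjp, ?_, ?_, ?_⟩
    · have h3 : (j : ℝ) * (2 * U1 * k) ≤ j * (T - V) :=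
        mul_le_mul_of_nonneg_left (by linarith) hjp.le
      have h4 : (R - U1) * k ≤ r * U1 * k := by
        apply mul_le_mul_of_nonneg_right _ (by linarith)
        have : R ≤ r * U1 := mul_le_mul_of_nonneg_left huUR (by linarith)
        linarith
      have h5 : (U1 * k) * (2 * (j : ℝ)) ≤ (U1 * k) * r := by nlinarith
      have h6 := le_of_mul_le_mul_left h5 (by positivity)
      exact_mod_cast h6
    · have h3 : (r : ℝ) * u * k ≤ j * (t * u + V) := h1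
      exact_mod_cast h3
    · have h3 : (j : ℝ) * (t * u - V) ≤ (r * u - U1) * k := h2
      exact_mod_cast h3
  have hle : ∑ j ∈ J, ((S2 s r V U0 U1 X1 K u k t j).card : ℝ) ≤
      ((S3 s r V U0 U1 X1 K u k t).card : ℝ) := by
    apply sum_card_le
    · intro j _ x hx
      rw [S2, Finset.mem_filter] at hx
      rw [S3, Finset.mem_filter]
      obtain ⟨h1, h2, k2, t2, h3⟩ := hx
      exact ⟨h1, h2, j, k2, t2, h3⟩
    · intro j _ j' _ x hx hx'
      rw [S2, Finset.mem_filter] at hx hx'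
      obtain ⟨_, h2, k2, t2, h3⟩ := hx
      obtain ⟨_, h2', k2', t2', h3'⟩ := hx'
      obtain ⟨a1, a2, a3, a4, a5, a6, a7⟩ := h3
      obtain ⟨b1, b2, b3, b4, b5, b6, b7⟩ := h3'
      have hz : (0 : ℤ) ≤ U0 := Int.natCast_nonneg _
      exact j_uniq r U1 u x j j' h2.2.2.2.1 (by omega) a5 (by omega) b5
  refine le_trans ?_ hle
  have hKs : 0 ≤ ∑ k2 ∈ Finset.Icc 1 K, 1 / (k2 : ℝ) :=
    Finset.sum_nonneg fun i _ => by positivity
  have hstep : ∑ j ∈ J, 1.9 * V * Λ / s * (∑ k2 ∈ Finset.Icc 1 K, 1 / (k2 : ℝ)) * (1 / (j : ℝ)) ≤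
      ∑ j ∈ J, ((S2 s r V U0 U1 X1 K u k t j).card : ℝ) := by
    apply Finset.sum_le_sum
    intro j hj
    obtain ⟨f1, f2, f3, f4⟩ := hJf j hj
    exact inner_j s r V U0 U1 X1 K H hs hr hV hU0 (by omega) u k t j huU hk hkK hd f1 f3 f4
      hx0 hx1 hru hbig Λ (hΛ j f2)
  refine le_trans ?_ hstep
  rw [← Finset.mul_sum]
  have h1 := mul_le_mul_of_nonneg_left hjs
    (by positivity : 0 ≤ 1.9 * V * Λ / s * (∑ k2 ∈ Finset.Icc 1 K, 1 / (k2 : ℝ)))
  refine le_trans (le_of_eq ?_) h1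
  have hTp : T ≠ 0 := by linarith
  have hs0 : (s : ℝ) ≠ 0 := by linarith
  field_simp
  ring

end Pool.Agent.H1102
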