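import Mathlib
import Pool.Agent.Lib.H1102.Outer

set_option autoImplicit false

namespace Pool.Agent.H1102

open Pool.Agent.H78.Farbman Pool.Agent.H73F

/-- The inner logarithm. -/
theorem lam_bound (s r w u j : ℝ) (hs : 1 ≤ s) (hr : 1 ≤ r) (hw : 100 ≤ w) (hwr : w ^ 10 ≤ r)
    (hsw : 33 * s ≤ w) (hu : 2 * (16 * r ^ 2 * w ^ 4) * w ^ 2 < u) (hj0 : 0 ≤ j)
    (hj : 2 * j ≤ r) :
    Real.log (w ^ 2 / 3) ≤ Real.log ((r * r * u / (2 * (16 * r ^ 2 * w ^ 4) * w ^ 2 +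
      16 * r ^ 2 * w ^ 4)) / (r * r * u / (16 * r ^ 2 * w ^ 4 * w ^ 4 - 16 * r ^ 2 * w ^ 4) +
        2 * (j * s))) := by
  set V : ℝ := 16 * r ^ 2 * w ^ 4 with hV
  have hw0 : 0 < w := by linarith
  have hr0 : 0 < r := by linarith
  have hVp : 0 < V := by positivity
  have hw2 : 10000 ≤ w ^ 2 := by nlinarith
  have hw4 : 100000000 ≤ w ^ 4 := by
    have : w ^ 4 = w ^ 2 * w ^ 2 := by ring
    rw [this]
    nlinarith
  set y : ℝ := r * r * u / V with hy
  have hup : 0 < u := by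
    have : 0 < 2 * V * w ^ 2 := by positivity
    linarith
  have hy1 : 2 * w ^ 2 * r ^ 2 ≤ y := by
    rw [hy, le_div_iff₀ hVp]
    have := mul_le_mul_of_nonneg_left hu.le (by positivity : 0 ≤ r * r)
    nlinarith
  have hyp : 0 < y := by positivity
  have e1 : r * r * u / (2 * V * w ^ 2 + V) = y / (2 * w ^ 2 + 1) := by
    rw [hy]
    field_simp
  have hw41 : 0 < w ^ 4 - 1 := by linarith
  have e2 : r * r * u / (V * w ^ 4 - V) = y / (w ^ 4 - 1) := by
    rw [hy, div_div]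
    congr 1
    ring
  rw [e1, e2]
  apply Real.log_le_log (by positivity)
  have hden : 0 < y / (w ^ 4 - 1) + 2 * (j * s) := by positivity
  rw [le_div_iff₀ hden]
  have h1 : y / (w ^ 4 - 1) ≤ 1.001 * y / w ^ 4 := by
    rw [div_le_div_iff₀ hw41 (by positivity)]
    nlinarith
  have h2 : 0.4999 * y / w ^ 2 ≤ y / (2 * w ^ 2 + 1) := by
    rw [div_le_div_iff₀ (by positivity) (by positivity)]
    nlinarith
  have h3 : 2 * (j * s) ≤ r ^ 2 / (100 * w ^ 2) := by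
    rw [le_div_iff₀ (by positivity)]
    have h4 : 2 * j * s ≤ r * (w / 33) := mul_le_mul hj (by linarith) (by linarith) hr0.le
    have h5 : r * (w / 33) * (100 * w ^ 2) ≤ r * r := by
      have h6 : w / 33 * (100 * w ^ 2) ≤ w ^ 10 := by
        have h7 : w ^ 10 = w ^ 3 * (w ^ 4 * w ^ 3) := by ring
        have h8 : (1 : ℝ) ≤ w ^ 3 := one_le_pow₀ (by linarith)
        have h9 : w / 33 * (100 * w ^ 2) = w ^ 3 * (100 / 33) := by ring
        rw [h7, h9]
        apply mul_le_mul_of_nonneg_left _ (by positivity)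
        nlinarith
      have h7 := mul_le_mul_of_nonneg_left (h6.trans hwr) hr0.le
      linarith
    have h6 := mul_le_mul_of_nonneg_right h4 (by positivity : 0 ≤ 100 * w ^ 2)
    nlinarith
  have h4 : w ^ 2 / 3 * (y / (w ^ 4 - 1) + 2 * (j * s)) ≤
      w ^ 2 / 3 * (1.001 * y / w ^ 4 + r ^ 2 / (100 * w ^ 2)) :=
    mul_le_mul_of_nonneg_left (add_le_add h1 h3) (by positivity)
  refine h4.trans (le_trans ?_ h2)
  have e3 : w ^ 2 / 3 * (1.001 * y / w ^ 4 + r ^ 2 / (100 * w ^ 2)) =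
      (1.001 / 3 * y + r ^ 2 * w ^ 2 / 300) / w ^ 2 := by
    field_simp
    ring
  rw [e3]
  apply div_le_div_of_nonneg_right _ (by positivity)
  nlinarith

/-- The outer logarithm. -/
theorem om_bound (s w V u : ℝ) (hs : 1 ≤ s) (hw : 100 ≤ w) (hV : 0 < V)
    (hu0 : 0 ≤ u) (hu : u ≤ V * w ^ 4) :
    Real.log (w / (33 * s)) ≤ Real.log ((V * w ^ 5 / 8 - V) / (2 * (V * w ^ 4) + 2 * V +
      2 * (s * u))) := by
  have hw0 : 0 < w := by linarith
  apply Real.log_le_log (by positivity)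
  have hden : 0 < 2 * (V * w ^ 4) + 2 * V + 2 * (s * u) := by positivity
  rw [div_le_div_iff₀ (by positivity) hden]
  have hw4 : 100000000 ≤ w ^ 4 := by
    have h2 : 10000 ≤ w ^ 2 := by nlinarith
    have : w ^ 4 = w ^ 2 * w ^ 2 := by ring
    rw [this]
    nlinarith
  have h1 : 2 * (V * w ^ 4) + 2 * V + 2 * (s * u) ≤ V * (4.001 * s * w ^ 4) := by
    have h2 : s * u ≤ s * (V * w ^ 4) := mul_le_mul_of_nonneg_left hu (by linarith)
    have h3 : V * w ^ 4 ≤ s * (V * w ^ 4) := by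
      have := mul_le_mul_of_nonneg_right hs (by positivity : 0 ≤ V * w ^ 4)
      linarith
    have h4 : 2 * V ≤ 0.001 * (s * (V * w ^ 4)) := by
      have h5 : V * 100000000 ≤ V * w ^ 4 := mul_le_mul_of_nonneg_left hw4 hV.le
      linarith
    nlinarith
  have h2 : w * (2 * (V * w ^ 4) + 2 * V + 2 * (s * u)) ≤ w * (V * (4.001 * s * w ^ 4)) :=
    mul_le_mul_of_nonneg_left h1 hw0.le
  refine h2.trans ?_
  have e1 : w * (V * (4.001 * s * w ^ 4)) = (V * s) * (4.001 * w ^ 5) := by ring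
  have e2 : (V * w ^ 5 / 8 - V) * (33 * s) = (V * s) * (33 / 8 * w ^ 5 - 33) := by ring
  rw [e1, e2]
  apply mul_le_mul_of_nonneg_left _ (by positivity)
  have h3 : w ^ 5 = w ^ 4 * w := by ring
  rw [h3]
  nlinarith

/-- The inequality between the logarithms for a rational number which is not a relation number. -/
theorem main_ineq (s r w : ℕ) (hs : 1 ≤ s) (hq : ¬ IsRelationNumber ((s : ℚ) / (r : ℚ)))
    (hw : 100 ≤ w) (hwr : w ^ 10 ≤ r) (hsw : 33 * s ≤ w) :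
    7 * Real.log w ^ 2 * Real.log ((w : ℝ) ^ 2 / 3) ^ 2 * Real.log ((w : ℝ) / (33 * s)) ≤
      (s : ℝ) ^ 3 := by
  have hr : 1 ≤ r := le_trans (Nat.one_le_pow _ _ (by omega)) hwr
  have hsR : (1 : ℝ) ≤ s := by exact_mod_cast hs
  have hrR : (1 : ℝ) ≤ r := by exact_mod_cast hr
  have hwR : (100 : ℝ) ≤ w := by exact_mod_cast hw
  have hwrR : (w : ℝ) ^ 10 ≤ r := by exact_mod_cast hwr
  have hswR : 33 * (s : ℝ) ≤ w := by exact_mod_cast hsw
  have hw0 : 0 < w := by omega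
  set V : ℕ := 16 * r ^ 2 * w ^ 4 with hV
  set X1 : ℕ := 2 * r ^ 2 * w ^ 9 with hX1
  have hVp : 1 ≤ V := Nat.one_le_iff_ne_zero.2 (by positivity)
  have pw : ∀ a b : ℕ, a ≤ b → w ^ a ≤ w ^ b := fun a b h => Nat.pow_le_pow_right hw0 h
  have hw2 : 10000 ≤ w ^ 2 := by nlinarith
  have hw4 : 50 ≤ w ^ 4 := by
    have := pw 2 4 (by norm_num)
    omega
  have hVR : (V : ℝ) = 16 * (r : ℝ) ^ 2 * (w : ℝ) ^ 4 := by
    rw [hV]
    push_cast
    ring
  have hX1R : (X1 : ℝ) = V * (w : ℝ) ^ 5 / 8 := by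
    rw [hVR, hX1]
    push_cast
    ring
  have hw9 : 100 * w ^ 9 ≤ r := by
    have : w ^ 10 = w * w ^ 9 := by ring
    nlinarith [Nat.mul_le_mul_right (w ^ 9) hw]
  have hΛ0 : 0 ≤ Real.log ((w : ℝ) ^ 2 / 3) := by
    apply Real.log_nonneg
    rw [le_div_iff₀ (by norm_num)]
    nlinarith
  have hΩ0 : 0 ≤ Real.log ((w : ℝ) / (33 * s)) := by
    apply Real.log_nonneg
    rw [le_div_iff₀ (by positivity)]
    linarith
  have key := main_count s r V (2 * V * w ^ 2) (V * w ^ 4) X1 (w ^ 2) hs hr hq hVp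
    (Nat.one_le_pow _ _ hw0) le_rfl (by nlinarith) (by
      have h1 : 2 * V * w ^ 2 * 1 ≤ V * w ^ 4 := by
        have e : V * w ^ 4 = V * w ^ 2 * w ^ 2 := by ring
        rw [e]
        nlinarith [Nat.zero_le (V * w ^ 2)]
      omega) (by
      have h1 : w ^ 4 < r * (2 * w ^ 2) := by
        have e : w ^ 4 = w ^ 2 * w ^ 2 := by ring
        have h2 : w ^ 2 ≤ r := (pw 2 10 (by norm_num)).trans hwr
        nlinarith
      have h2 := Nat.mul_lt_mul_of_pos_left h1 hVp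
      have e : r * (2 * V * w ^ 2) = V * (r * (2 * w ^ 2)) := by ring
      rw [e]
      exact h2) (by
      have e1 : 30 * w ^ 2 * (r * r * (V * w ^ 4)) = V * (30 * r ^ 2 * w ^ 6) := by ring
      have e2 : V * (2 * V * w ^ 2) = V * (32 * r ^ 2 * w ^ 6) := by
        rw [hV]
        ring
      rw [e1, e2]
      apply Nat.mul_le_mul_left
      nlinarith [Nat.zero_le (r ^ 2 * w ^ 6)]) (by
      have e1 : X1 = (2 * r ^ 2 * w ^ 4) * w ^ 5 := by
        rw [hX1]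
        ring
      have e2 : V = (2 * r ^ 2 * w ^ 4) * 8 := by
        rw [hV]
        ring
      rw [e1, e2]
      apply Nat.mul_lt_mul_of_pos_left _ (by positivity)
      have := pw 2 5 (by norm_num)
      omega) (by
      have e1 : 100 * (V * w ^ 4) * (w ^ 2 * X1) = (200 * V * r ^ 2 * w ^ 6) * w ^ 9 := by
        rw [hX1]
        ring
      have e2 : r * (2 * V * w ^ 2) * V = (200 * V * r ^ 2 * w ^ 6) * r * 32 / 200 := by
        have e3 : (200 * V * r ^ 2 * w ^ 6) * r * 32 = (r * (2 * V * w ^ 2) * V) * 200 := by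
          rw [hV]
          ring
        rw [e3, Nat.mul_div_cancel _ (by norm_num)]
      rw [e1, e2, Nat.le_div_iff_mul_le (by norm_num)]
      have h1 := Nat.mul_le_mul_left (200 * V * r ^ 2 * w ^ 6) hw9
      have h2 := Nat.zero_le (200 * V * r ^ 2 * w ^ 6 * r)
      linarith) (by
      have e1 : 100 * w ^ 2 * (X1 * X1) = (400 * r ^ 4 * w ^ 10) * w ^ 10 := by
        rw [hX1]
        ring
      have e2 : V * r * (2 * V * w ^ 2) = (512 * r ^ 4 * w ^ 10) * r := by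
        rw [hV]
        ring
      rw [e1, e2]
      exact Nat.mul_le_mul (by nlinarith [Nat.zero_le (r ^ 4 * w ^ 10)]) hwr) (by
      have e1 : w ^ 2 * X1 = (2 * r ^ 2 * w ^ 2) * w ^ 9 := by
        rw [hX1]
        ring
      have e2 : V = (2 * r ^ 2 * w ^ 2) * (8 * w ^ 2) := by
        rw [hV]
        ring
      have e3 : r * (2 * V * w ^ 2) = (2 * r ^ 2 * w ^ 2) * (16 * w ^ 4 * r) := by
        rw [hV]
        ring
      have e4 : w ^ 2 * X1 + V = (2 * r ^ 2 * w ^ 2) * (w ^ 9 + 8 * w ^ 2) := by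
        rw [mul_add, ← e2, ← e1]
      rw [e3, e4]
      apply Nat.mul_lt_mul_of_pos_left _ (by positivity)
      have h1 : w ^ 2 ≤ w ^ 4 := pw 2 4 (by norm_num)
      have h2 : w ^ 9 ≤ r := by omega
      have h3 : 1 ≤ r := hr
      nlinarith)
    (Real.log ((w : ℝ) ^ 2 / 3)) hΛ0 (by
      intro u hu1 _ j hj
      have hu1R : 2 * (16 * (r : ℝ) ^ 2 * (w : ℝ) ^ 4) * (w : ℝ) ^ 2 < u := by
        rw [← hVR]
        exact_mod_cast hu1
      have h := lam_bound s r w u j hsR hrR hwR hwrR hswR hu1R (Nat.cast_nonneg _)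
        (by exact_mod_cast hj)
      rw [← hVR] at h
      push_cast
      exact h)
    (Real.log ((w : ℝ) / (33 * s))) hΩ0 (by
      intro u hu
      have huR : (u : ℝ) ≤ V * (w : ℝ) ^ 4 := by exact_mod_cast hu
      have h := om_bound s w V u hsR hwR (by exact_mod_cast hVp) (Nat.cast_nonneg _) huR
      rw [hX1R]
      push_cast
      exact h)
  set Λ := Real.log ((w : ℝ) ^ 2 / 3) with hΛ
  set Ω := Real.log ((w : ℝ) / (33 * s)) with hΩ
  set B := ∑ k ∈ Finset.Icc 1 (w ^ 2), 1 / (k : ℝ) with hB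
  have hVpR : (1 : ℝ) ≤ V := by exact_mod_cast hVp
  have hlw : 0 < Real.log w := Real.log_pos (by linarith)
  have hBl : 2 * Real.log w ≤ B := by
    have h1 := harm_tel 1 0 one_pos le_rfl 0 (w ^ 2) (Nat.zero_le _)
    simp only [one_mul, add_zero, div_one, Nat.cast_zero, zero_add, Real.log_one, sub_zero] at h1
    have h2 : Finset.Icc 1 (w ^ 2) = Finset.Ico (0 + 1) (w ^ 2 + 1) := by
      ext z
      rw [Finset.mem_Icc, Finset.mem_Ico]
      omega
    rw [hB, h2, ← Finset.sum_Ico_add' (fun i : ℕ => 1 / (i : ℝ)) 0 (w ^ 2) 1]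
    have h3 : ∑ x ∈ Finset.Ico 0 (w ^ 2), 1 / (((x + 1 : ℕ)) : ℝ) =
        ∑ m ∈ Finset.Ico 0 (w ^ 2), 1 / ((m : ℝ) + 1) := by
      apply Finset.sum_congr rfl
      intro z _
      push_cast
      rfl
    rw [h3]
    refine le_trans ?_ h1
    rw [show 2 * Real.log w = Real.log ((w : ℝ) ^ 2) by rw [Real.log_pow]; norm_num]
    apply Real.log_le_log (by positivity)
    push_cast
    linarith
  have hlast : Λ ≤ Real.log ((((V * w ^ 4 : ℕ) : ℝ) + 1) / (((2 * V * w ^ 2 : ℕ) : ℝ) + 1)) := by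
    rw [hΛ]
    apply Real.log_le_log (by positivity)
    rw [le_div_iff₀ (by positivity)]
    push_cast
    have h1 : (0 : ℝ) ≤ (V : ℝ) * (w : ℝ) ^ 4 := by positivity
    have h2 : (w : ℝ) ^ 2 ≤ V * (w : ℝ) ^ 4 := by
      have h3 : (1 : ℝ) * (w : ℝ) ^ 2 ≤ V * (w : ℝ) ^ 4 :=
        mul_le_mul hVpR (pow_le_pow_right₀ (by linarith) (by norm_num)) (by positivity)
          (by linarith)
      linarith
    have e : (w : ℝ) ^ 2 / 3 * (2 * V * (w : ℝ) ^ 2 + 1) =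
        2 / 3 * (V * (w : ℝ) ^ 4) + (w : ℝ) ^ 2 / 3 := by ring
    rw [e]
    linarith
  have hB2 : 4 * Real.log w ^ 2 ≤ B ^ 2 := by
    have := pow_le_pow_left₀ (by linarith) hBl 2
    nlinarith
  have k1 : 3.61 * (V : ℝ) ^ 2 * Λ * Ω / s ^ 2 * (4 * Real.log w ^ 2) * Λ ≤
      2 * (s * (V * (V + 1))) := by
    refine le_trans ?_ key
    have h1 : 0 ≤ 3.61 * (V : ℝ) ^ 2 * Λ * Ω / s ^ 2 := by positivity
    exact mul_le_mul (mul_le_mul_of_nonneg_left hB2 h1) hlast hΛ0 (by positivity)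
  have hV100 : (100 : ℝ) ≤ V := by
    have h1 : 100 ≤ V := by
      rw [hV]
      have h2 : 1 * 50 ≤ r ^ 2 * w ^ 4 := Nat.mul_le_mul (Nat.one_le_pow _ _ hr) hw4
      nlinarith
    exact_mod_cast h1
  have hsp : (0 : ℝ) < s := by linarith
  have hVpos : (0 : ℝ) < V := by linarith
  have k2 : (V : ℝ) ^ 2 / s ^ 2 * (14.44 * Real.log w ^ 2 * Λ ^ 2 * Ω) ≤
      (V : ℝ) ^ 2 / s ^ 2 * (2.02 * (s : ℝ) ^ 3) := by
    have e1 : (V : ℝ) ^ 2 / s ^ 2 * (14.44 * Real.log w ^ 2 * Λ ^ 2 * Ω) =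
        3.61 * (V : ℝ) ^ 2 * Λ * Ω / s ^ 2 * (4 * Real.log w ^ 2) * Λ := by
      field_simp
      ring
    have e2 : (V : ℝ) ^ 2 / s ^ 2 * (2.02 * (s : ℝ) ^ 3) = 2.02 * s * V ^ 2 := by
      field_simp
    rw [e1, e2]
    refine k1.trans ?_
    have h1 : (V : ℝ) * (V + 1) ≤ 1.01 * V ^ 2 := by nlinarith
    have h2 := mul_le_mul_of_nonneg_left h1 (by linarith : (0 : ℝ) ≤ 2 * s)
    nlinarith
  have k3 := le_of_mul_le_mul_left k2 (by positivity)
  have k4 : 0 ≤ Real.log w ^ 2 * Λ ^ 2 * Ω := by positivity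
  nlinarith

end Pool.Agent.H1102
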