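import Mathlib
import Pool.Agent.Lib.H1102.Params
import Pool.Agent.Lib.H73F.J3

set_option autoImplicit false

namespace Pool.Agent.H1102

open Pool.Agent.H78.Farbman Pool.Agent.H73F

/-- Large numerators. -/
theorem large_s (s r : ℕ) (hs : 10000 < s)
    (h : Real.exp (11 / 2 * (s : ℝ) ^ (3 / 5 : ℝ)) ≤ (r : ℝ)) :
    IsRelationNumber ((s : ℚ) / (r : ℚ)) := by
  by_contra hq
  have hsR : (10000 : ℝ) < s := by exact_mod_cast hs
  have hsp : (0 : ℝ) < s := by linarith
  set x : ℝ := (s : ℝ) ^ (3 / 5 : ℝ) with hx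
  have hx5 : x ^ 5 = (s : ℝ) ^ 3 := by
    rw [hx, ← Real.rpow_natCast, ← Real.rpow_mul hsp.le]
    norm_num
  have hxp : 0 < x := by rw [hx]; positivity
  have hx251 : 251 ≤ x := by
    by_contra hcon
    rw [not_le] at hcon
    have h1 : x ^ 5 < 251 ^ 5 := pow_lt_pow_left₀ hcon hxp.le (by norm_num)
    have h2 : (10000 : ℝ) ^ 3 < (s : ℝ) ^ 3 := pow_lt_pow_left₀ hsR (by norm_num) (by norm_num)
    rw [hx5] at h1
    norm_num at h1 h2
    linarith
  -- the logarithm of `s`
  have hls : Real.log s = 5 / 3 * Real.log x := by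
    rw [hx, Real.log_rpow hsp]
    ring
  have hl251 : Real.log 251 ≤ 5.55 := by
    have h1 : Real.log 251 = 8 * Real.log 2 + Real.log (251 / 256) := by
      rw [show (8 : ℝ) * Real.log 2 = Real.log (2 ^ 8) by rw [Real.log_pow]; norm_num,
        ← Real.log_mul (by norm_num) (by norm_num)]
      norm_num
    have h2 : Real.log (251 / 256) ≤ 0 := Real.log_nonpos (by norm_num) (by norm_num)
    have h3 := Real.log_two_lt_d9
    linarith
  have hlx : Real.log x ≤ 4.55 + x / 251 := by
    have h1 : Real.log x = Real.log 251 + Real.log (x / 251) := by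
      rw [← Real.log_mul (by norm_num) (by positivity)]
      congr 1
      field_simp
    have h2 := Real.log_le_sub_one_of_pos (by positivity : 0 < x / 251)
    linarith
  have hl33 : Real.log 33 ≤ 3.6 := by
    have h1 : Real.log 33 = 5 * Real.log 2 + Real.log (33 / 32) := by
      rw [show (5 : ℝ) * Real.log 2 = Real.log (2 ^ 5) by rw [Real.log_pow]; norm_num,
        ← Real.log_mul (by norm_num) (by norm_num)]
      norm_num
    have h2 := Real.log_le_sub_one_of_pos (by norm_num : (0 : ℝ) < 33 / 32)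
    have h3 := Real.log_two_lt_d9
    linarith
  have hl3 : Real.log 3 ≤ 1.2 := by
    have h1 : Real.log 3 = 2 * Real.log 2 + Real.log (3 / 4) := by
      rw [show (2 : ℝ) * Real.log 2 = Real.log (2 ^ 2) by rw [Real.log_pow]; norm_num,
        ← Real.log_mul (by norm_num) (by norm_num)]
      norm_num
    have h2 := Real.log_le_sub_one_of_pos (by norm_num : (0 : ℝ) < 3 / 4)
    have h3 := Real.log_two_lt_d9
    linarith
  -- the parameter `w`
  set e : ℝ := Real.exp (11 / 20 * x) with he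
  set w : ℕ := ⌊e⌋₊ with hw
  have he0 : 0 < e := Real.exp_pos _
  have hebig : 1000 ≤ e := by
    have h1 : 11 / 20 * x + 1 ≤ e := Real.add_one_le_exp _
    have h2 : Real.exp (11 / 20 * x) = Real.exp (11 / 40 * x) * Real.exp (11 / 40 * x) := by
      rw [← Real.exp_add]
      congr 1
      ring
    have h3 : 11 / 40 * x + 1 ≤ Real.exp (11 / 40 * x) := Real.add_one_le_exp _
    have h4 : 70 ≤ Real.exp (11 / 40 * x) := by linarith
    rw [he, h2]
    nlinarith
  have hwle : (w : ℝ) ≤ e := Nat.floor_le he0.le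
  have hwge : 0.999 * e ≤ w := by
    have h1 := Nat.lt_floor_add_one e
    rw [← hw] at h1
    linarith
  have hwp : (0 : ℝ) < w := by nlinarith
  have hwr : w ^ 10 ≤ r := by
    have h1 : (w : ℝ) ^ 10 ≤ r := by
      have h2 : (w : ℝ) ^ 10 ≤ e ^ 10 := pow_le_pow_left₀ hwp.le hwle 10
      have h3 : e ^ 10 = Real.exp (11 / 2 * x) := by
        rw [he, ← Real.exp_nat_mul]
        congr 1
        push_cast
        ring
      rw [h3] at h2
      exact h2.trans h
    exact_mod_cast h1
  have hlw : 11 / 20 * x - 0.01 ≤ Real.log w := by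
    have h1 : Real.log (0.999 * e) ≤ Real.log w := Real.log_le_log (by positivity) hwge
    rw [Real.log_mul (by norm_num) he0.ne', he, Real.log_exp] at h1
    have h2 : -0.01 ≤ Real.log 0.999 := by
      have h3 := Real.one_sub_inv_le_log_of_pos (by norm_num : (0 : ℝ) < 0.999)
      norm_num at h3 ⊢
      linarith
    linarith
  have hΩ : 0.498 * x ≤ Real.log ((w : ℝ) / (33 * s)) := by
    rw [Real.log_div hwp.ne' (by positivity), Real.log_mul (by norm_num) hsp.ne', hls]
    linarith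
  have hsw : 33 * s ≤ w := by
    have h1 : 0 < Real.log ((w : ℝ) / (33 * s)) := by
      have : 0 < 0.498 * x := by positivity
      linarith
    have h2 : 1 < (w : ℝ) / (33 * s) := by
      by_contra hcon
      rw [not_lt] at hcon
      have := Real.log_nonpos (by positivity) hcon
      linarith
    rw [lt_div_iff₀ (by positivity)] at h2
    have h3 : 33 * (s : ℝ) ≤ w := by linarith
    exact_mod_cast h3
  have hw100 : 100 ≤ w := by
    have h1 : (100 : ℝ) ≤ w := by linarith
    exact_mod_cast h1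
  have hΛ : 1.094 * x ≤ Real.log ((w : ℝ) ^ 2 / 3) := by
    rw [Real.log_div (by positivity) (by norm_num), Real.log_pow]
    push_cast
    linarith
  have hl : 0.5499 * x ≤ Real.log w := by linarith
  have key := main_ineq s r w (by omega) hq hw100 hwr hsw
  have h1 : (0.5499 * x) ^ 2 ≤ Real.log w ^ 2 := pow_le_pow_left₀ (by positivity) hl 2
  have h2 : (1.094 * x) ^ 2 ≤ Real.log ((w : ℝ) ^ 2 / 3) ^ 2 :=
    pow_le_pow_left₀ (by positivity) hΛ 2
  have h3 : (0.5499 * x) ^ 2 * (1.094 * x) ^ 2 * (0.498 * x) ≤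
      Real.log w ^ 2 * Real.log ((w : ℝ) ^ 2 / 3) ^ 2 * Real.log ((w : ℝ) / (33 * s)) :=
    mul_le_mul (mul_le_mul h1 h2 (by positivity) (by positivity)) hΩ (by positivity)
      (by positivity)
  have h4 : (0.5499 * x) ^ 2 * (1.094 * x) ^ 2 * (0.498 * x) =
      0.5499 ^ 2 * 1.094 ^ 2 * 0.498 * x ^ 5 := by ring
  rw [h4, hx5] at h3
  have h5 : (0 : ℝ) < (s : ℝ) ^ 3 := by positivity
  norm_num at h3
  nlinarith

/-- The comparison of the two thresholds for small numerators. -/
theorem small_s (s : ℕ) (hs1 : 1 ≤ s) (hs : s ≤ 10000) :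
    2 * Real.exp ((s : ℝ) / 8) ≤ Real.exp (11 / 2 * (s : ℝ) ^ (3 / 5 : ℝ)) := by
  have hsR : (1 : ℝ) ≤ s := by exact_mod_cast hs1
  have hsR' : (s : ℝ) ≤ 10000 := by exact_mod_cast hs
  have hsp : (0 : ℝ) < s := by linarith
  set x : ℝ := (s : ℝ) ^ (3 / 5 : ℝ) with hx
  set y : ℝ := (s : ℝ) ^ (2 / 5 : ℝ) with hy
  have hxy : x * y = s := by
    rw [hx, hy, ← Real.rpow_add hsp]
    norm_num
  have hx1 : 1 ≤ x := Real.one_le_rpow hsR (by norm_num)
  have hy0 : 0 < y := by rw [hy]; positivity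
  have hy40 : y ≤ 39.9 := by
    by_contra hcon
    rw [not_le] at hcon
    have h1 : (39.9 : ℝ) ^ 5 < y ^ 5 := pow_lt_pow_left₀ hcon (by norm_num) (by norm_num)
    have h2 : y ^ 5 = (s : ℝ) ^ 2 := by
      rw [hy, ← Real.rpow_natCast, ← Real.rpow_mul hsp.le]
      norm_num
    rw [h2] at h1
    have h3 : (s : ℝ) ^ 2 ≤ 10000 ^ 2 := pow_le_pow_left₀ hsp.le hsR' 2
    norm_num at h1 h3
    linarith
  have h2 : (2 : ℝ) = Real.exp (Real.log 2) := (Real.exp_log (by norm_num)).symm
  have h3 : 2 * Real.exp ((s : ℝ) / 8) = Real.exp (Real.log 2 + s / 8) := by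
    rw [Real.exp_add, ← h2]
  rw [h3, Real.exp_le_exp]
  have h4 := Real.log_two_lt_d9
  rcases le_or_gt 1.4 x with h5 | h5
  · have h6 : (s : ℝ) ≤ 39.9 * x := by
      rw [← hxy]
      nlinarith
    linarith
  · have h7 : s ≤ 2 := by
      by_contra hcon
      have h8 : (3 : ℝ) ≤ s := by
        have : 3 ≤ s := by omega
        exact_mod_cast this
      have h9 : x ^ 5 = (s : ℝ) ^ 3 := by
        rw [hx, ← Real.rpow_natCast, ← Real.rpow_mul hsp.le]
        norm_num
      have h10 : x ^ 5 < 1.4 ^ 5 := pow_lt_pow_left₀ h5 (by linarith) (by norm_num)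
      have h11 : (3 : ℝ) ^ 3 ≤ (s : ℝ) ^ 3 := pow_le_pow_left₀ (by norm_num) h8 3
      rw [h9] at h10
      norm_num at h10 h11
      linarith
    have h8 : (s : ℝ) ≤ 2 := by exact_mod_cast h7
    linarith

/-- Natural numerators. -/
theorem main_nat (s r : ℕ) (hs : 1 ≤ s)
    (h : Real.exp (11 / 2 * (s : ℝ) ^ (3 / 5 : ℝ)) ≤ (r : ℝ)) :
    IsRelationNumber ((s : ℚ) / (r : ℚ)) := by
  rcases le_or_gt s 10000 with h1 | h1
  · exact (h1_main s r hs ((small_s s hs h1).trans h)).1
  · exact large_s s r h1 h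

/-- The improved denominator threshold. -/
theorem fin_main (s : ℤ) (r : ℕ)
    (h : 2 * Real.exp (|(s : ℝ)| / 8) ≤ (r : ℝ) ∨
      Real.exp (11 / 2 * |(s : ℝ)| ^ (3 / 5 : ℝ)) ≤ (r : ℝ)) :
    IsRelationNumber ((s : ℚ) / (r : ℚ)) := by
  rcases h with h | h
  · exact large_den s r h
  · rcases eq_or_ne s 0 with h0 | h0
    · rw [h0, Int.cast_zero, zero_div]
      exact isRelationNumber_zero
    · have h1 : |(s : ℝ)| = ((s.natAbs : ℕ) : ℝ) := by
        rw [Nat.cast_natAbs, Int.cast_abs]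
      rw [h1] at h
      have h2 := main_nat s.natAbs r (Int.natAbs_pos.2 h0) h
      rcases le_or_gt 0 s with h3 | h3
      · have h4 : ((s.natAbs : ℕ) : ℚ) = (s : ℚ) := by
          rw [Nat.cast_natAbs, abs_of_nonneg h3]
        rw [h4] at h2
        exact h2
      · have h4 : ((s.natAbs : ℕ) : ℚ) = -(s : ℚ) := by
          rw [Nat.cast_natAbs, abs_of_neg h3, Int.cast_neg]
        rw [h4] at h2
        have h5 := h2.neg
        rw [neg_div, neg_neg] at h5
        exact h5

end Pool.Agent.H1102
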