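import Mathlib
import Pool.Agent.Lib.H1102.ChainUniq

set_option autoImplicit false

namespace Pool.Agent.H1102

open Pool.Agent.H78.Farbman Pool.Agent.H73F

/-- The counting inequality for paths through chains. -/
theorem kgen (s r V U X K i : ℕ) (hs : 1 ≤ s) (hr : 1 ≤ r) (hK : 1 ≤ K) (hi : 1 ≤ i)
    (hKr : K * (K + 1) < r) (hVU : V ≤ U)
    (hq : ¬ IsRelationNumber ((s : ℚ) / (r : ℚ))) (S : Finset (ℤ × ℤ))
    (hx : ∀ p ∈ S, 2 * (U : ℤ) < p.1 ∧ p.1 ≤ X)
    (hu : ∀ p ∈ S, (K : ℤ) * X + V < r * p.2)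
    (ha : ∀ p ∈ S, ∃ τ D T : ℕ, Good s r K i τ D ∧ ((D : ℤ) * s) ∣ (r : ℤ) * τ - T ∧
      (T : ℤ) * p.2 - D * p.1 ≠ 0 ∧ |(T : ℤ) * p.2 - D * p.1| ≤ V)
    (hb : ∀ p ∈ S, ∃ j τ D T : ℕ, Good s r K i τ D ∧ ((D : ℤ) * s) ∣ (r : ℤ) * τ - T ∧
      2 * (V : ℤ) * K < r * p.2 - j * p.1 ∧ r * p.2 - j * p.1 ≤ U ∧
      (T : ℤ) * (r * p.2 - j * p.1) - D * (r * p.1) ≠ 0 ∧
      |(T : ℤ) * (r * p.2 - j * p.1) - D * (r * p.1)| ≤ V) :
    S.card ≤ 2 * (s * (V * (V + 1))) := by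
  classical
  have hrQ : (1 : ℚ) ≤ r := by exact_mod_cast hr
  have hr0 : (r : ℚ) ≠ 0 := by linarith
  have hr2 : (2 : ℚ) ≤ r := by
    have h1 : 2 ≤ r := by nlinarith
    exact_mod_cast h1
  have hKQ : (1 : ℚ) ≤ K := by exact_mod_cast hK
  have hVn : (0 : ℚ) ≤ V := Nat.cast_nonneg _
  have hUn : (0 : ℚ) ≤ U := Nat.cast_nonneg _
  have hXn : (0 : ℚ) ≤ X := Nat.cast_nonneg _
  have hVUQ : (V : ℚ) ≤ U := by exact_mod_cast hVU
  set Hb : ℚ × ℚ → Prop := fun e => Hub V (r ^ (i - 1)) e ∨ Hub V (r ^ i) e with hHb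
  set S' : Finset (ℚ × ℚ) := S.image fun p : ℤ × ℤ => ((p.1 : ℚ), (r : ℚ) * p.2) with hS'
  have hc : S'.card = S.card := by
    rw [hS']
    apply Finset.card_image_of_injective
    intro a b hab
    simp only [Prod.mk.injEq] at hab
    obtain ⟨h1, h2⟩ := hab
    have h3 := mul_left_cancel₀ hr0 h2
    exact Prod.ext (by exact_mod_cast h1) (by exact_mod_cast h3)
  have hxQ : ∀ p ∈ S, 2 * (U : ℚ) < p.1 ∧ (p.1 : ℚ) ≤ X := by
    intro p hp
    obtain ⟨h1, h2⟩ := hx p hp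
    constructor
    · exact_mod_cast h1
    · exact_mod_cast h2
  have huQ : ∀ p ∈ S, (K : ℚ) * X + V < r * p.2 := by
    intro p hp
    exact_mod_cast hu p hp
  obtain ⟨H, h1, h2⟩ := forest ((s : ℚ) / r) ((K : ℚ) + 1) hq Hb S' (by
    intro p hp
    rw [hS', Finset.mem_image] at hp
    obtain ⟨p, hp, rfl⟩ := hp
    simp only
    linarith [(hxQ p hp).1]) (by
    intro p hp
    rw [hS', Finset.mem_image] at hp
    obtain ⟨p, hp, rfl⟩ := hp
    obtain ⟨τ, D, T, hg, ⟨n, hn⟩, h3, h4⟩ := ha p hp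
    obtain ⟨g1, g2, g3, g4⟩ := hg.facts
    have hτQ : (1 : ℚ) ≤ τ := by exact_mod_cast g1
    have hDQ : (D : ℚ) ≤ K := by exact_mod_cast g3
    have hD1 : (1 : ℚ) ≤ D := by exact_mod_cast g1.trans g2
    have hnQ : (r : ℚ) * τ - T = D * s * n := by exact_mod_cast hn
    have h3Q : (T : ℚ) * p.2 - D * p.1 ≠ 0 := by exact_mod_cast h3
    have h4Q : |(T : ℚ) * p.2 - D * p.1| ≤ V := by exact_mod_cast h4
    set x : ℚ := (p.1 : ℚ) + n * ((s : ℚ) / r) * (r * p.2) with hxd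
    have e0 : x = ((p.1 + n * s * p.2 : ℤ) : ℚ) := by
      rw [hxd]
      push_cast
      field_simp
    have e1 : (D : ℚ) * x - τ * (r * p.2) = -((T : ℚ) * p.2 - D * p.1) := by
      rw [e0]
      push_cast
      linear_combination -(p.2 : ℚ) * hnQ
    have e2 : |(D : ℚ) * x - τ * (r * p.2)| ≤ V := by
      rw [e1, abs_neg]
      exact h4Q
    have hup := huQ p hp
    have hz0 : 0 < (r : ℚ) * p.2 := by
      have : 0 ≤ (K : ℚ) * X := by positivity
      linarith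
    have hxX : (X : ℚ) < x := by
      by_contra hcon
      rw [not_lt] at hcon
      have h5 : (D : ℚ) * x ≤ D * X := mul_le_mul_of_nonneg_left hcon (by linarith)
      have h6 : (D : ℚ) * X ≤ K * X := mul_le_mul_of_nonneg_right hDQ hXn
      have h7 : 1 * ((r : ℚ) * p.2) ≤ τ * (r * p.2) := mul_le_mul_of_nonneg_right hτQ hz0.le
      have h8 := (abs_le.1 e2).1
      linarith
    obtain ⟨hx1, hx2⟩ := hxQ p hp
    have hTy := ty_of K τ D x (r * p.2) V g1 g2 g3 e2 (by linarith)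
    refine ⟨(x, r * p.2), ⟨rfl, -n, ?_⟩, hTy, ?_, ?_⟩
    · simp only [hxd]
      push_cast
      ring
    · have := conn s r K V hr hKr hg 1 le_rfl x (r * p.2) (p.1 + n * s * p.2) (r * p.2) (by
        rw [e0]
        simp) (by push_cast; simp) (by
        rw [Nat.cast_one, div_one]
        linarith) (by
        rw [e1]
        intro h5
        exact h3Q (neg_eq_zero.1 h5)) (by
        rw [Nat.cast_one, div_one]
        exact e2)
      rw [one_mul] at this
      exact this.mono fun e he => Or.inl he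
    · intro h5
      rw [hS', Finset.mem_image] at h5
      obtain ⟨p', hp', he⟩ := h5
      simp only [Prod.mk.injEq] at he
      have := (hxQ p' hp').2
      linarith [he.1]) (by
    intro p hp
    rw [hS', Finset.mem_image] at hp
    obtain ⟨p, hp, rfl⟩ := hp
    obtain ⟨j, τ, D, T, hg, ⟨n, hn⟩, h3, h4, h5, h6⟩ := hb p hp
    obtain ⟨g1, g2, g3, g4⟩ := hg.facts
    obtain ⟨hx1, hx2⟩ := hxQ p hp
    have h3Q : 2 * (V : ℚ) * K < r * p.2 - j * p.1 := by exact_mod_cast h3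
    have h4Q : (r : ℚ) * p.2 - j * p.1 ≤ U := by exact_mod_cast h4
    have h5Q : (T : ℚ) * (r * p.2 - j * p.1) - r * D * p.1 ≠ 0 := by
      have h7 : (T : ℚ) * (r * p.2 - j * p.1) - D * (r * p.1) ≠ 0 := by exact_mod_cast h5
      intro h8
      apply h7
      linarith
    have h6Q : |(T : ℚ) * (r * p.2 - j * p.1) - r * D * p.1| ≤ V := by
      have h7 : |(T : ℚ) * (r * p.2 - j * p.1) - D * (r * p.1)| ≤ V := by exact_mod_cast h6
      rw [show (T : ℚ) * (r * p.2 - j * p.1) - r * D * p.1 =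
        (T : ℚ) * (r * p.2 - j * p.1) - D * (r * p.1) by ring]
      exact h7
    set z : ℚ := (r : ℚ) * p.2 - j * p.1 with hzd
    have hnn : (r : ℤ) * τ - T = s * D * n := by
      rw [hn]
      ring
    have := up s r K V i τ D T 1 (conn s r K V hr hKr hg) hr g4 le_rfl g1 g2 g3 n hnn
      p.1 z p.1 (r * p.2 - j * p.1) (by simp) (by rw [hzd]; push_cast; simp) (by
        rw [Nat.cast_one, mul_one]
        have h7 : (2 * (K : ℚ) + 1) * (V / r) ≤ 2 * V * K := by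
          rw [← mul_div_assoc, div_le_iff₀ (by linarith)]
          nlinarith [mul_nonneg hVn (by linarith : (0 : ℚ) ≤ K)]
        linarith) h5Q (by
        rw [Nat.cast_one, div_one]
        exact h6Q)
    obtain ⟨u1, u2, _⟩ := this
    rw [one_mul] at u2
    refine ⟨(p.1, z), ⟨rfl, j, ?_⟩, ?_, by simp only; linarith, Or.inl ?_, ?_⟩
    · simp only [hzd]
      push_cast
      ring
    · rintro ⟨h7, _⟩
      simp only at h7
      linarith
    · refine Con.a _ _ (u2.mono fun e he => Or.inr he) u1 ⟨rfl, -n, ?_⟩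
      simp only
      push_cast
      ring
    · intro h7
      rw [hS', Finset.mem_image] at h7
      obtain ⟨p', hp', he⟩ := h7
      simp only [Prod.mk.injEq] at he
      have h8 := huQ p' hp'
      have h9 : 1 * (X : ℚ) ≤ K * X := mul_le_mul_of_nonneg_right hKQ hXn
      linarith [he.2])
  rw [hc] at h2
  have h3 := hub_classes2 s r V (r ^ (i - 1)) (r ^ i) hs hr (Nat.one_le_pow _ _ hr)
    (Nat.one_le_pow _ _ hr) H h1
  omega

end Pool.Agent.H1102
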