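import Mathlib
import Pool.Agent.Lib.H1102.Inner
import Pool.Agent.Lib.H1102.GCrit

set_option autoImplicit false

namespace Pool.Agent.H1102

open Pool.Agent.H78.Farbman Pool.Agent.H73F

/-- The first-step condition. -/
def GC1 (s r V U1 X1 : ℕ) (I : Finset (ℕ × ℕ)) (u x : ℤ) (c : ℕ × ℕ) (t : ℕ) : Prop :=
  c ∈ I ∧ 1 ≤ t ∧ ((c.2 : ℤ) * s) ∣ (r : ℤ) * c.1 - t ∧ 2 * (U1 : ℤ) < x ∧ x ≤ X1 ∧
    (t : ℤ) * u - c.2 * x ≠ 0 ∧ |(t : ℤ) * u - c.2 * x| ≤ V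

/-- The second-step condition. -/
def GC2 (s r V U0 U1 : ℕ) (I : Finset (ℕ × ℕ)) (u x : ℤ) (j : ℕ) (c : ℕ × ℕ) (t : ℕ) : Prop :=
  c ∈ I ∧ 1 ≤ t ∧ ((c.2 : ℤ) * s) ∣ (r : ℤ) * c.1 - t ∧ (U0 : ℤ) < r * u - j * x ∧
    r * u - j * x ≤ U1 ∧ (t : ℤ) * (r * u - j * x) - c.2 * (r * x) ≠ 0 ∧
    |(t : ℤ) * (r * u - j * x) - c.2 * (r * x)| ≤ V

/-- Uniqueness for an index set of pairs. -/
def Uq (s r : ℕ) (I : Finset (ℕ × ℕ)) : Prop :=
  ∀ c ∈ I, ∀ c' ∈ I, ∀ t t' : ℕ, 1 ≤ t → 1 ≤ t' → ((c.2 : ℤ) * s) ∣ (r : ℤ) * c.1 - t →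
    ((c'.2 : ℤ) * s) ∣ (r : ℤ) * c'.1 - t' → t * c'.2 = t' * c.2 → c = c' ∧ t = t'

/-- The uniqueness lemma. -/
theorem guniq (s r K V : ℕ) (I : Finset (ℕ × ℕ)) (H : Uq s r I)
    (hIK : ∀ c ∈ I, 1 ≤ c.2 ∧ c.2 ≤ K) (u X : ℤ) (c c' : ℕ × ℕ) (t t' : ℕ)
    (hc : c ∈ I) (hc' : c' ∈ I) (ht : 1 ≤ t) (ht' : 1 ≤ t')
    (hd : ((c.2 : ℤ) * s) ∣ (r : ℤ) * c.1 - t) (hd' : ((c'.2 : ℤ) * s) ∣ (r : ℤ) * c'.1 - t')
    (hu : 2 * (V : ℤ) * K < u) (h : |t * u - c.2 * X| ≤ V) (h' : |t' * u - c'.2 * X| ≤ V) :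
    c = c' ∧ t = t' := by
  obtain ⟨hk, hkK⟩ := hIK c hc
  obtain ⟨hk', hkK'⟩ := hIK c' hc'
  refine H c hc c' hc' t t' ht ht' hd hd' ?_
  have hkp : (0 : ℤ) < c.2 := by exact_mod_cast hk
  have hk'p : (0 : ℤ) < c'.2 := by exact_mod_cast hk'
  have hkKz : (c.2 : ℤ) ≤ K := by exact_mod_cast hkK
  have hkKz' : (c'.2 : ℤ) ≤ K := by exact_mod_cast hkK'
  have hV0 : (0 : ℤ) ≤ V := Int.natCast_nonneg V
  rw [abs_le] at h h'
  have e : u * (t * c'.2 - t' * c.2) =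
      c'.2 * (t * u - c.2 * X) - c.2 * (t' * u - c'.2 * X) := by ring
  have b1 : u * (t * c'.2 - t' * c.2) ≤ 2 * V * K := by
    rw [e]
    have h1 := mul_le_mul_of_nonneg_left h.2 hk'p.le
    have h2 := mul_le_mul_of_nonneg_left h'.1 hkp.le
    nlinarith
  have b2 : -(2 * V * K) ≤ u * (t * c'.2 - t' * c.2) := by
    rw [e]
    have h1 := mul_le_mul_of_nonneg_left h.1 hk'p.le
    have h2 := mul_le_mul_of_nonneg_left h'.2 hkp.le
    nlinarith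
  have hup : 0 < u := by
    have : (0 : ℤ) ≤ 2 * V * K := by positivity
    omega
  have z : (t : ℤ) * c'.2 - t' * c.2 = 0 := by
    by_contra hne
    rcases lt_or_gt_of_ne hne with hlt | hgt
    · have : u * (t * c'.2 - t' * c.2) ≤ u * (-1) := mul_le_mul_of_nonneg_left (by omega) hup.le
      omega
    · have : u * 1 ≤ u * (t * c'.2 - t' * c.2) := mul_le_mul_of_nonneg_left (by omega) hup.le
      omega
  have z2 : (t : ℤ) * c'.2 = t' * c.2 := by linarith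
  exact_mod_cast z2

open Classical in
/-- The points with given first and second step data. -/
noncomputable def T1 (s r V U0 U1 X1 : ℕ) (I : Finset (ℕ × ℕ)) (u : ℕ) (c : ℕ × ℕ) (t j : ℕ)
    (c2 : ℕ × ℕ) : Finset ℤ :=
  (Finset.Ioc (2 * (U1 : ℤ)) X1).filter fun x =>
    GC1 s r V U1 X1 I u x c t ∧ ∃ t2, GC2 s r V U0 U1 I u x j c2 t2

open Classical in
/-- The points with given first step data and given number `j`. -/
noncomputable def T2 (s r V U0 U1 X1 : ℕ) (I : Finset (ℕ × ℕ)) (u : ℕ) (c : ℕ × ℕ) (t j : ℕ) :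
    Finset ℤ :=
  (Finset.Ioc (2 * (U1 : ℤ)) X1).filter fun x =>
    GC1 s r V U1 X1 I u x c t ∧ ∃ c2 t2, GC2 s r V U0 U1 I u x j c2 t2

open Classical in
/-- The points with given first step data. -/
noncomputable def T3 (s r V U0 U1 X1 : ℕ) (I : Finset (ℕ × ℕ)) (u : ℕ) (c : ℕ × ℕ) (t : ℕ) :
    Finset ℤ :=
  (Finset.Ioc (2 * (U1 : ℤ)) X1).filter fun x =>
    GC1 s r V U1 X1 I u x c t ∧ ∃ j c2 t2, GC2 s r V U0 U1 I u x j c2 t2

open Classical in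
/-- The points of one row. -/
noncomputable def T4 (s r V U0 U1 X1 : ℕ) (I : Finset (ℕ × ℕ)) (u : ℕ) : Finset ℤ :=
  (Finset.Ioc (2 * (U1 : ℤ)) X1).filter fun x =>
    ∃ c t, GC1 s r V U1 X1 I u x c t ∧ ∃ j c2 t2, GC2 s r V U0 U1 I u x j c2 t2

/-- Uniqueness of the second step data, `j` given. -/
theorem gc2_uniq (s r V U0 U1 K : ℕ) (I : Finset (ℕ × ℕ)) (H : Uq s r I)
    (hIK : ∀ c ∈ I, 1 ≤ c.2 ∧ c.2 ≤ K)
    (hU0 : 2 * V * K ≤ U0) (u x : ℤ) (j : ℕ) (c : ℕ × ℕ) (t : ℕ) (c' : ℕ × ℕ) (t' : ℕ)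
    (h : GC2 s r V U0 U1 I u x j c t) (h' : GC2 s r V U0 U1 I u x j c' t') :
    c = c' ∧ t = t' := by
  obtain ⟨a1, a2, a3, a4, a5, a6, a7⟩ := h
  obtain ⟨b1, b2, b3, b4, b5, b6, b7⟩ := h'
  refine guniq s r K V I H hIK (r * u - j * x) (r * x) c c' t t' a1 b1 a2 b2 a3 b3 ?_ a7 b7
  have h1 : 2 * (V : ℤ) * K ≤ U0 := by exact_mod_cast hU0
  omega

/-- The count for given `j, k2`. -/
theorem ginner_k2 (s r V U0 U1 X1 K : ℕ) (I : Finset (ℕ × ℕ)) (H : Uq s r I)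
    (hIK : ∀ c ∈ I, 1 ≤ c.2 ∧ c.2 ≤ K) (hs : 1 ≤ s) (hr : 1 ≤ r) (hV : 1 ≤ V)
    (hU0 : 2 * V * K ≤ U0) (hVU : V < U1) (u τ k t j τ2 k2 : ℕ) (huU : u ≤ U1)
    (hk : 1 ≤ k) (hcI : (τ, k) ∈ I) (ht : 1 ≤ t) (hd : ((k : ℤ) * s) ∣ (r : ℤ) * τ - t)
    (hj : 1 ≤ j) (hk2 : 1 ≤ k2) (hk2K : k2 ≤ K) (hcI2 : (τ2, k2) ∈ I)
    (hj0 : (r : ℤ) * u * k ≤ j * (t * u + V)) (hj1 : (j : ℤ) * (t * u - V) ≤ (r * u - U1) * k)
    (hx0 : 2 * (U1 : ℤ) * k + V < t * u) (hx1 : (t : ℤ) * u + V ≤ k * X1)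
    (hru : U1 < r * u) (hbig : 30 * K * (r * r * U1) ≤ V * U0)
    (Λ : ℝ) (hΛ : Λ ≤ Real.log (((r : ℝ) * r * u / (U0 + V)) /
      ((r : ℝ) * r * u / (U1 - V) + 2 * (j * s)))) :
    1.9 * V * Λ / (k2 * (j * s)) ≤ ((T1 s r V U0 U1 X1 I u (τ, k) t j (τ2, k2)).card : ℝ) := by
  classical
  have hsR : (1 : ℝ) ≤ s := by exact_mod_cast hs
  have hrR : (1 : ℝ) ≤ r := by exact_mod_cast hr
  have hVR : (1 : ℝ) ≤ V := by exact_mod_cast hV
  have hjR : (1 : ℝ) ≤ j := by exact_mod_cast hj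
  have hk2R : (1 : ℝ) ≤ k2 := by exact_mod_cast hk2
  have hk2KR : (k2 : ℝ) ≤ K := by exact_mod_cast hk2K
  have hUV : (V : ℝ) < U1 := by exact_mod_cast hVU
  have hU0R : (0 : ℝ) ≤ U0 := Nat.cast_nonneg _
  have huR : (0 : ℝ) ≤ u := Nat.cast_nonneg _
  have hruR : (U1 : ℝ) < r * u := by exact_mod_cast hru
  have huUR : (u : ℝ) ≤ U1 := by exact_mod_cast huU
  have hbigR : 30 * (K : ℝ) * (r * r * U1) ≤ V * U0 := by exact_mod_cast hbig
  have hu0 : (0 : ℝ) < u := by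
    rcases huR.lt_or_eq with h | h
    · exact h
    · rw [← h, mul_zero] at hruR
      linarith [Nat.cast_nonneg (α := ℝ) U1]
  obtain ⟨a, b, hab, hsum⟩ := harm (j * s) r ((r : ℝ) * r * u / (U1 - V))
    ((r : ℝ) * r * u / (U0 + V)) (by positivity) (by positivity) (by
      rw [le_div_iff₀ (by linarith)]
      have h1 : (r : ℝ) * (U1 - V) ≤ r * (r * u) :=
        mul_le_mul_of_nonneg_left (by linarith) (by linarith)
      linarith) (by positivity)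
  set ρ : ℕ := (r * τ2) % (k2 * s) with hρ
  have hks : 0 < k2 * s := Nat.mul_pos hk2 hs
  have hρlt : ρ < k2 * s := Nat.mod_lt _ hks
  have hρe : k2 * s * (r * τ2 / (k2 * s)) + ρ = r * τ2 := Nat.div_add_mod _ _
  -- the windows
  set D : ℕ → ℤ := fun m => (j : ℤ) * ((ρ + m * (k2 * s) : ℕ) : ℤ) + k2 * r with hD
  set C : ℕ → ℤ := fun m => ((ρ + m * (k2 * s) : ℕ) : ℤ) * r * u with hC
  set E : ℕ → Finset ℤ := fun m =>
    ((Finset.Icc ⌈((C m - V : ℤ) : ℝ) / D m⌉ ⌊((C m + V : ℤ) : ℝ) / D m⌋).erase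
      ((t : ℤ) * u / k)).erase (C m / D m) with hE
  have facts : ∀ m ∈ Finset.Ico a b,
      (r : ℤ) * r * u ≤ ((U1 : ℤ) - V) * (j * s * m + r) ∧
      ((U0 : ℤ) + V) * (j * s * (m + 1) + r) ≤ (r : ℤ) * r * u ∧ 1 ≤ m := by
    intro m hm
    obtain ⟨h1, h2⟩ := hab m hm
    rw [div_le_iff₀ (by linarith)] at h1
    rw [le_div_iff₀ (by linarith)] at h2
    refine ⟨?_, ?_, ?_⟩
    · have h3 : (r : ℝ) * r * u ≤ ((U1 : ℝ) - V) * (j * s * m + r) := by linarith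
      exact_mod_cast h3
    · have h3 : ((U0 : ℝ) + V) * (j * s * (m + 1) + r) ≤ (r : ℝ) * r * u := by linarith
      exact_mod_cast h3
    · by_contra hcon
      have hm0 : m = 0 := by omega
      rw [hm0] at h1
      simp only [Nat.cast_zero, mul_zero, zero_add] at h1
      have h4 : (r : ℝ) * (r * u) ≤ r * (U1 - V) := by linarith
      have h5 := le_of_mul_le_mul_left h4 (by linarith)
      linarith
  have hDpos : ∀ m, 0 < D m := by
    intro m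
    have h1 : (0 : ℤ) < k2 * r := by
      have : (0 : ℤ) < k2 := by exact_mod_cast hk2
      have : (0 : ℤ) < r := by exact_mod_cast hr
      positivity
    have h2 : (0 : ℤ) ≤ (j : ℤ) * ((ρ + m * (k2 * s) : ℕ) : ℤ) := by positivity
    simp only [hD]
    omega
  have hEx : ∀ m ∈ Finset.Ico a b, ∀ x ∈ E m, GC1 s r V U1 X1 I u x (τ, k) t ∧
      GC2 s r V U0 U1 I u x j (τ2, k2) (ρ + m * (k2 * s)) := by
    intro m hm x hx
    obtain ⟨f1, f2, f3⟩ := facts m hm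
    simp only [hE, Finset.mem_erase, Finset.mem_Icc] at hx
    obtain ⟨g1, g2, g3, g4⟩ := hx
    have hDR : (0 : ℝ) < D m := by exact_mod_cast hDpos m
    have g5 : C m - V ≤ D m * x := by
      have h1 := Int.ceil_le.1 g3
      rw [div_le_iff₀ hDR] at h1
      have h2 : ((C m - V : ℤ) : ℝ) ≤ ((D m * x : ℤ) : ℝ) := by
        rw [Int.cast_mul]
        linarith
      exact_mod_cast h2
    have g6 : D m * x ≤ C m + V := by
      have h1 := Int.le_floor.1 g4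
      rw [le_div_iff₀ hDR] at h1
      have h2 : ((D m * x : ℤ) : ℝ) ≤ ((C m + V : ℤ) : ℝ) := by
        rw [Int.cast_mul]
        linarith
      exact_mod_cast h2
    have ht2a : m * (k2 * s) ≤ ρ + m * (k2 * s) := by omega
    have ht2b : ρ + m * (k2 * s) ≤ (m + 1) * (k2 * s) := by
      have : (m + 1) * (k2 * s) = m * (k2 * s) + k2 * s := by ring
      omega
    have ht2 : 1 ≤ ρ + m * (k2 * s) := by
      have : 1 ≤ m * (k2 * s) := Nat.mul_pos f3 hks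
      omega
    obtain ⟨m1, m2, m3, m4, m5, m6⟩ := inner_mem s r V U0 U1 X1 u k t j k2 m
      ((ρ + m * (k2 * s) : ℕ) : ℤ) x (by exact_mod_cast hr) (by exact_mod_cast hV)
      (by exact_mod_cast hk) (by exact_mod_cast hk2) (by exact_mod_cast hj)
      (by exact_mod_cast ht2) (by exact_mod_cast ht2a) (by exact_mod_cast ht2b) f1 f2 hj0 hj1
      hx0 hx1 (Int.natCast_nonneg _) (by exact_mod_cast hVU.le) g6 g5
    refine ⟨⟨hcI, ht, hd, m4, m5, ?_, m3⟩, ⟨hcI2, ht2, ?_, m1, m2, ?_, m6⟩⟩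
    · intro h0
      apply g2
      have h1 : (t : ℤ) * u = k * x := by linarith
      rw [h1, Int.mul_ediv_cancel_left]
      have : (0 : ℤ) < k := by exact_mod_cast hk
      omega
    · refine ⟨((r * τ2 / (k2 * s) : ℕ) : ℤ) - m, ?_⟩
      have h1 : ((k2 * s * (r * τ2 / (k2 * s)) + ρ : ℕ) : ℤ) = ((r * τ2 : ℕ) : ℤ) := by rw [hρe]
      push_cast at h1 ⊢
      linear_combination -h1
    · intro h0
      apply g1
      have h1 : C m = D m * x := by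
        simp only [hC, hD]
        push_cast at h0 ⊢
        linear_combination h0
      rw [h1, Int.mul_ediv_cancel_left]
      exact (hDpos m).ne'
  have hle : ∑ m ∈ Finset.Ico a b, ((E m).card : ℝ) ≤
      ((T1 s r V U0 U1 X1 I u (τ, k) t j (τ2, k2)).card : ℝ) := by
    apply sum_card_le
    · intro m hm x hx
      obtain ⟨e1, e2⟩ := hEx m hm x hx
      rw [T1, Finset.mem_filter, Finset.mem_Ioc]
      exact ⟨⟨e1.2.2.2.1, e1.2.2.2.2.1⟩, e1, _, e2⟩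
    · intro m hm m' hm' x hx hx'
      obtain ⟨_, e2⟩ := hEx m hm x hx
      obtain ⟨_, e2'⟩ := hEx m' hm' x hx'
      have h1 := (gc2_uniq s r V U0 U1 K I H hIK hU0 u x j _ _ _ _ e2 e2').2
      have h2 : m * (k2 * s) = m' * (k2 * s) := by omega
      exact Nat.eq_of_mul_eq_mul_right hks h2
  refine le_trans ?_ hle
  have hterm : ∀ m ∈ Finset.Ico a b,
      1.9 * V / k2 * (1 / ((j : ℝ) * s * ((m : ℝ) + 1) + r)) ≤ ((E m).card : ℝ) := by
    intro m hm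
    refine le_trans ?_ (card_two (C m) (D m) V _ _ (hDpos m))
    obtain ⟨f1, f2, f3⟩ := facts m hm
    have hDR : (0 : ℝ) < D m := by exact_mod_cast hDpos m
    have ht2b : ((ρ + m * (k2 * s) : ℕ) : ℝ) ≤ ((m : ℝ) + 1) * (k2 * s) := by
      have h1 : ρ + m * (k2 * s) ≤ (m + 1) * (k2 * s) := by
        have : (m + 1) * (k2 * s) = m * (k2 * s) + k2 * s := by ring
        omega
      exact_mod_cast h1
    have hDle : (D m : ℝ) ≤ k2 * ((j : ℝ) * s * ((m : ℝ) + 1) + r) := by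
      have h1 : (D m : ℝ) = (j : ℝ) * ((ρ + m * (k2 * s) : ℕ) : ℝ) + k2 * r := by
        simp only [hD]
        push_cast
        ring
      rw [h1]
      have h2 := mul_le_mul_of_nonneg_left ht2b (by linarith : (0 : ℝ) ≤ j)
      linarith
    have hG : (0 : ℝ) < (j : ℝ) * s * ((m : ℝ) + 1) + r := by positivity
    have h30 : 30 * (k2 * ((j : ℝ) * s * ((m : ℝ) + 1) + r)) ≤ V := by
      have f2R : ((U0 : ℝ) + V) * (j * s * (m + 1) + r) ≤ (r : ℝ) * r * u := by exact_mod_cast f2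
      have h1 : (r : ℝ) * r * u ≤ r * r * U1 := mul_le_mul_of_nonneg_left huUR (by positivity)
      have h2 : (30 * (K : ℝ)) * (((U0 : ℝ) + V) * (j * s * (m + 1) + r)) ≤ V * U0 :=
        (mul_le_mul_of_nonneg_left (f2R.trans h1) (by positivity)).trans hbigR
      have h3 : ((U0 : ℝ) + V) * (30 * (k2 * ((j : ℝ) * s * ((m : ℝ) + 1) + r))) ≤
          (U0 + V) * V := by
        have h4 : (k2 : ℝ) * ((j : ℝ) * s * ((m : ℝ) + 1) + r) ≤
            K * ((j : ℝ) * s * ((m : ℝ) + 1) + r) := mul_le_mul_of_nonneg_right hk2KR hG.le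
        have h5 : ((U0 : ℝ) + V) * (30 * (k2 * ((j : ℝ) * s * ((m : ℝ) + 1) + r))) ≤
            ((U0 : ℝ) + V) * (30 * (K * ((j : ℝ) * s * ((m : ℝ) + 1) + r))) :=
          mul_le_mul_of_nonneg_left (by linarith) (by linarith)
        nlinarith
      exact le_of_mul_le_mul_left h3 (by linarith)
    have h31 : 30 * (D m : ℝ) ≤ V := by linarith
    have h32 : 1.9 * (V : ℝ) / D m ≤ 2 * ((V : ℤ) : ℝ) / D m - 3 := by
      rw [Int.cast_natCast]
      have h1 : 2 * (V : ℝ) / D m - 1.9 * (V : ℝ) / D m = 0.1 * V / D m := by ring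
      have h2 : 3 ≤ 0.1 * (V : ℝ) / D m := by
        rw [le_div_iff₀ hDR]
        linarith
      linarith
    refine le_trans ?_ h32
    rw [show 1.9 * (V : ℝ) / k2 * (1 / ((j : ℝ) * s * ((m : ℝ) + 1) + r)) =
      1.9 * V / (k2 * ((j : ℝ) * s * ((m : ℝ) + 1) + r)) by field_simp]
    exact div_le_div_of_nonneg_left (by positivity) hDR hDle
  refine le_trans ?_ (Finset.sum_le_sum hterm)
  rw [← Finset.mul_sum]
  have h1 := mul_le_mul_of_nonneg_left hsum (by positivity : (0 : ℝ) ≤ 1.9 * V / k2)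
  refine le_trans ?_ h1
  have h2 : 1.9 * (V : ℝ) * Λ / (k2 * (j * s)) = 1.9 * V / k2 * (1 / (j * s) * Λ) := by
    field_simp
  rw [h2]
  apply mul_le_mul_of_nonneg_left _ (by positivity)
  apply mul_le_mul_of_nonneg_left hΛ (by positivity)

end Pool.Agent.H1102
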