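import Mathlib
import Pool.Agent.Lib.H1102.Inner2
import Pool.Agent.Lib.H1102.GInner

set_option autoImplicit false

namespace Pool.Agent.H1102

open Pool.Agent.H78.Farbman Pool.Agent.H73F

/-- The count for given `j`. -/
theorem ginner_j (s r V U0 U1 X1 K : ℕ) (I : Finset (ℕ × ℕ)) (H : Uq s r I)
    (hIK : ∀ c ∈ I, 1 ≤ c.2 ∧ c.2 ≤ K) (hs : 1 ≤ s) (hr : 1 ≤ r) (hV : 1 ≤ V)
    (hU0 : 2 * V * K ≤ U0) (hVU : V < U1) (u τ k t j : ℕ) (huU : u ≤ U1)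
    (hk : 1 ≤ k) (hcI : (τ, k) ∈ I) (ht : 1 ≤ t) (hd : ((k : ℤ) * s) ∣ (r : ℤ) * τ - t)
    (hj : 1 ≤ j)
    (hj0 : (r : ℤ) * u * k ≤ j * (t * u + V)) (hj1 : (j : ℤ) * (t * u - V) ≤ (r * u - U1) * k)
    (hx0 : 2 * (U1 : ℤ) * k + V < t * u) (hx1 : (t : ℤ) * u + V ≤ k * X1)
    (hru : U1 < r * u) (hbig : 30 * K * (r * r * U1) ≤ V * U0)
    (Λ : ℝ) (hΛ : Λ ≤ Real.log (((r : ℝ) * r * u / (U0 + V)) /
      ((r : ℝ) * r * u / (U1 - V) + 2 * (j * s)))) :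
    1.9 * V * Λ / s * (∑ c ∈ I, 1 / (c.2 : ℝ)) * (1 / (j : ℝ)) ≤
      ((T2 s r V U0 U1 X1 I u (τ, k) t j).card : ℝ) := by
  classical
  have hsR : (1 : ℝ) ≤ s := by exact_mod_cast hs
  have hjR : (1 : ℝ) ≤ j := by exact_mod_cast hj
  have hle : ∑ c ∈ I, ((T1 s r V U0 U1 X1 I u (τ, k) t j c).card : ℝ) ≤
      ((T2 s r V U0 U1 X1 I u (τ, k) t j).card : ℝ) := by
    apply sum_card_le
    · intro k2 _ x hx
      rw [T1, Finset.mem_filter] at hx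
      rw [T2, Finset.mem_filter]
      obtain ⟨h1, h2, t2, h3⟩ := hx
      exact ⟨h1, h2, k2, t2, h3⟩
    · intro k2 _ k2' _ x hx hx'
      rw [T1, Finset.mem_filter] at hx hx'
      obtain ⟨_, _, t2, h3⟩ := hx
      obtain ⟨_, _, t2', h3'⟩ := hx'
      exact (gc2_uniq s r V U0 U1 K I H hIK hU0 u x j k2 t2 k2' t2' h3 h3').1
  refine le_trans ?_ hle
  rw [Finset.mul_sum, Finset.sum_mul]
  apply Finset.sum_le_sum
  intro c2 hc2
  obtain ⟨τ2, k2⟩ := c2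
  obtain ⟨hk2, hk2'⟩ := hIK _ hc2
  simp only at hk2 hk2'
  have hk2R : (1 : ℝ) ≤ k2 := by exact_mod_cast hk2
  refine le_trans (le_of_eq ?_) (ginner_k2 s r V U0 U1 X1 K I H hIK hs hr hV hU0 hVU u τ k t j τ2
    k2 huU hk hcI ht hd hj hk2 hk2' hc2 hj0 hj1 hx0 hx1 hru hbig Λ hΛ)
  field_simp

/-- The count for given first step data. -/
theorem ginner_all (s r V U0 U1 X1 K : ℕ) (I : Finset (ℕ × ℕ)) (H : Uq s r I)
    (hIK : ∀ c ∈ I, 1 ≤ c.2 ∧ c.2 ≤ K) (hs : 1 ≤ s) (hr : 1 ≤ r) (hV : 1 ≤ V)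
    (hU0 : 2 * V * K ≤ U0) (hVU : 50 * V ≤ U1) (u τ k t : ℕ) (hu0 : U0 < u) (huU : u ≤ U1)
    (hk : 1 ≤ k) (hkK : k ≤ K) (hcI : (τ, k) ∈ I) (ht : 1 ≤ t)
    (hd : ((k : ℤ) * s) ∣ (r : ℤ) * τ - t)
    (hx0 : 2 * (U1 : ℤ) * k + V < t * u) (hx1 : (t : ℤ) * u + V ≤ k * X1)
    (hru : U1 < r * u) (hbig : 30 * K * (r * r * U1) ≤ V * U0)
    (hp1 : 100 * U1 * (K * X1) ≤ r * U0 * V) (hp2 : 100 * K * (X1 * X1) ≤ V * r * U0)
    (Λ : ℝ) (hΛ0 : 0 ≤ Λ) (hΛ : ∀ j : ℕ, 2 * j ≤ r → Λ ≤ Real.log (((r : ℝ) * r * u / (U0 + V)) /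
      ((r : ℝ) * r * u / (U1 - V) + 2 * (j * s)))) :
    3.61 * V ^ 2 * Λ / s * (∑ c ∈ I, 1 / (c.2 : ℝ)) * (1 / ((t : ℝ) * u)) ≤
      ((T3 s r V U0 U1 X1 I u (τ, k) t).card : ℝ) := by
  classical
  have hsR : (1 : ℝ) ≤ s := by exact_mod_cast hs
  have hrR : (1 : ℝ) ≤ r := by exact_mod_cast hr
  have hVR : (1 : ℝ) ≤ V := by exact_mod_cast hV
  have hkR : (1 : ℝ) ≤ k := by exact_mod_cast hk
  have hkKR : (k : ℝ) ≤ K := by exact_mod_cast hkK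
  have hUV : 50 * (V : ℝ) ≤ U1 := by exact_mod_cast hVU
  have hu0R : (U0 : ℝ) < u := by exact_mod_cast hu0
  have huUR : (u : ℝ) ≤ U1 := by exact_mod_cast huU
  have hruR : (U1 : ℝ) < r * u := by exact_mod_cast hru
  have hU0n : (0 : ℝ) ≤ U0 := Nat.cast_nonneg _
  have hX1n : (0 : ℝ) ≤ X1 := Nat.cast_nonneg _
  have hx0R : 2 * (U1 : ℝ) * k + V < t * u := by exact_mod_cast hx0
  have hx1R : (t : ℝ) * u + V ≤ k * X1 := by exact_mod_cast hx1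
  have hp1R : 100 * (U1 : ℝ) * (K * X1) ≤ r * U0 * V := by exact_mod_cast hp1
  have hp2R : 100 * (K : ℝ) * (X1 * X1) ≤ V * r * U0 := by exact_mod_cast hp2
  have hup : (0 : ℝ) < u := by linarith
  have hU1p : (0 : ℝ) < U1 := by linarith
  set T : ℝ := (t : ℝ) * u with hT
  set R : ℝ := (r : ℝ) * u with hR
  have hRp : 0 < R := by positivity
  have hT1 : T ≤ K * X1 := by
    have : (k : ℝ) * X1 ≤ K * X1 := mul_le_mul_of_nonneg_right hkKR hX1n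
    linarith
  have h2U : 2 * (U1 : ℝ) ≤ 2 * U1 * k := by
    have := mul_le_mul_of_nonneg_left hkR (by positivity : (0 : ℝ) ≤ 2 * U1)
    linarith
  have g1 : 100 * (V : ℝ) ≤ T := by linarith
  have g2 : 100 * (U1 : ℝ) * T ≤ R * V := by
    have h1 : 100 * (U1 : ℝ) * T ≤ 100 * U1 * (K * X1) :=
      mul_le_mul_of_nonneg_left hT1 (by positivity)
    have h2 : (r : ℝ) * U0 * V ≤ r * u * V := by
      apply mul_le_mul_of_nonneg_right _ (by linarith)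
      exact mul_le_mul_of_nonneg_left hu0R.le (by linarith)
    linarith
  have g3 : 100 * (T * T) ≤ V * R * k := by
    have h1 : T * T ≤ (k * X1) * (K * X1) :=
      mul_le_mul (by linarith) hT1 (by linarith) (by positivity)
    have h2 : (k : ℝ) * (100 * K * (X1 * X1)) ≤ k * (V * r * U0) :=
      mul_le_mul_of_nonneg_left hp2R (by linarith)
    have h3 : (V : ℝ) * r * U0 ≤ V * r * u := mul_le_mul_of_nonneg_left hu0R.le (by positivity)
    have h4 : (k : ℝ) * (V * r * U0) ≤ k * (V * r * u) :=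
      mul_le_mul_of_nonneg_left h3 (by linarith)
    calc 100 * (T * T) ≤ 100 * ((k * X1) * (K * X1)) := by linarith
      _ = (k : ℝ) * (100 * K * (X1 * X1)) := by ring
      _ ≤ k * (V * r * u) := h2.trans h4
      _ = V * R * k := by rw [hR]; ring
  have hjs := j_sum R T V U1 k hRp (by linarith) hkR hU1p.le g1 g2 g3
  set J := Finset.Icc ⌈R * k / (T + V)⌉₊ ⌊(R - U1) * k / (T - V)⌋₊ with hJ
  have hTV : 0 < T - V := by linarith
  have hTV' : 0 < T + V := by linarith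
  have hRU : 0 < R - U1 := by linarith
  have hJf : ∀ j ∈ J, 1 ≤ j ∧ 2 * j ≤ r ∧ (r : ℤ) * u * k ≤ j * (t * u + V) ∧
      (j : ℤ) * (t * u - V) ≤ (r * u - U1) * k := by
    intro j hj
    rw [hJ, Finset.mem_Icc] at hj
    have h1 : R * k / (T + V) ≤ j := Nat.ceil_le.1 hj.1
    have h2 : (j : ℝ) ≤ (R - U1) * k / (T - V) :=
      (Nat.le_floor_iff (by positivity)).1 hj.2
    have hjp : (0 : ℝ) < j := by
      have h5 : 0 < R * k / (T + V) := by positivity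
      linarith
    rw [div_le_iff₀ hTV'] at h1
    rw [le_div_iff₀ hTV] at h2
    refine ⟨by exact_mod_cast hjp, ?_, ?_, ?_⟩
    · have h3 : (j : ℝ) * (2 * U1 * k) ≤ j * (T - V) :=
        mul_le_mul_of_nonneg_left (by linarith) hjp.le
      have h4 : (R - U1) * k ≤ r * U1 * k := by
        apply mul_le_mul_of_nonneg_right _ (by linarith)
        have : R ≤ r * U1 := mul_le_mul_of_nonneg_left huUR (by linarith)
        linarith
      have h5 : (U1 * k) * (2 * (j : ℝ)) ≤ (U1 * k) * r := by nlinarith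
      have h6 := le_of_mul_le_mul_left h5 (by positivity)
      exact_mod_cast h6
    · have h3 : (r : ℝ) * u * k ≤ j * (t * u + V) := h1
      exact_mod_cast h3
    · have h3 : (j : ℝ) * (t * u - V) ≤ (r * u - U1) * k := h2
      exact_mod_cast h3
  have hle : ∑ j ∈ J, ((T2 s r V U0 U1 X1 I u (τ, k) t j).card : ℝ) ≤
      ((T3 s r V U0 U1 X1 I u (τ, k) t).card : ℝ) := by
    apply sum_card_le
    · intro j _ x hx
      rw [T2, Finset.mem_filter] at hx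
      rw [T3, Finset.mem_filter]
      obtain ⟨h1, h2, k2, t2, h3⟩ := hx
      exact ⟨h1, h2, j, k2, t2, h3⟩
    · intro j _ j' _ x hx hx'
      rw [T2, Finset.mem_filter] at hx hx'
      obtain ⟨_, h2, k2, t2, h3⟩ := hx
      obtain ⟨_, h2', k2', t2', h3'⟩ := hx'
      obtain ⟨a1, a2, a3, a4, a5, a6, a7⟩ := h3
      obtain ⟨b1, b2, b3, b4, b5, b6, b7⟩ := h3'
      have hz : (0 : ℤ) ≤ U0 := Int.natCast_nonneg _
      exact j_uniq r U1 u x j j' h2.2.2.2.1 (by omega) a5 (by omega) b5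
  refine le_trans ?_ hle
  have hKs : 0 ≤ ∑ c ∈ I, 1 / (c.2 : ℝ) :=
    Finset.sum_nonneg fun i _ => by positivity
  have hstep : ∑ j ∈ J, 1.9 * V * Λ / s * (∑ c ∈ I, 1 / (c.2 : ℝ)) * (1 / (j : ℝ)) ≤
      ∑ j ∈ J, ((T2 s r V U0 U1 X1 I u (τ, k) t j).card : ℝ) := by
    apply Finset.sum_le_sum
    intro j hj
    obtain ⟨f1, f2, f3, f4⟩ := hJf j hj
    exact ginner_j s r V U0 U1 X1 K I H hIK hs hr hV hU0 (by omega) u τ k t j huU hk hcI ht hd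
      f1 f3 f4 hx0 hx1 hru hbig Λ (hΛ j f2)
  refine le_trans ?_ hstep
  rw [← Finset.mul_sum]
  have h1 := mul_le_mul_of_nonneg_left hjs
    (by positivity : 0 ≤ 1.9 * V * Λ / s * (∑ c ∈ I, 1 / (c.2 : ℝ)))
  refine le_trans (le_of_eq ?_) h1
  have hTp : T ≠ 0 := by linarith
  have hs0 : (s : ℝ) ≠ 0 := by linarith
  field_simp
  ring

end Pool.Agent.H1102
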