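import Mathlib
import Pool.Agent.Lib.H1102.GInner2

set_option autoImplicit false

namespace Pool.Agent.H1102

open Pool.Agent.H78.Farbman Pool.Agent.H73F

/-- The count of one row. -/
theorem grow (s r V U0 U1 X1 K : ℕ) (I : Finset (ℕ × ℕ)) (H : Uq s r I)
    (hIK : ∀ c ∈ I, 1 ≤ c.2 ∧ c.2 ≤ K) (hs : 1 ≤ s) (hr : 1 ≤ r) (hV : 1 ≤ V)
    (hU0 : 2 * V * K ≤ U0) (hVU : 50 * V ≤ U1) (u : ℕ) (hu0 : U0 < u) (huU : u ≤ U1)
    (hru : U1 < r * u) (hbig : 30 * K * (r * r * U1) ≤ V * U0) (hVX : V < X1)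
    (hp1 : 100 * U1 * (K * X1) ≤ r * U0 * V) (hp2 : 100 * K * (X1 * X1) ≤ V * r * U0)
    (Λ : ℝ) (hΛ0 : 0 ≤ Λ) (hΛ : ∀ j : ℕ, 2 * j ≤ r → Λ ≤ Real.log (((r : ℝ) * r * u / (U0 + V)) /
      ((r : ℝ) * r * u / (U1 - V) + 2 * (j * s))))
    (Ω : ℝ) (hΩ : Ω ≤ Real.log (((X1 : ℝ) - V) / (2 * U1 + 2 * V + 2 * (s * u)))) :
    3.61 * V ^ 2 * Λ * Ω / s ^ 2 * (∑ c ∈ I, 1 / (c.2 : ℝ)) ^ 2 * (1 / (u : ℝ)) ≤
      ((T4 s r V U0 U1 X1 I u).card : ℝ) := by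
  classical
  have hsR : (1 : ℝ) ≤ s := by exact_mod_cast hs
  have hVR : (1 : ℝ) ≤ V := by exact_mod_cast hV
  have hup : (0 : ℝ) < u := by
    have : 0 < u := by omega
    exact_mod_cast this
  have hVXR : (V : ℝ) < X1 := by exact_mod_cast hVX
  set B := ∑ c ∈ I, 1 / (c.2 : ℝ) with hB
  have hB0 : 0 ≤ B := Finset.sum_nonneg fun i _ => by positivity
  obtain ⟨a, b, hab, hsum⟩ := harm (s * u) 0 (2 * U1 + 2 * V) ((X1 : ℝ) - V) (by positivity)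
    le_rfl (by positivity) (by linarith)
  -- facts for an index
  set t : ℕ × ℕ → ℕ → ℕ := fun c m => (r * c.1) % (c.2 * s) + m * (c.2 * s) with ht
  have hfacts : ∀ τ k : ℕ, (τ, k) ∈ I → ∀ m ∈ Finset.Ico a b,
      ((k : ℤ) * s) ∣ (r : ℤ) * τ - t (τ, k) m ∧ 2 * (U1 : ℤ) * k + V < t (τ, k) m * u ∧
      (t (τ, k) m : ℤ) * u + V ≤ k * X1 ∧ 0 < t (τ, k) m ∧
      ((t (τ, k) m : ℕ) : ℝ) ≤ k * s * ((m : ℝ) + 1) := by
    intro τ k hkI m hm
    have hk := hIK _ hkI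
    simp only at hk
    have hks : 0 < k * s := Nat.mul_pos hk.1 hs
    have hρlt : (r * τ) % (k * s) < k * s := Nat.mod_lt _ hks
    have hρe : k * s * (r * τ / (k * s)) + (r * τ) % (k * s) = r * τ := Nat.div_add_mod _ _
    obtain ⟨h1, h2⟩ := hab m hm
    have hkR : (1 : ℝ) ≤ k := by exact_mod_cast hk.1
    have ha1 : (m : ℝ) * (k * s) ≤ ((t (τ, k) m : ℕ) : ℝ) := by
      have : m * (k * s) ≤ t (τ, k) m := by
        simp only [ht]
        omega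
      exact_mod_cast this
    have ha2 : ((t (τ, k) m : ℕ) : ℝ) ≤ k * s * ((m : ℝ) + 1) := by
      have h3 : t (τ, k) m ≤ (k * s) * (m + 1) := by
        have : (k * s) * (m + 1) = m * (k * s) + k * s := by ring
        simp only [ht]
        omega
      exact_mod_cast h3
    have hb1 : 2 * (U1 : ℝ) * k + V < ((t (τ, k) m : ℕ) : ℝ) * u := by
      have h3 : (m : ℝ) * (k * s) * u ≤ ((t (τ, k) m : ℕ) : ℝ) * u :=
        mul_le_mul_of_nonneg_right ha1 hup.le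
      have h4 : (k : ℝ) * (2 * U1 + 2 * V) ≤ k * (s * u * m + 0) :=
        mul_le_mul_of_nonneg_left h1 (by linarith)
      have h5 : (1 : ℝ) * V ≤ k * V := mul_le_mul_of_nonneg_right hkR (by linarith)
      nlinarith
    have hb2 : ((t (τ, k) m : ℕ) : ℝ) * u + V ≤ k * X1 := by
      have h3 : ((t (τ, k) m : ℕ) : ℝ) * u ≤ k * s * ((m : ℝ) + 1) * u :=
        mul_le_mul_of_nonneg_right ha2 hup.le
      have h4 : (k : ℝ) * (s * u * ((m : ℝ) + 1) + 0) ≤ k * (X1 - V) :=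
        mul_le_mul_of_nonneg_left h2 (by linarith)
      have h5 : (1 : ℝ) * V ≤ k * V := mul_le_mul_of_nonneg_right hkR (by linarith)
      nlinarith
    have hc : (0 : ℝ) < ((t (τ, k) m : ℕ) : ℝ) := by
      by_contra hcon
      rw [not_lt] at hcon
      have h3 : ((t (τ, k) m : ℕ) : ℝ) * u ≤ 0 := mul_nonpos_of_nonpos_of_nonneg hcon hup.le
      have h4 : (0 : ℝ) ≤ 2 * (U1 : ℝ) * k + V := by positivity
      linarith
    refine ⟨?_, by exact_mod_cast hb1, by exact_mod_cast hb2, by exact_mod_cast hc, ha2⟩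
    refine ⟨((r * τ / (k * s) : ℕ) : ℤ) - m, ?_⟩
    have h1 : ((k * s * (r * τ / (k * s)) + (r * τ) % (k * s) : ℕ) : ℤ) = ((r * τ : ℕ) : ℤ) := by
      rw [hρe]
    simp only [ht]
    push_cast at h1 ⊢
    linear_combination -h1
  set J := I ×ˢ (Finset.Ico a b) with hJ
  have hle : ∑ i ∈ J, ((T3 s r V U0 U1 X1 I u i.1 (t i.1 i.2)).card : ℝ) ≤
      ((T4 s r V U0 U1 X1 I u).card : ℝ) := by
    apply sum_card_le
    · intro i _ x hx
      rw [T3, Finset.mem_filter] at hx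
      rw [T4, Finset.mem_filter]
      obtain ⟨h1, h2, h3⟩ := hx
      exact ⟨h1, i.1, _, h2, h3⟩
    · intro i hi i' hi' x hx hx'
      rw [T3, Finset.mem_filter] at hx hx'
      obtain ⟨_, h2, _⟩ := hx
      obtain ⟨_, h2', _⟩ := hx'
      obtain ⟨a1, a2, a3, a4, a5, a6, a7⟩ := h2
      obtain ⟨b1, b2, b3, b4, b5, b6, b7⟩ := h2'
      have hz : 2 * (V : ℤ) * K < u := by
        have : 2 * V * K < u := by omega
        exact_mod_cast this
      obtain ⟨e1, e2⟩ := guniq s r K V I H hIK u x i.1 i'.1 _ _ a1 b1 a2 b2 a3 b3 hz a7 b7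
      refine Prod.ext e1 ?_
      simp only [ht] at e2
      rw [← e1] at e2
      have hks : 0 < i.1.2 * s := Nat.mul_pos (hIK _ a1).1 hs
      have h2 : i.2 * (i.1.2 * s) = i'.2 * (i.1.2 * s) := by omega
      exact Nat.eq_of_mul_eq_mul_right hks h2
  refine le_trans ?_ hle
  rw [hJ, Finset.sum_product]
  have hterm : ∀ c ∈ I, 3.61 * V ^ 2 * Λ * Ω / s ^ 2 * B * (1 / (u : ℝ)) * (1 / (c.2 : ℝ))
      ≤ ∑ m ∈ Finset.Ico a b, ((T3 s r V U0 U1 X1 I u c (t c m)).card : ℝ) := by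
    intro c hk
    obtain ⟨τ, k⟩ := c
    have hkk := hIK _ hk
    simp only at hkk ⊢
    have hkR : (1 : ℝ) ≤ k := by exact_mod_cast hkk.1
    have h1 : ∑ m ∈ Finset.Ico a b, 3.61 * V ^ 2 * Λ / s * B * ((1 / k) *
        (1 / ((s : ℝ) * u * ((m : ℝ) + 1) + 0))) ≤
        ∑ m ∈ Finset.Ico a b, ((T3 s r V U0 U1 X1 I u (τ, k) (t (τ, k) m)).card : ℝ) := by
      apply Finset.sum_le_sum
      intro m hm
      obtain ⟨f1, f2, f3, f4, f5⟩ := hfacts τ k hk m hm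
      refine le_trans ?_ (ginner_all s r V U0 U1 X1 K I H hIK hs hr hV hU0 hVU u τ k
        (t (τ, k) m) hu0 huU hkk.1 hkk.2 hk f4 f1 f2 f3 hru hbig hp1 hp2 Λ hΛ0 hΛ)
      apply mul_le_mul_of_nonneg_left _ (by positivity)
      have htR : (0 : ℝ) < ((t (τ, k) m : ℕ) : ℝ) := by exact_mod_cast f4
      rw [one_div_mul_one_div]
      apply one_div_le_one_div_of_le (by positivity)
      have h3 := mul_le_mul_of_nonneg_right f5 hup.le
      linarith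
    refine le_trans ?_ h1
    rw [← Finset.mul_sum, ← Finset.mul_sum]
    have h4 : (1 / ((s : ℝ) * u)) * Ω ≤
        ∑ m ∈ Finset.Ico a b, 1 / ((s : ℝ) * u * ((m : ℝ) + 1) + 0) := by
      refine le_trans ?_ hsum
      exact mul_le_mul_of_nonneg_left hΩ (by positivity)
    have h5 := mul_le_mul_of_nonneg_left h4
      (by positivity : 0 ≤ 3.61 * (V : ℝ) ^ 2 * Λ / s * B * (1 / k))
    refine le_trans (le_of_eq ?_) (h5.trans (le_of_eq (by ring)))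
    field_simp
  refine le_trans (le_of_eq ?_) (Finset.sum_le_sum hterm)
  rw [← Finset.mul_sum, ← hB]
  ring

/-- The main counting inequality. -/
theorem gmain_count (s r V U0 U1 X1 K i : ℕ) (I : Finset (ℕ × ℕ)) (hs : 1 ≤ s) (hr : 1 ≤ r)
    (hi : 1 ≤ i) (hKr : K * (K + 1) < r)
    (hq : ¬ IsRelationNumber ((s : ℚ) / (r : ℚ))) (hI : ∀ c ∈ I, Good s r K i c.1 c.2)
    (hV : 1 ≤ V) (hK : 1 ≤ K)
    (hU0 : 2 * V * K ≤ U0) (hVU : 50 * V ≤ U1) (hUU : U0 ≤ U1)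
    (hru : U1 < r * U0) (hbig : 30 * K * (r * r * U1) ≤ V * U0) (hVX : V < X1)
    (hp1 : 100 * U1 * (K * X1) ≤ r * U0 * V) (hp2 : 100 * K * (X1 * X1) ≤ V * r * U0)
    (hp3 : K * X1 + V < r * U0)
    (Λ : ℝ) (hΛ0 : 0 ≤ Λ) (hΛ : ∀ u : ℕ, U0 < u → u ≤ U1 → ∀ j : ℕ, 2 * j ≤ r →
      Λ ≤ Real.log (((r : ℝ) * r * u / (U0 + V)) / ((r : ℝ) * r * u / (U1 - V) + 2 * (j * s))))
    (Ω : ℝ) (hΩ0 : 0 ≤ Ω) (hΩ : ∀ u : ℕ, u ≤ U1 →
      Ω ≤ Real.log (((X1 : ℝ) - V) / (2 * U1 + 2 * V + 2 * (s * u)))) :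
    3.61 * V ^ 2 * Λ * Ω / s ^ 2 * (∑ c ∈ I, 1 / (c.2 : ℝ)) ^ 2 *
      Real.log (((U1 : ℝ) + 1) / (U0 + 1)) ≤ 2 * (s * (V * (V + 1))) := by
  classical
  have hIK : ∀ c ∈ I, 1 ≤ c.2 ∧ c.2 ≤ K := by
    intro c hc
    obtain ⟨g1, g2, g3, _⟩ := (hI c hc).facts
    exact ⟨g1.trans g2, g3⟩
  have H : Uq s r I := by
    intro c hc c' hc' t t' ht _ hd hd' he
    obtain ⟨e1, e2, e3⟩ := chainU s r K hs hr hKr hq i (chainE s r K hs hr hKr hq i)
      c.1 c.2 t c'.1 c'.2 t' (hI c hc) (hI c' hc') ht (by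
        rw [mul_comm]
        exact hd) (by
        rw [mul_comm]
        exact hd') he
    exact ⟨Prod.ext e1 e2, e3⟩
  set T : ℕ → Finset (ℤ × ℤ) := fun u => (T4 s r V U0 U1 X1 I u).image fun x => (x, (u : ℤ))
    with hT
  set S : Finset (ℤ × ℤ) := (Finset.Ioc U0 U1).biUnion T with hS
  have hmem : ∀ p ∈ S, ∃ u : ℕ, U0 < u ∧ u ≤ U1 ∧ p.2 = (u : ℤ) ∧
      ∃ c t, GC1 s r V U1 X1 I u p.1 c t ∧ ∃ j c2 t2, GC2 s r V U0 U1 I u p.1 j c2 t2 := by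
    intro p hp
    rw [hS, Finset.mem_biUnion] at hp
    obtain ⟨u, hu, hp⟩ := hp
    rw [Finset.mem_Ioc] at hu
    simp only [hT, Finset.mem_image] at hp
    obtain ⟨x, hx, rfl⟩ := hp
    rw [T4, Finset.mem_filter] at hx
    exact ⟨u, hu.1, hu.2, rfl, hx.2⟩
  have hrz : (1 : ℤ) ≤ r := by exact_mod_cast hr
  have hU0z : 2 * (V : ℤ) * K ≤ U0 := by exact_mod_cast hU0
  have hVz : (1 : ℤ) ≤ V := by exact_mod_cast hV
  have hKz : (1 : ℤ) ≤ K := by exact_mod_cast hK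
  have hVU0 : 2 * (V : ℤ) ≤ U0 := by
    have : 2 * (V : ℤ) * 1 ≤ 2 * V * K := mul_le_mul_of_nonneg_left hKz (by omega)
    omega
  have hruz : (U1 : ℤ) < r * U0 := by exact_mod_cast hru
  have hp3z : (K : ℤ) * X1 + V < r * U0 := by exact_mod_cast hp3
  have hX1z : (0 : ℤ) ≤ X1 := Int.natCast_nonneg _
  have key := kgen s r V U1 X1 K i hs hr hK hi hKr (by omega) hq S (by
    intro p hp
    obtain ⟨u, hu1, hu2, hpe, c, t, c1, _⟩ := hmem p hp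
    exact ⟨c1.2.2.2.1, c1.2.2.2.2.1⟩) (by
    intro p hp
    obtain ⟨u, hu1, hu2, hpe, _⟩ := hmem p hp
    rw [hpe]
    have h1 : (U0 : ℤ) < u := by exact_mod_cast hu1
    refine hp3z.trans_le ?_
    exact mul_le_mul_of_nonneg_left h1.le (by omega)) (by
    intro p hp
    obtain ⟨u, hu1, hu2, hpe, c, t, ⟨a1, a2, a3, a4, a5, a6, a7⟩, _⟩ := hmem p hp
    rw [hpe]
    exact ⟨c.1, c.2, t, hI c a1, a3, a6, a7⟩) (by
    intro p hp
    obtain ⟨u, hu1, hu2, hpe, _, _, _, j, c2, t2, b1, b2, b3, b4, b5, b6, b7⟩ := hmem p hp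
    rw [hpe]
    exact ⟨j, c2.1, c2.2, t2, hI c2 b1, b3, by omega, b5, b6, b7⟩)
  have hcard : S.card = ∑ u ∈ Finset.Ioc U0 U1, (T4 s r V U0 U1 X1 I u).card := by
    rw [hS, Finset.card_biUnion]
    · apply Finset.sum_congr rfl
      intro u _
      simp only [hT]
      apply Finset.card_image_of_injective
      intro x y hxy
      exact congrArg Prod.fst hxy
    · intro u _ u' _ hne
      refine Finset.disjoint_left.2 ?_
      intro p hp hp'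
      simp only [hT, Finset.mem_image] at hp hp'
      obtain ⟨x, _, rfl⟩ := hp
      obtain ⟨x', _, he⟩ := hp'
      apply hne
      have := congrArg Prod.snd he
      simp only at this
      exact_mod_cast this.symm
  have keyR : (∑ u ∈ Finset.Ioc U0 U1, ((T4 s r V U0 U1 X1 I u).card : ℝ)) ≤
      2 * (s * (V * (V + 1))) := by
    rw [hcard] at key
    exact_mod_cast key
  refine le_trans ?_ keyR
  set c : ℝ := 3.61 * V ^ 2 * Λ * Ω / s ^ 2 * (∑ c ∈ I, 1 / (c.2 : ℝ)) ^ 2 with hc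
  have hc0 : 0 ≤ c := by rw [hc]; positivity
  have hstep : ∑ u ∈ Finset.Ioc U0 U1, c * (1 / (u : ℝ)) ≤
      ∑ u ∈ Finset.Ioc U0 U1, ((T4 s r V U0 U1 X1 I u).card : ℝ) := by
    apply Finset.sum_le_sum
    intro u hu
    rw [Finset.mem_Ioc] at hu
    refine grow s r V U0 U1 X1 K I H hIK hs hr hV hU0 hVU u hu.1 hu.2 ?_ hbig hVX hp1 hp2 Λ hΛ0
      (hΛ u hu.1 hu.2) Ω (hΩ u hu.2)
    exact hru.trans_le (Nat.mul_le_mul_left _ hu.1.le)
  refine le_trans ?_ hstep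
  rw [← Finset.mul_sum]
  apply mul_le_mul_of_nonneg_left _ hc0
  have h1 := harm_tel 1 0 one_pos le_rfl U0 U1 hUU
  simp only [one_mul, add_zero, div_one] at h1
  rw [← Real.log_div (by positivity) (by positivity)] at h1
  refine h1.trans (le_of_eq ?_)
  have h2 : Finset.Ioc U0 U1 = Finset.Ico (U0 + 1) (U1 + 1) := by
    ext z
    rw [Finset.mem_Ioc, Finset.mem_Ico]
    omega
  rw [h2, ← Finset.sum_Ico_add' (fun i : ℕ => 1 / (i : ℝ)) U0 U1 1]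
  apply Finset.sum_congr rfl
  intro z _
  push_cast
  rfl

end Pool.Agent.H1102
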