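import Mathlib
import Pool.Agent.Lib.H1102.Params
import Pool.Agent.Lib.H1102.GOuter
import Pool.Agent.Lib.H1102.ChainSum

set_option autoImplicit false

namespace Pool.Agent.H1102

open Pool.Agent.H78.Farbman Pool.Agent.H73F

/-- The inequality between the logarithms for a rational number which is not a relation number. -/
theorem gmain_ineq (s r w G n : ℕ) (hs : 1 ≤ s)
    (hq : ¬ IsRelationNumber ((s : ℚ) / (r : ℚ)))
    (hw : 100 ≤ w) (hwr : w ^ 10 ≤ r) (hsw : 33 * s ≤ w) (hG : 3 * s ≤ G)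
    (hGw : G ^ (2 * n + 1) ≤ w ^ 2) :
    1.78 * ((Real.log ((G : ℝ) / (3 * s)) ^ 2 / s) ^ n * Real.log G) ^ 2 *
      Real.log ((w : ℝ) ^ 2 / 3) ^ 2 * Real.log ((w : ℝ) / (33 * s)) ≤ (s : ℝ) ^ 3 := by
  have hr : 1 ≤ r := le_trans (Nat.one_le_pow _ _ (by omega)) hwr
  have hsR : (1 : ℝ) ≤ s := by exact_mod_cast hs
  have hrR : (1 : ℝ) ≤ r := by exact_mod_cast hr
  have hwR : (100 : ℝ) ≤ w := by exact_mod_cast hw
  have hwrR : (w : ℝ) ^ 10 ≤ r := by exact_mod_cast hwr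
  have hswR : 33 * (s : ℝ) ≤ w := by exact_mod_cast hsw
  have hw0 : 0 < w := by omega
  set V : ℕ := 16 * r ^ 2 * w ^ 4 with hV
  set X1 : ℕ := 2 * r ^ 2 * w ^ 9 with hX1
  have hVp : 1 ≤ V := Nat.one_le_iff_ne_zero.2 (by positivity)
  have pw : ∀ a b : ℕ, a ≤ b → w ^ a ≤ w ^ b := fun a b h => Nat.pow_le_pow_right hw0 h
  have hw2 : 10000 ≤ w ^ 2 := by nlinarith
  have hw4 : 50 ≤ w ^ 4 := by
    have := pw 2 4 (by norm_num)
    omega
  have hVR : (V : ℝ) = 16 * (r : ℝ) ^ 2 * (w : ℝ) ^ 4 := by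
    rw [hV]
    push_cast
    ring
  have hX1R : (X1 : ℝ) = V * (w : ℝ) ^ 5 / 8 := by
    rw [hVR, hX1]
    push_cast
    ring
  have hw9 : 100 * w ^ 9 ≤ r := by
    have : w ^ 10 = w * w ^ 9 := by ring
    nlinarith [Nat.mul_le_mul_right (w ^ 9) hw]
  have hΛ0 : 0 ≤ Real.log ((w : ℝ) ^ 2 / 3) := by
    apply Real.log_nonneg
    rw [le_div_iff₀ (by norm_num)]
    nlinarith
  have hΩ0 : 0 ≤ Real.log ((w : ℝ) / (33 * s)) := by
    apply Real.log_nonneg
    rw [le_div_iff₀ (by positivity)]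
    linarith
  have hKr : w ^ 2 * (w ^ 2 + 1) < r := by
    have h1 : w ^ 2 * (w ^ 2 + 1) ≤ w ^ 5 := by
      have e1 : w ^ 5 = w ^ 2 * (w * w ^ 2) := by ring
      rw [e1]
      apply Nat.mul_le_mul_left
      nlinarith
    have h2 : w ^ 5 < w ^ 10 := Nat.pow_lt_pow_right (by omega) (by norm_num)
    omega
  obtain ⟨I, hI, hIs⟩ := chain_sum s r (w ^ 2) G hs hr hKr hq hG n hGw
  have key := gmain_count s r V (2 * V * w ^ 2) (V * w ^ 4) X1 (w ^ 2) (n + 1) I hs hr (by omega)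
    hKr hq (fun c hc => (hI c hc).1) hVp
    (Nat.one_le_pow _ _ hw0) le_rfl (by nlinarith) (by
      have h1 : 2 * V * w ^ 2 * 1 ≤ V * w ^ 4 := by
        have e : V * w ^ 4 = V * w ^ 2 * w ^ 2 := by ring
        rw [e]
        nlinarith [Nat.zero_le (V * w ^ 2)]
      omega) (by
      have h1 : w ^ 4 < r * (2 * w ^ 2) := by
        have e : w ^ 4 = w ^ 2 * w ^ 2 := by ring
        have h2 : w ^ 2 ≤ r := (pw 2 10 (by norm_num)).trans hwr
        nlinarith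
      have h2 := Nat.mul_lt_mul_of_pos_left h1 hVp
      have e : r * (2 * V * w ^ 2) = V * (r * (2 * w ^ 2)) := by ring
      rw [e]
      exact h2) (by
      have e1 : 30 * w ^ 2 * (r * r * (V * w ^ 4)) = V * (30 * r ^ 2 * w ^ 6) := by ring
      have e2 : V * (2 * V * w ^ 2) = V * (32 * r ^ 2 * w ^ 6) := by
        rw [hV]
        ring
      rw [e1, e2]
      apply Nat.mul_le_mul_left
      nlinarith [Nat.zero_le (r ^ 2 * w ^ 6)]) (by
      have e1 : X1 = (2 * r ^ 2 * w ^ 4) * w ^ 5 := by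
        rw [hX1]
        ring
      have e2 : V = (2 * r ^ 2 * w ^ 4) * 8 := by
        rw [hV]
        ring
      rw [e1, e2]
      apply Nat.mul_lt_mul_of_pos_left _ (by positivity)
      have := pw 2 5 (by norm_num)
      omega) (by
      have e1 : 100 * (V * w ^ 4) * (w ^ 2 * X1) = (200 * V * r ^ 2 * w ^ 6) * w ^ 9 := by
        rw [hX1]
        ring
      have e2 : r * (2 * V * w ^ 2) * V = (200 * V * r ^ 2 * w ^ 6) * r * 32 / 200 := by
        have e3 : (200 * V * r ^ 2 * w ^ 6) * r * 32 = (r * (2 * V * w ^ 2) * V) * 200 := by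
          rw [hV]
          ring
        rw [e3, Nat.mul_div_cancel _ (by norm_num)]
      rw [e1, e2, Nat.le_div_iff_mul_le (by norm_num)]
      have h1 := Nat.mul_le_mul_left (200 * V * r ^ 2 * w ^ 6) hw9
      have h2 := Nat.zero_le (200 * V * r ^ 2 * w ^ 6 * r)
      linarith) (by
      have e1 : 100 * w ^ 2 * (X1 * X1) = (400 * r ^ 4 * w ^ 10) * w ^ 10 := by
        rw [hX1]
        ring
      have e2 : V * r * (2 * V * w ^ 2) = (512 * r ^ 4 * w ^ 10) * r := by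
        rw [hV]
        ring
      rw [e1, e2]
      exact Nat.mul_le_mul (by nlinarith [Nat.zero_le (r ^ 4 * w ^ 10)]) hwr) (by
      have e1 : w ^ 2 * X1 = (2 * r ^ 2 * w ^ 2) * w ^ 9 := by
        rw [hX1]
        ring
      have e2 : V = (2 * r ^ 2 * w ^ 2) * (8 * w ^ 2) := by
        rw [hV]
        ring
      have e3 : r * (2 * V * w ^ 2) = (2 * r ^ 2 * w ^ 2) * (16 * w ^ 4 * r) := by
        rw [hV]
        ring
      have e4 : w ^ 2 * X1 + V = (2 * r ^ 2 * w ^ 2) * (w ^ 9 + 8 * w ^ 2) := by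
        rw [mul_add, ← e2, ← e1]
      rw [e3, e4]
      apply Nat.mul_lt_mul_of_pos_left _ (by positivity)
      have h1 : w ^ 2 ≤ w ^ 4 := pw 2 4 (by norm_num)
      have h2 : w ^ 9 ≤ r := by omega
      have h3 : 1 ≤ r := hr
      nlinarith)
    (Real.log ((w : ℝ) ^ 2 / 3)) hΛ0 (by
      intro u hu1 _ j hj
      have hu1R : 2 * (16 * (r : ℝ) ^ 2 * (w : ℝ) ^ 4) * (w : ℝ) ^ 2 < u := by
        rw [← hVR]
        exact_mod_cast hu1
      have h := lam_bound s r w u j hsR hrR hwR hwrR hswR hu1R (Nat.cast_nonneg _)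
        (by exact_mod_cast hj)
      rw [← hVR] at h
      push_cast
      exact h)
    (Real.log ((w : ℝ) / (33 * s))) hΩ0 (by
      intro u hu
      have huR : (u : ℝ) ≤ V * (w : ℝ) ^ 4 := by exact_mod_cast hu
      have h := om_bound s w V u hsR hwR (by exact_mod_cast hVp) (Nat.cast_nonneg _) huR
      rw [hX1R]
      push_cast
      exact h)
  set Λ := Real.log ((w : ℝ) ^ 2 / 3) with hΛ
  set Ω := Real.log ((w : ℝ) / (33 * s)) with hΩ
  set B := ∑ c ∈ I, 1 / (c.2 : ℝ) with hB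
  have hVpR : (1 : ℝ) ≤ V := by exact_mod_cast hVp
  set b0 : ℝ := (Real.log ((G : ℝ) / (3 * s)) ^ 2 / s) ^ n * Real.log G with hb0
  have hG1 : (1 : ℝ) ≤ G := by
    have : 1 ≤ G := by omega
    exact_mod_cast this
  have hb00 : 0 ≤ b0 := by
    rw [hb0]
    have := Real.log_nonneg hG1
    positivity
  have hlast : Λ ≤ Real.log ((((V * w ^ 4 : ℕ) : ℝ) + 1) / (((2 * V * w ^ 2 : ℕ) : ℝ) + 1)) := by
    rw [hΛ]
    apply Real.log_le_log (by positivity)
    rw [le_div_iff₀ (by positivity)]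
    push_cast
    have h1 : (0 : ℝ) ≤ (V : ℝ) * (w : ℝ) ^ 4 := by positivity
    have h2 : (w : ℝ) ^ 2 ≤ V * (w : ℝ) ^ 4 := by
      have h3 : (1 : ℝ) * (w : ℝ) ^ 2 ≤ V * (w : ℝ) ^ 4 :=
        mul_le_mul hVpR (pow_le_pow_right₀ (by linarith) (by norm_num)) (by positivity)
          (by linarith)
      linarith
    have e : (w : ℝ) ^ 2 / 3 * (2 * V * (w : ℝ) ^ 2 + 1) =
        2 / 3 * (V * (w : ℝ) ^ 4) + (w : ℝ) ^ 2 / 3 := by ring
    rw [e]
    linarith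
  have hB2 : b0 ^ 2 ≤ B ^ 2 := pow_le_pow_left₀ hb00 hIs 2
  have k1 : 3.61 * (V : ℝ) ^ 2 * Λ * Ω / s ^ 2 * (b0 ^ 2) * Λ ≤
      2 * (s * (V * (V + 1))) := by
    refine le_trans ?_ key
    have h1 : 0 ≤ 3.61 * (V : ℝ) ^ 2 * Λ * Ω / s ^ 2 := by positivity
    exact mul_le_mul (mul_le_mul_of_nonneg_left hB2 h1) hlast hΛ0 (by positivity)
  have hV100 : (100 : ℝ) ≤ V := by
    have h1 : 100 ≤ V := by
      rw [hV]
      have h2 : 1 * 50 ≤ r ^ 2 * w ^ 4 := Nat.mul_le_mul (Nat.one_le_pow _ _ hr) hw4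
      nlinarith
    exact_mod_cast h1
  have hsp : (0 : ℝ) < s := by linarith
  have hVpos : (0 : ℝ) < V := by linarith
  have k2 : (V : ℝ) ^ 2 / s ^ 2 * (3.61 * b0 ^ 2 * Λ ^ 2 * Ω) ≤
      (V : ℝ) ^ 2 / s ^ 2 * (2.02 * (s : ℝ) ^ 3) := by
    have e1 : (V : ℝ) ^ 2 / s ^ 2 * (3.61 * b0 ^ 2 * Λ ^ 2 * Ω) =
        3.61 * (V : ℝ) ^ 2 * Λ * Ω / s ^ 2 * (b0 ^ 2) * Λ := by
      field_simp
    have e2 : (V : ℝ) ^ 2 / s ^ 2 * (2.02 * (s : ℝ) ^ 3) = 2.02 * s * V ^ 2 := by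
      field_simp
    rw [e1, e2]
    refine k1.trans ?_
    have h1 : (V : ℝ) * (V + 1) ≤ 1.01 * V ^ 2 := by nlinarith
    have h2 := mul_le_mul_of_nonneg_left h1 (by linarith : (0 : ℝ) ≤ 2 * s)
    nlinarith
  have k3 := le_of_mul_le_mul_left k2 (by positivity)
  have k4 : 0 ≤ b0 ^ 2 * Λ ^ 2 * Ω := by positivity
  nlinarith

end Pool.Agent.H1102
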