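import Mathlib
import Pool.Agent.Lib.H1102.GParams
import Pool.Agent.Lib.H1102.Fin

set_option autoImplicit false

namespace Pool.Agent.H1102

open Pool.Agent.H78.Farbman Pool.Agent.H73F

/-- Large numerators, chains of all lengths. -/
theorem gen_large (s r : ℕ) (hs : 200000 < s)
    (h : Real.exp (5 * Real.sqrt s * Real.log ((s : ℝ) + 2)) ≤ (r : ℝ)) :
    IsRelationNumber ((s : ℚ) / (r : ℚ)) := by
  by_contra hq
  have hsR : (200000 : ℝ) < s := by exact_mod_cast hs
  have hsp : (0 : ℝ) < s := by linarith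
  set y : ℝ := Real.sqrt s with hy
  set x : ℝ := Real.log s with hx
  have hy2 : y ^ 2 = s := Real.sq_sqrt hsp.le
  have hyp : 0 < y := Real.sqrt_pos.2 hsp
  have hy447 : 447 ≤ y := by
    by_contra hcon
    rw [not_le] at hcon
    have h1 : y ^ 2 < 447 ^ 2 := pow_lt_pow_left₀ hcon hyp.le (by norm_num)
    rw [hy2] at h1
    norm_num at h1
    linarith
  have hl2 := Real.log_two_gt_d9
  have hl2' := Real.log_two_lt_d9
  have hx1 : 11.78 ≤ x := by
    have h1 : Real.log ((2 : ℝ) ^ 17) ≤ x := Real.log_le_log (by norm_num) (by norm_num; linarith)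
    rw [Real.log_pow] at h1
    push_cast at h1
    linarith
  have hxy : x = 2 * Real.log y := by
    rw [hx, ← hy2, Real.log_pow]
    push_cast
    ring
  have hx2 : x ≤ 0.028 * y := by
    have h1 : Real.log y = Real.log 512 + Real.log (y / 512) := by
      rw [← Real.log_mul (by norm_num) (by positivity)]
      congr 1
      field_simp
    have h2 : Real.log 512 = 9 * Real.log 2 := by
      rw [show (512 : ℝ) = 2 ^ 9 by norm_num, Real.log_pow]
      norm_num
    have h3 := Real.log_le_sub_one_of_pos (by positivity : 0 < y / 512)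
    rw [hxy]
    linarith
  have hl3 : Real.log 3 ≤ 1.2 := by
    have h1 : Real.log 3 = 2 * Real.log 2 + Real.log (3 / 4) := by
      rw [show (2 : ℝ) * Real.log 2 = Real.log (2 ^ 2) by rw [Real.log_pow]; norm_num,
        ← Real.log_mul (by norm_num) (by norm_num)]
      norm_num
    have h2 := Real.log_le_sub_one_of_pos (by norm_num : (0 : ℝ) < 3 / 4)
    linarith
  have hl999 : -0.01 ≤ Real.log 0.999 := by
    have h3 := Real.one_sub_inv_le_log_of_pos (by norm_num : (0 : ℝ) < 0.999)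
    norm_num at h3 ⊢
    linarith
  have hxyp : 5000 ≤ x * y := by nlinarith
  -- the length of the chains
  set n : ℕ := ⌊x / 8⌋₊ with hn
  have hn1 : (n : ℝ) ≤ x / 8 := Nat.floor_le (by linarith)
  have hn2 : x / 8 < n + 1 := Nat.lt_floor_add_one _
  have hn3 : 1 ≤ n := by
    rw [hn]
    exact Nat.le_floor (by push_cast; linarith)
  -- the parameter `G`
  set g : ℝ := (x * y - 1) / (2 * n + 1) with hg
  have hgl : 2.98 * y - 0.26 ≤ g := by
    rw [hg, le_div_iff₀ (by positivity)]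
    have h1 : (2.98 * y - 0.26) * (2 * n + 1) ≤ (2.98 * y - 0.26) * (x / 4 + 1) :=
      mul_le_mul_of_nonneg_left (by linarith) (by linarith)
    nlinarith
  set G : ℕ := ⌊Real.exp g⌋₊ with hG
  have hG0 : 0 < Real.exp g := Real.exp_pos _
  have hG1 : (G : ℝ) ≤ Real.exp g := Nat.floor_le hG0.le
  have hGb : 1000 ≤ Real.exp g := by
    have := Real.add_one_le_exp g
    linarith
  have hG2 : 0.999 * Real.exp g ≤ G := by
    have h1 := Nat.lt_floor_add_one (Real.exp g)
    rw [← hG] at h1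
    linarith
  have hGp : (0 : ℝ) < G := by nlinarith
  have hlG : g - 0.01 ≤ Real.log G := by
    have h1 : Real.log (0.999 * Real.exp g) ≤ Real.log G := Real.log_le_log (by positivity) hG2
    rw [Real.log_mul (by norm_num) hG0.ne', Real.log_exp] at h1
    linarith
  -- the parameter `w`
  set e : ℝ := Real.exp (x * y / 2) with he
  have he0 : 0 < e := Real.exp_pos _
  have heb : 1000 ≤ e := by
    have := Real.add_one_le_exp (x * y / 2)
    rw [← he] at this
    linarith
  set w : ℕ := ⌊e⌋₊ with hw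
  have hw1 : (w : ℝ) ≤ e := Nat.floor_le he0.le
  have hw2 : 0.999 * e ≤ w := by
    have h1 := Nat.lt_floor_add_one e
    rw [← hw] at h1
    linarith
  have hwp : (0 : ℝ) < w := by nlinarith
  have hwr : w ^ 10 ≤ r := by
    have h1 : (w : ℝ) ^ 10 ≤ r := by
      have h2 : (w : ℝ) ^ 10 ≤ e ^ 10 := pow_le_pow_left₀ hwp.le hw1 10
      have h3 : e ^ 10 = Real.exp (5 * y * x) := by
        rw [he, ← Real.exp_nat_mul]
        congr 1
        push_cast
        ring
      rw [h3] at h2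
      refine h2.trans (le_trans ?_ h)
      rw [Real.exp_le_exp]
      apply mul_le_mul_of_nonneg_left _ (by positivity)
      exact Real.log_le_log hsp (by linarith)
    exact_mod_cast h1
  have hGw : G ^ (2 * n + 1) ≤ w ^ 2 := by
    have h1 : (G : ℝ) ^ (2 * n + 1) ≤ (w : ℝ) ^ 2 := by
      have h2 : (G : ℝ) ^ (2 * n + 1) ≤ Real.exp g ^ (2 * n + 1) :=
        pow_le_pow_left₀ hGp.le hG1 _
      have h3 : Real.exp g ^ (2 * n + 1) = Real.exp (x * y - 1) := by
        rw [← Real.exp_nat_mul]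
        congr 1
        rw [hg]
        push_cast
        field_simp
      rw [h3] at h2
      have h4 : Real.exp (x * y - 1) * Real.exp 1 = e ^ 2 := by
        rw [he, ← Real.exp_add, ← Real.exp_nat_mul]
        congr 1
        push_cast
        ring
      have h5 : (2 : ℝ) ≤ Real.exp 1 := by
        have := Real.add_one_le_exp (1 : ℝ)
        linarith
      have h6 : Real.exp (x * y - 1) * 2 ≤ e ^ 2 := by
        rw [← h4]
        exact mul_le_mul_of_nonneg_left h5 (Real.exp_pos _).le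
      have h7 : (0.999 * e) ^ 2 ≤ (w : ℝ) ^ 2 := pow_le_pow_left₀ (by positivity) hw2 2
      nlinarith [Real.exp_pos (x * y - 1)]
    exact_mod_cast h1
  -- the logarithms
  set ℓ : ℝ := Real.log ((G : ℝ) / (3 * s)) with hℓ
  have hℓy : 2.94 * y ≤ ℓ := by
    rw [hℓ, Real.log_div hGp.ne' (by positivity), Real.log_mul (by norm_num) hsp.ne', ← hx]
    linarith
  have hℓp : 0 < ℓ := by nlinarith
  have hG3 : 3 * (s : ℝ) ≤ G := by
    have h1 : 1 < (G : ℝ) / (3 * s) := by
      by_contra hcon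
      rw [not_lt] at hcon
      have := Real.log_nonpos (by positivity) hcon
      linarith
    rw [lt_div_iff₀ (by positivity)] at h1
    linarith
  have hG3' : 3 * s ≤ G := by exact_mod_cast hG3
  have hG121 : (1000 : ℝ) ≤ G := by linarith
  have hwG : 11 * (G : ℝ) ≤ w := by
    have h1 : (G : ℝ) ^ 3 ≤ (w : ℝ) ^ 2 := by
      have h2 : (G : ℝ) ^ 3 ≤ (G : ℝ) ^ (2 * n + 1) :=
        pow_le_pow_right₀ (by linarith) (by omega)
      exact h2.trans (by exact_mod_cast hGw)
    by_contra hcon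
    rw [not_le] at hcon
    have h2 : (w : ℝ) ^ 2 < (11 * (G : ℝ)) ^ 2 := pow_lt_pow_left₀ hcon hwp.le (by norm_num)
    nlinarith [mul_pos hGp hGp]
  have hΩ : ℓ ≤ Real.log ((w : ℝ) / (33 * s)) := by
    apply Real.log_le_log (by positivity)
    rw [div_le_div_iff₀ (by positivity) (by positivity)]
    nlinarith
  have hlogG : ℓ ≤ Real.log G := by
    apply Real.log_le_log (by positivity)
    rw [div_le_iff₀ (by positivity)]
    nlinarith
  have hΛ : ℓ ≤ Real.log ((w : ℝ) ^ 2 / 3) := by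
    apply Real.log_le_log (by positivity)
    rw [div_le_div_iff₀ (by positivity) (by positivity)]
    have h1 : (G : ℝ) ≤ (w : ℝ) ^ 2 := by nlinarith
    nlinarith
  have hsw : 33 * s ≤ w := by
    have h1 : 33 * (s : ℝ) ≤ w := by linarith
    exact_mod_cast h1
  have hw100 : 100 ≤ w := by
    have h1 : (100 : ℝ) ≤ w := by linarith
    exact_mod_cast h1
  have key := gmain_ineq s r w G n (by omega) hq hw100 hwr hsw hG3' hGw
  rw [← hℓ] at key
  have k1 : (ℓ ^ 2 / s) ^ n * ℓ ≤ (ℓ ^ 2 / s) ^ n * Real.log G :=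
    mul_le_mul_of_nonneg_left hlogG (by positivity)
  have k2 : ((ℓ ^ 2 / s) ^ n * ℓ) ^ 2 ≤ ((ℓ ^ 2 / s) ^ n * Real.log G) ^ 2 :=
    pow_le_pow_left₀ (by positivity) k1 2
  have k3 : ℓ ^ 2 ≤ Real.log ((w : ℝ) ^ 2 / 3) ^ 2 := pow_le_pow_left₀ hℓp.le hΛ 2
  have k4 : ((ℓ ^ 2 / s) ^ n * ℓ) ^ 2 * ℓ ^ 2 * ℓ ≤ (s : ℝ) ^ 3 := by
    have h1 : ((ℓ ^ 2 / s) ^ n * ℓ) ^ 2 * ℓ ^ 2 * ℓ ≤ ((ℓ ^ 2 / s) ^ n * Real.log G) ^ 2 *
        Real.log ((w : ℝ) ^ 2 / 3) ^ 2 * Real.log ((w : ℝ) / (33 * s)) :=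
      mul_le_mul (mul_le_mul k2 k3 (by positivity) (by positivity)) hΩ hℓp.le (by positivity)
    have h2 : 0 ≤ ((ℓ ^ 2 / s) ^ n * ℓ) ^ 2 * ℓ ^ 2 * ℓ := by positivity
    nlinarith
  have k5 : ((ℓ ^ 2 / s) ^ n * ℓ) ^ 2 * ℓ ^ 2 * ℓ = ℓ ^ (4 * n + 5) / s ^ (2 * n) := by
    rw [div_pow, ← pow_mul, mul_pow, div_pow, ← pow_mul, ← pow_mul]
    field_simp
    ring
  rw [k5, div_le_iff₀ (by positivity), ← pow_add, ← hy2, ← pow_mul] at k4
  have he1 : Real.exp 1 * y ≤ ℓ := by
    have h1 := Real.exp_one_lt_d9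
    nlinarith
  have k6 : (Real.exp 1 * y) ^ (4 * n + 5) ≤ ℓ ^ (4 * n + 5) :=
    pow_le_pow_left₀ (by positivity) he1 _
  have k7 : (Real.exp 1 * y) ^ (4 * n + 5) ≤ y ^ (4 * n + 5) * y := by
    refine (k6.trans k4).trans (le_of_eq ?_)
    rw [← pow_succ]
    congr 1
    ring
  rw [mul_pow, mul_comm] at k7
  have k8 := le_of_mul_le_mul_left k7 (by positivity)
  have k9 : y = Real.exp (x / 2) := by
    rw [hxy, show 2 * Real.log y / 2 = Real.log y by ring, Real.exp_log hyp]
  rw [k9, ← Real.exp_nat_mul, Real.exp_le_exp] at k8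
  push_cast at k8
  linarith

/-- The comparison of the two thresholds. -/
theorem gen_small (s : ℕ) (hs1 : 1 ≤ s) (hs : s ≤ 200000) :
    2 * Real.exp ((s : ℝ) / 8) ≤ Real.exp (5 * Real.sqrt s * Real.log ((s : ℝ) + 2)) := by
  have hsR : (1 : ℝ) ≤ s := by exact_mod_cast hs1
  have hsR' : (s : ℝ) ≤ 200000 := by exact_mod_cast hs
  have hsp : (0 : ℝ) < s := by linarith
  set y : ℝ := Real.sqrt s with hy
  have hy2 : y ^ 2 = s := Real.sq_sqrt hsp.le
  have hyp : 0 < y := Real.sqrt_pos.2 hsp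
  have hy1 : 1 ≤ y := by
    by_contra hcon
    rw [not_le] at hcon
    have h1 : y ^ 2 < 1 ^ 2 := pow_lt_pow_left₀ hcon hyp.le (by norm_num)
    rw [hy2] at h1
    linarith
  have hl2 := Real.log_two_gt_d9
  have hl2' := Real.log_two_lt_d9
  have h2 : (2 : ℝ) = Real.exp (Real.log 2) := (Real.exp_log (by norm_num)).symm
  have h3 : 2 * Real.exp ((s : ℝ) / 8) = Real.exp (Real.log 2 + s / 8) := by
    rw [Real.exp_add, ← h2]
  rw [h3, Real.exp_le_exp, ← hy2]
  have key : ∀ (a : ℕ) (b : ℝ), ((2 : ℝ) ^ a ≤ s) → y ≤ b → 0.7 + b / 8 ≤ 5 * (a * 0.693) →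
      Real.log 2 + y ^ 2 / 8 ≤ 5 * y * Real.log (y ^ 2 + 2) := by
    intro a b ha hb hab
    have h4 : (a : ℝ) * 0.693 ≤ Real.log (y ^ 2 + 2) := by
      have h5 : Real.log ((2 : ℝ) ^ a) ≤ Real.log (y ^ 2 + 2) :=
        Real.log_le_log (by positivity) (by rw [hy2]; linarith)
      rw [Real.log_pow] at h5
      have h6 : (a : ℝ) * 0.693 ≤ a * Real.log 2 :=
        mul_le_mul_of_nonneg_left (by linarith) (Nat.cast_nonneg _)
      linarith
    have h5 : y * (5 * (a * 0.693)) ≤ y * (5 * Real.log (y ^ 2 + 2)) :=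
      mul_le_mul_of_nonneg_left (by linarith) hyp.le
    have h6 : y * (0.7 + b / 8) ≤ y * (5 * (a * 0.693)) := mul_le_mul_of_nonneg_left hab hyp.le
    have h7 : y * y ≤ y * b := mul_le_mul_of_nonneg_left hb hyp.le
    nlinarith
  have bnd : ∀ b : ℝ, 0 < b → (s : ℝ) ≤ b ^ 2 → y ≤ b := by
    intro b hb hsb
    rw [← hy2] at hsb
    exact (pow_le_pow_iff_left₀ hyp.le hb.le (by norm_num)).1 hsb
  rcases le_or_gt ((2 : ℝ) ^ 17) s with c1 | c1
  · exact key 17 448 c1 (bnd 448 (by norm_num) (by norm_num; linarith)) (by norm_num)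
  · rcases le_or_gt ((2 : ℝ) ^ 16) s with c2 | c2
    · exact key 16 363 c2 (bnd 363 (by norm_num) (by norm_num at c1 ⊢; linarith)) (by norm_num)
    · rcases le_or_gt ((2 : ℝ) ^ 10) s with c3 | c3
      · exact key 10 256 c3 (bnd 256 (by norm_num) (by norm_num at c2 ⊢; linarith)) (by norm_num)
      · rcases le_or_gt ((2 : ℝ) ^ 2) s with c4 | c4
        · exact key 2 32 c4 (bnd 32 (by norm_num) (by norm_num at c3 ⊢; linarith)) (by norm_num)
        · have h4 : y ≤ 2 := bnd 2 (by norm_num) (by norm_num at c4 ⊢; linarith)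
          have h5 : Real.log 2 ≤ Real.log (y ^ 2 + 2) :=
            Real.log_le_log (by norm_num) (by nlinarith)
          have h6 : y * Real.log 2 ≤ y * Real.log (y ^ 2 + 2) :=
            mul_le_mul_of_nonneg_left h5 hyp.le
          nlinarith

/-- Natural numerators. -/
theorem gen_nat (s r : ℕ) (hs : 1 ≤ s)
    (h : Real.exp (5 * Real.sqrt s * Real.log ((s : ℝ) + 2)) ≤ (r : ℝ)) :
    IsRelationNumber ((s : ℚ) / (r : ℚ)) := by
  rcases le_or_gt s 200000 with h1 | h1
  · exact (h1_main s r hs ((gen_small s hs h1).trans h)).1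
  · exact gen_large s r h1 h

/-- The improved denominator thresholds. -/
theorem gen_main (s : ℤ) (r : ℕ)
    (h : 2 * Real.exp (|(s : ℝ)| / 8) ≤ (r : ℝ) ∨
      Real.exp (11 / 2 * |(s : ℝ)| ^ (3 / 5 : ℝ)) ≤ (r : ℝ) ∨
      Real.exp (5 * Real.sqrt |(s : ℝ)| * Real.log (|(s : ℝ)| + 2)) ≤ (r : ℝ)) :
    IsRelationNumber ((s : ℚ) / (r : ℚ)) := by
  rcases h with h | h | h
  · exact large_den s r h
  · exact fin_main s r (Or.inr h)
  · rcases eq_or_ne s 0 with h0 | h0
    · rw [h0, Int.cast_zero, zero_div]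
      exact isRelationNumber_zero
    · have h1 : |(s : ℝ)| = ((s.natAbs : ℕ) : ℝ) := by
        rw [Nat.cast_natAbs, Int.cast_abs]
      rw [h1] at h
      have h2 := gen_nat s.natAbs r (Int.natAbs_pos.2 h0) h
      rcases le_or_gt 0 s with h3 | h3
      · have h4 : ((s.natAbs : ℕ) : ℚ) = (s : ℚ) := by
          rw [Nat.cast_natAbs, abs_of_nonneg h3]
        rw [h4] at h2
        exact h2
      · have h4 : ((s.natAbs : ℕ) : ℚ) = -(s : ℚ) := by
          rw [Nat.cast_natAbs, abs_of_neg h3, Int.cast_neg]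
        rw [h4] at h2
        have h5 := h2.neg
        rw [neg_div, neg_neg] at h5
        exact h5

end Pool.Agent.H1102
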