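import Mathlib
import Pool.Agent.Lib.H1102.GFin

set_option autoImplicit false

namespace Pool.Agent.H1102

open Pool.Agent.H78.Farbman Pool.Agent.H73F

/-- The range of numerators for a given denominator. -/
theorem gen_cor (s : ℤ) (r : ℕ) (hr : 16 ≤ r)
    (h : |(s : ℝ)| ≤ (Real.log r / (10 * Real.log (Real.log r))) ^ 2) :
    IsRelationNumber ((s : ℚ) / (r : ℚ)) := by
  refine gen_main s r (Or.inr (Or.inr ?_))
  have hrR : (16 : ℝ) ≤ r := by exact_mod_cast hr
  set L : ℝ := Real.log r with hL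
  have hl2 := Real.log_two_gt_d9
  have hL1 : 2.77 ≤ L := by
    have h1 : Real.log ((2 : ℝ) ^ 4) ≤ L := Real.log_le_log (by norm_num) (by linarith)
    rw [Real.log_pow] at h1
    push_cast at h1
    linarith
  have hLp : 0 < L := by linarith
  set M : ℝ := Real.log L with hM
  have hM1 : 1 ≤ M := by
    rw [hM, Real.le_log_iff_exp_le hLp]
    have := Real.exp_one_lt_d9
    linarith
  have hMp : 0 < M := by linarith
  have h1 : L / (10 * M) ≤ L / 10 :=
    div_le_div_of_nonneg_left hLp.le (by norm_num) (by linarith)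
  have h2 : |(s : ℝ)| ≤ L ^ 2 / 100 := by
    refine h.trans ?_
    have h3 : (L / (10 * M)) ^ 2 ≤ (L / 10) ^ 2 := pow_le_pow_left₀ (by positivity) h1 2
    refine h3.trans (le_of_eq ?_)
    ring
  have h3 : Real.sqrt |(s : ℝ)| ≤ L / (10 * M) := by
    rw [show L / (10 * M) = Real.sqrt ((L / (10 * M)) ^ 2) from
      (Real.sqrt_sq (by positivity)).symm]
    exact Real.sqrt_le_sqrt h
  have h4 : Real.log (|(s : ℝ)| + 2) ≤ 2 * M := by
    have h5 : Real.log (|(s : ℝ)| + 2) ≤ Real.log (L ^ 2) :=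
      Real.log_le_log (by positivity) (by nlinarith)
    rw [Real.log_pow] at h5
    push_cast at h5
    exact h5
  have h5 : 5 * Real.sqrt |(s : ℝ)| * Real.log (|(s : ℝ)| + 2) ≤ L := by
    have h6 : 0 ≤ Real.log (|(s : ℝ)| + 2) :=
      Real.log_nonneg (by linarith [abs_nonneg (s : ℝ)])
    have h7 : 5 * Real.sqrt |(s : ℝ)| * Real.log (|(s : ℝ)| + 2) ≤
        5 * (L / (10 * M)) * (2 * M) :=
      mul_le_mul (by linarith) h4 h6 (by positivity)
    refine h7.trans (le_of_eq ?_)
    field_simp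
    norm_num
  calc Real.exp (5 * Real.sqrt |(s : ℝ)| * Real.log (|(s : ℝ)| + 2)) ≤ Real.exp L :=
        Real.exp_le_exp.2 h5
    _ = r := Real.exp_log (by linarith)

end Pool.Agent.H1102
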